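import Pool.Agent.K6.H95.OC.StepIIb
set_option autoImplicit false

/-!
The first neck.
-/

namespace Pool.Agent.K6.H95.OC

open Pool.Agent.W367.KT Pool.Agent.T6.H7.SX
open Set MeasureTheory intervalIntegral

theorem base_neck : ∃ B0 : ℝ, ∀ (R : ℝ) (k : ℂ), 1 / 10 < R → R < 1 / 9 → 10 ^ 6 ≤ ‖k‖ →
    ∃ y : ℝ → ℂ, Neck R k (circ R) y 1 k 1 (1 / 10) (1 / 9) B0 := by
  set j : ℝ := J 1 0 with hj
  have hj0 : 0 ≤ j := by rw [hj]; unfold J; positivity
  set b1 : ℝ := 2 * j + j + 2 * Real.pi * |(((0 : ℤ) - (1 : ℤ) : ℤ):ℝ)| + 1 with hb1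
  have hb10 : 0 ≤ b1 := by rw [hb1]; positivity
  set b2 : ℝ := 2 * Real.pi * |((-2 : ℤ):ℝ)| + (j + 2 * b1) with hb2
  have hb20 : 0 ≤ b2 := by rw [hb2]; positivity
  refine ⟨b1 + (1 + 2 * (2 * b2)), fun R k hR1 hR2 hk => ?_⟩
  have hR : 0 < R := by linarith
  have hk0 : k ≠ 0 := by rw [← norm_pos_iff]; linarith
  have nx : ∀ t, ‖circ R t‖ = R := norm_circ hR
  have x_ne : ∀ t, circ R t ≠ 0 := circ_ne_zero hR
  have n1p : ∀ t, 8 / 9 ≤ ‖1 + circ R t‖ := fun t => by
    have h := norm_sub_norm_le (1 : ℂ) (-circ R t)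
    rw [norm_one, norm_neg, nx, sub_neg_eq_add] at h
    linarith
  have n1p' : ∀ t, ‖1 + circ R t‖ ≤ 10 / 9 := fun t => by
    have h := norm_add_le (1 : ℂ) (circ R t)
    rw [norm_one, nx] at h
    linarith
  have n2p' : ∀ t, ‖2 + circ R t‖ ≤ 3 := fun t => by
    have h := norm_add_le (2 : ℂ) (circ R t)
    rw [Complex.norm_ofNat, nx] at h
    linarith
  have ne1p : ∀ t, 1 + circ R t ≠ 0 := fun t => by
    rw [← norm_pos_iff]; linarith [n1p t]
  have rx : RP R (circ R) 1 1 0 := Rep.x R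
  have r1 : RP R (fun t => 1 + circ R t) 1 0 j :=
    (rx.add_dom hR le_rfl one_ne_zero (fun t => by rw [nx, norm_one]; linarith)).congr
      (fun t => by ring) rfl rfl le_rfl le_rfl
  have r2 : RP R (fun t => -(2 + circ R t)) (-1 * 2) 0 j :=
    (RP.const_mul hR (rx.add_dom hR le_rfl (two_ne_zero : (2:ℂ) ≠ 0) (fun t => by
      rw [nx, Complex.norm_ofNat]; linarith)) (-1)).congr
      (fun t => by ring) rfl rfl le_rfl le_rfl
  have r3 : RP R (fun t => k * circ R t * (1 + circ R t)⁻¹) k 1 j :=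
    ((RP.const_mul hR rx k).mul hR r1.inv).congr (fun t => rfl) (by rw [inv_one]; ring) (by ring) (by linarith)
      (by linarith)
  have n3 : ∀ t, 9 / 100 * ‖k‖ ≤ ‖k * circ R t * (1 + circ R t)⁻¹‖ := by
    intro t
    rw [norm_mul, norm_mul, nx, norm_inv]
    have h1 : 9 / 10 ≤ ‖1 + circ R t‖⁻¹ := by
      rw [le_inv_comm₀ (by norm_num) (by linarith [n1p t])]
      linarith [n1p' t]
    have h2 := norm_nonneg k
    calc 9 / 100 * ‖k‖ = ‖k‖ * (1 / 10) * (9 / 10) := by ring
      _ ≤ ‖k‖ * R * ‖1 + circ R t‖⁻¹ := by gcongr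
  set Bf : ℝ → ℂ := fun t => k * circ R t * (1 + circ R t)⁻¹ + -(2 + circ R t) with hBf
  have r4 : RP R Bf k 1 b1 := by
    have h := r3.add_gen hR r2 hk0 (fun t => by
      rw [norm_neg]
      linarith [n2p' t, n3 t])
    exact h
  have nB : ∀ t, 80000 ≤ ‖Bf t‖ := by
    intro t
    have h1 := norm_sub_norm_le (k * circ R t * (1 + circ R t)⁻¹) (2 + circ R t)
    have e : Bf t = k * circ R t * (1 + circ R t)⁻¹ - (2 + circ R t) := by
      simp only [hBf]
      ring
    rw [e]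
    linarith [n2p' t, n3 t]
  have B_ne : ∀ t, Bf t ≠ 0 := fun t => by
    rw [← norm_pos_iff]; linarith [nB t]
  set δ : ℝ → ℂ := fun t => (1 + circ R t) * (Bf t * Bf t)⁻¹ with hδ
  have r5 : RP R δ (1 * (k * k)⁻¹) (-2) (j + 2 * b1) := by
    have h := r1.mul hR (RP.inv (r4.mul hR r4))
    exact h.congr (fun t => rfl) rfl (by ring) (by linarith) (by linarith)
  have nδ : ∀ t, ‖δ t‖ ≤ 1 / 100000 := by
    intro t
    simp only [hδ]
    rw [norm_mul, norm_inv, norm_mul, ← div_eq_mul_inv, div_le_iff₀ (by have := nB t; positivity)]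
    have := nB t
    have := n1p' t
    nlinarith
  obtain ⟨cδ, dδ⟩ := r5.deriv_bd hR
  obtain ⟨v, cv, hv, nv⟩ := exists_v cδ nδ
  have dv : ∀ t, ‖deriv v t‖ ≤ 2 * b2 := by
    intro t
    have h1 : HasDerivAt v (deriv v t) t := ((cv.1.differentiable (by norm_num)) t).hasDerivAt
    have h2 : HasDerivAt δ (deriv δ t) t := ((cδ.1.differentiable (by norm_num)) t).hasDerivAt
    have h3 := ((h1.pow 2).sub h1).add h2
    have h4 : (v ^ 2 - v + δ) = fun _ => (0:ℂ) := by
      funext t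
      simpa using hv t
    rw [h4] at h3
    have h5 := h3.unique (hasDerivAt_const t 0)
    have h6 : (2 * v t - 1) * deriv v t = - deriv δ t := by
      norm_num at h5
      linear_combination h5
    have h7 : 1 / 2 ≤ ‖2 * v t - 1‖ := by
      have e : 2 * v t - 1 = 1 - -(2 * (v t - 1)) := by ring
      have h8 := norm_sub_norm_le (1 : ℂ) (-(2 * (v t - 1)))
      rw [← e, norm_one, norm_neg, norm_mul, Complex.norm_ofNat] at h8
      linarith [nv t]
    have h8 : ‖2 * v t - 1‖ * ‖deriv v t‖ = ‖deriv δ t‖ := by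
      rw [← norm_mul, h6, norm_neg]
    have h9 : ‖deriv δ t‖ ≤ b2 := by
      refine (dδ t).trans ?_
      calc ‖δ t‖ * b2 ≤ 1 * b2 := by
            gcongr
            linarith [nδ t]
        _ = b2 := one_mul _
    have h10 : 1 / 2 * ‖deriv v t‖ ≤ ‖2 * v t - 1‖ * ‖deriv v t‖ := by gcongr
    linarith
  have r6 : RP R v 1 0 (1 + 2 * (2 * b2)) := by
    have h := rp_near (R := R) (E := fun t => 1 - v t) ((CC.const 1).sub cv) (fun t => by
      rw [norm_sub_rev]; linarith [nv t]) (D := 2 * b2) (fun t => by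
      have h1 : HasDerivAt v (deriv v t) t := ((cv.1.differentiable (by norm_num)) t).hasDerivAt
      rw [(h1.const_sub 1).deriv, norm_neg]
      exact dv t)
    exact h.congr (fun t => by ring) rfl rfl le_rfl le_rfl
  have r7 : RP R (fun t => Bf t * v t) k 1 (b1 + (1 + 2 * (2 * b2))) :=
    (r4.mul hR r6).congr (fun t => rfl) (by ring) (by ring) le_rfl le_rfl
  refine ⟨fun t => Bf t * v t, hR, rx.mono (by positivity), r7, fun t => by rw [nx]; exact hR1.le,
    fun t => by rw [nx]; exact hR2.le, by norm_num, by norm_num, ?_, ?_, one_ne_zero, hk0, hk0⟩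
  · intro t
    have h1 : (Bf t * v t) ^ 2 - Bf t * (Bf t * v t) + (1 + circ R t) = 0 := by
      have h2 := hv t
      have h3 := B_ne t
      have h4 : Bf t ^ 2 * (v t ^ 2 - v t + δ t) = 0 := by rw [h2, mul_zero]
      have h5 : Bf t ^ 2 * δ t = 1 + circ R t := by
        simp only [hδ]
        field_simp
      linear_combination h4 - h5
    have h5 : Bf t * (1 + circ R t) = k * circ R t - (2 + circ R t) * (1 + circ R t) := by
      simp only [hBf]
      have := ne1p t
      field_simp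
      ring
    unfold Ly
    generalize Bf t * v t = y at *
    generalize Bf t = b at *
    generalize circ R t = x at *
    linear_combination (1 + x) * h1 + y * h5
  · intro t
    rw [norm_mul]
    have h1 : 1 / 2 ≤ ‖v t‖ := by
      have h := norm_sub_norm_le (1 : ℂ) (1 - v t)
      rw [norm_one, norm_sub_rev, sub_sub_cancel] at h
      linarith [nv t]
    have h2 := nB t
    calc (10:ℝ) ^ 4 ≤ 80000 * (1 / 2) := by norm_num
      _ ≤ _ := by gcongr

end Pool.Agent.K6.H95.OC
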