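import Pool.Agent.K6.H95.OC.Real8
set_option autoImplicit false

/-!
Bounds for the units at the eight real roots.
-/

namespace Pool.Agent.K6.H95.OC

open Pool.Agent.T6.H7.SX
open Set

section bounds

variable {n : ℝ} (hn : 2000 ≤ n) {s u τ : ℝ} (R : RT n s u τ)
include hn R

theorem sm0_real : s - 1 ≠ 0 := by
  intro h0
  have h1 := R.hs
  have h2 : τ * s = 0 := by rw [← h1]; linear_combination (s + 1) * h0
  exact mul_ne_zero R.τ0 R.s0 h2

theorem sp0_real : s + 1 ≠ 0 := by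
  intro h0
  have h1 := R.hs
  have h2 : τ * s = 0 := by rw [← h1]; linear_combination (s - 1) * h0
  exact mul_ne_zero R.τ0 R.s0 h2

theorem abs_eb : |eb s| = s ^ 2 * |s + 1| / |s - 1| := by
  unfold eb
  rw [abs_div, abs_mul, abs_of_nonneg (sq_nonneg s)]

theorem abs_eb_inv : |-1 / eb s| = |s - 1| / (s ^ 2 * |s + 1|) := by
  rw [abs_div, abs_neg, abs_one, abs_eb hn R, one_div_div]

theorem abs_et : |et n s| = |u - 1| / |1 - s| := by
  unfold et
  rw [eu_real hn R, abs_div]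

theorem abs_et_inv : |-1 / et n s| = |1 - s| / |u - 1| := by
  rw [abs_div, abs_neg, abs_one, abs_et hn R, one_div_div]

theorem inv_sq_bd : 8 / n ^ 2 ≤ 1 / 1000 := by
  have _ := R
  rw [div_le_div_iff₀ (by positivity) (by norm_num)]
  nlinarith

theorem b_posSmall (hs : 0 < s) (hu1 : -1 < u) (hu2 : u < 1) : n ≤ |eb s| ∧ |ev n s 0| ≤ 10 := by
  obtain ⟨t1, t2⟩ := tau_small hn R hu1 hu2
  obtain ⟨s1, s2, s3⟩ := s_pos_small hn R hs t1
  have h8 := inv_sq_bd hn R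
  have h0 : 0 < n := by linarith
  constructor
  · rw [abs_eb hn R, abs_of_pos (by linarith : 0 < s + 1), abs_of_pos (by linarith : 0 < s - 1),
      le_div_iff₀ (by linarith)]
    have h1 : n * (s - 1) ≤ n * (8 / n ^ 2) := by gcongr; linarith
    have h2 : n * (8 / n ^ 2) = 8 / n := by field_simp
    have h3 : 8 / n ≤ 1 := by rw [div_le_one h0]; linarith
    nlinarith
  · show |s| ≤ 10
    rw [abs_of_pos hs]
    linarith

theorem c1 (hs : 0 < s) (hu1 : 1 - 1 / n < u) (hu2 : u < 1) :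
    n ≤ |eb s| ∧ |ev n s 0| ≤ 10 ∧ |et n s| ≤ 10 := by
  obtain ⟨i1, i2⟩ := inv_small hn
  obtain ⟨t1, t2⟩ := tau_small hn R (by linarith) hu2
  obtain ⟨s1, s2, s3⟩ := s_pos_small hn R hs t1
  obtain ⟨b1, b2⟩ := b_posSmall hn R hs (by linarith) hu2
  refine ⟨b1, b2, ?_⟩
  rw [abs_et hn R, abs_of_neg (by linarith : u - 1 < 0), abs_of_neg (by linarith : 1 - s < 0),
    div_le_iff₀ (by linarith)]
  have h1 : (1 - u) * (1 + u) = τ := by linear_combination -R.hu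
  nlinarith

theorem c2 (hs : 0 < s) (hu1 : -1 < u) (hu2 : u < -1 + 1 / n) :
    n ≤ |eb s| ∧ |ev n s 0| ≤ 10 ∧ 1000 ≤ |et n s| := by
  obtain ⟨i1, i2⟩ := inv_small hn
  obtain ⟨t1, t2⟩ := tau_small hn R hu1 (by linarith)
  obtain ⟨s1, s2, s3⟩ := s_pos_small hn R hs t1
  obtain ⟨b1, b2⟩ := b_posSmall hn R hs hu1 (by linarith)
  have h8 := inv_sq_bd hn R
  refine ⟨b1, b2, ?_⟩
  rw [abs_et hn R, abs_of_neg (by linarith : u - 1 < 0), abs_of_neg (by linarith : 1 - s < 0),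
    le_div_iff₀ (by linarith)]
  nlinarith

theorem b_negLarge (hs : s < 0) (hu1 : n - 1 < u) (hu2 : u < n + 1) : n ≤ |eb s| ∧ 1000 ≤ |-1 / et n s| := by
  have hτ := tau_large hn R hu1 hu2
  obtain ⟨s1, s2⟩ := s_neg_large hn R hs hτ
  have h0 : 0 < n := by linarith
  have hs3 : s ≤ -n ^ 2 / 2 := by linarith
  have hs4 : s ≤ -1000 * n := by nlinarith
  constructor
  · rw [abs_eb hn R, abs_of_neg (by linarith : s + 1 < 0), abs_of_neg (by linarith : s - 1 < 0),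
      le_div_iff₀ (by linarith)]
    have h1 : n * -(s - 1) ≤ n * (2 * (-s)) := by
      apply mul_le_mul_of_nonneg_left _ h0.le
      linarith
    have h2 : s ^ 2 * (-s / 2) ≤ s ^ 2 * -(s + 1) := by
      apply mul_le_mul_of_nonneg_left _ (sq_nonneg s)
      linarith
    have h3 : n * (2 * (-s)) ≤ s ^ 2 * (-s / 2) := by
      have h4 : 4 * n ≤ s ^ 2 := by nlinarith
      have h5 : 0 < -s := by linarith
      nlinarith
    linarith
  · rw [abs_et_inv hn R, abs_of_pos (by linarith : 0 < 1 - s), abs_of_pos (by linarith : 0 < u - 1),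
      le_div_iff₀ (by linarith)]
    nlinarith

theorem s_abs_bd (hs : s < 0) (hu1 : n - 1 < u) (hu2 : u < n + 1) : |s + 1| ≤ -τ + 1 ∧ 1 ≤ -τ := by
  have hτ := tau_large hn R hu1 hu2
  obtain ⟨s1, s2⟩ := s_neg_large hn R hs hτ
  have h1 : 1 ≤ -τ := by nlinarith
  refine ⟨?_, h1⟩
  rw [abs_of_neg (by linarith)]
  linarith

theorem c3 (hs : s < 0) (hu1 : n - 1 < u) (hu2 : u < n - 1 + 1 / n) :
    n ≤ |eb s| ∧ |ev n s 1| ≤ 10 ∧ 1000 ≤ |-1 / et n s| := by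
  obtain ⟨i1, i2⟩ := inv_small hn
  obtain ⟨b1, b2⟩ := b_negLarge hn R hs hu1 (by linarith)
  obtain ⟨d1, d2⟩ := s_abs_bd hn R hs hu1 (by linarith)
  refine ⟨b1, ?_, b2⟩
  show |(s + 1) * (-1 + (n - eu n s)) / 2| ≤ 10
  rw [eu_real hn R, abs_div, abs_mul, abs_of_neg (by linarith : -1 + (n - u) < 0),
    abs_of_pos (by norm_num : (0:ℝ) < 2)]
  have h1 : (1 - (n - u)) * (1 + (n - u)) * (-τ) = 4 := by linear_combination R.hw
  have h2 : 0 < (1 - (n - u)) := by linarith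
  have h3 : (1 - (n - u)) * (-τ) ≤ 4 := by
    have : 0 < (1 - (n - u)) * (-τ) := by apply mul_pos h2; linarith
    nlinarith
  have h4 : |s + 1| * (1 - (n - u)) ≤ (-τ + 1) * (1 - (n - u)) := by gcongr
  rw [div_le_iff₀ (by norm_num)]
  nlinarith

theorem c4 (hs : s < 0) (hu1 : n + 1 - 1 / n < u) (hu2 : u < n + 1) :
    n ≤ |eb s| ∧ |ev n s 2| ≤ 10 ∧ 1000 ≤ |-1 / et n s| := by
  obtain ⟨i1, i2⟩ := inv_small hn
  obtain ⟨b1, b2⟩ := b_negLarge hn R hs (by linarith) hu2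
  obtain ⟨d1, d2⟩ := s_abs_bd hn R hs (by linarith) hu2
  refine ⟨b1, ?_, b2⟩
  show |(s + 1) * (-1 - (n - eu n s)) / 2| ≤ 10
  rw [eu_real hn R, abs_div, abs_mul, abs_of_neg (by linarith : -1 - (n - u) < 0),
    abs_of_pos (by norm_num : (0:ℝ) < 2)]
  have h1 : (1 + (n - u)) * (1 - (n - u)) * (-τ) = 4 := by linear_combination R.hw
  have h2 : 0 < (1 + (n - u)) := by linarith
  have h3 : (1 + (n - u)) * (-τ) ≤ 4 := by
    have : 0 < (1 + (n - u)) * (-τ) := by apply mul_pos h2; linarith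
    nlinarith
  have h4 : |s + 1| * (1 + (n - u)) ≤ (-τ + 1) * (1 + (n - u)) := by gcongr
  rw [div_le_iff₀ (by norm_num)]
  nlinarith

theorem b_negSmall (hs : s < 0) (hu1 : -1 < u) (hu2 : u < 1) :
    n ≤ |-1 / eb s| ∧ |-1 / ev n s 0| ≤ 10 ∧ s < -1 / 2 ∧ -1 < s := by
  obtain ⟨t1, t2⟩ := tau_small hn R hu1 hu2
  obtain ⟨s1, s2⟩ := s_neg_small hn R hs t1
  have h8 := inv_sq_bd hn R
  have h0 : 0 < n := by linarith
  refine ⟨?_, ?_, by linarith, s1⟩
  · rw [abs_eb_inv hn R, abs_of_neg (by linarith : s - 1 < 0), abs_of_pos (by linarith : 0 < s + 1),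
      le_div_iff₀ (by apply mul_pos (by nlinarith) (by linarith))]
    have h1 : n * (s + 1) ≤ n * (8 / n ^ 2) := by gcongr; linarith
    have h2 : n * (8 / n ^ 2) = 8 / n := by field_simp
    have h3 : 8 / n ≤ 1 := by rw [div_le_one h0]; linarith
    have h4 : s ^ 2 ≤ 1 := by nlinarith
    have h5 : 0 < n * (s + 1) := by apply mul_pos h0; linarith
    have h6 : n * (s ^ 2 * (s + 1)) ≤ 1 := by
      calc n * (s ^ 2 * (s + 1)) = s ^ 2 * (n * (s + 1)) := by ring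
        _ ≤ 1 * 1 := mul_le_mul h4 (by linarith) h5.le (by norm_num)
        _ = 1 := by norm_num
    linarith
  · show |-1 / s| ≤ 10
    rw [abs_div, abs_neg, abs_one, abs_of_neg hs, div_le_iff₀ (by linarith)]
    linarith

theorem c5 (hs : s < 0) (hu1 : -1 < u) (hu2 : u < -1 + 1 / n) :
    n ≤ |-1 / eb s| ∧ |-1 / ev n s 0| ≤ 10 ∧ |-1 / et n s| ≤ 10 := by
  obtain ⟨i1, i2⟩ := inv_small hn
  obtain ⟨b1, b2, b3, b4⟩ := b_negSmall hn R hs hu1 (by linarith)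
  refine ⟨b1, b2, ?_⟩
  rw [abs_et_inv hn R, abs_of_pos (by linarith : 0 < 1 - s), abs_of_neg (by linarith : u - 1 < 0),
    div_le_iff₀ (by linarith)]
  linarith

theorem c6 (hs : s < 0) (hu1 : 1 - 1 / n < u) (hu2 : u < 1) :
    n ≤ |-1 / eb s| ∧ |-1 / ev n s 0| ≤ 10 ∧ 1000 ≤ |-1 / et n s| := by
  obtain ⟨i1, i2⟩ := inv_small hn
  obtain ⟨b1, b2, b3, b4⟩ := b_negSmall hn R hs (by linarith) hu2
  obtain ⟨t1, t2⟩ := tau_small hn R (by linarith) hu2
  have h8 := inv_sq_bd hn R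
  refine ⟨b1, b2, ?_⟩
  rw [abs_et_inv hn R, abs_of_pos (by linarith : 0 < 1 - s), abs_of_neg (by linarith : u - 1 < 0),
    le_div_iff₀ (by linarith)]
  have h1 : (1 - u) * (1 + u) = τ := by linear_combination -R.hu
  nlinarith

theorem b_posLarge (hs : 0 < s) (hu1 : n - 1 < u) (hu2 : u < n + 1) :
    n ≤ |-1 / eb s| ∧ 1000 ≤ |et n s| ∧ s < 1 / 10 := by
  have hτ := tau_large hn R hu1 hu2
  obtain ⟨s1, s2⟩ := s_pos_large hn R hs hτ
  refine ⟨?_, ?_, s1⟩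
  · rw [abs_eb_inv hn R, abs_of_neg (by linarith : s - 1 < 0), abs_of_pos (by linarith : 0 < s + 1),
      le_div_iff₀ (by positivity)]
    have h1 : n * (s ^ 2 * (s + 1)) = (s ^ 2 * n) * (s + 1) := by ring
    rw [h1]
    have h2 : (s ^ 2 * n) * (s + 1) ≤ 1 / 4 * (s + 1) := by gcongr
    linarith
  · rw [abs_et hn R, abs_of_pos (by linarith : 0 < u - 1), abs_of_pos (by linarith : 0 < 1 - s),
      le_div_iff₀ (by linarith)]
    nlinarith

theorem c7 (hs : 0 < s) (hu1 : n - 1 < u) (hu2 : u < n - 1 + 1 / n) :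
    n ≤ |-1 / eb s| ∧ |-1 / ev n s 2| ≤ 10 ∧ 1000 ≤ |et n s| := by
  obtain ⟨i1, i2⟩ := inv_small hn
  obtain ⟨b1, b2, b3⟩ := b_posLarge hn R hs hu1 (by linarith)
  refine ⟨b1, ?_, b2⟩
  show |-1 / ((s + 1) * (-1 - (n - eu n s)) / 2)| ≤ 10
  rw [eu_real hn R, abs_div, abs_neg, abs_one, abs_div, abs_mul, abs_of_neg (by linarith : -1 - (n - u) < 0),
    abs_of_pos (by norm_num : (0:ℝ) < 2), abs_of_pos (by linarith : 0 < s + 1), one_div_div,
    div_le_iff₀ (by apply mul_pos <;> linarith)]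
  nlinarith

theorem c8 (hs : 0 < s) (hu1 : n + 1 - 1 / n < u) (hu2 : u < n + 1) :
    n ≤ |-1 / eb s| ∧ |-1 / ev n s 1| ≤ 10 ∧ 1000 ≤ |et n s| := by
  obtain ⟨i1, i2⟩ := inv_small hn
  obtain ⟨b1, b2, b3⟩ := b_posLarge hn R hs (by linarith) hu2
  refine ⟨b1, ?_, b2⟩
  show |-1 / ((s + 1) * (-1 + (n - eu n s)) / 2)| ≤ 10
  rw [eu_real hn R, abs_div, abs_neg, abs_one, abs_div, abs_mul, abs_of_neg (by linarith : -1 + (n - u) < 0),
    abs_of_pos (by norm_num : (0:ℝ) < 2), abs_of_pos (by linarith : 0 < s + 1), one_div_div,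
    div_le_iff₀ (by apply mul_pos <;> linarith)]
  nlinarith

end bounds

end Pool.Agent.K6.H95.OC
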