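import Mathlib
set_option autoImplicit false

/-!
The limit matrix, and stability of determinants.
-/

namespace Pool.Agent.K6.H95.OC

open Matrix

theorem det_stable {n : ℕ} (M0 : Matrix (Fin n) (Fin n) ℝ) (h : M0.det ≠ 0) :
    ∃ ε : ℝ, 0 < ε ∧ ∀ M : Matrix (Fin n) (Fin n) ℝ, (∀ i j, |M i j - M0 i j| < ε) → M.det ≠ 0 := by
  have hc : Continuous (fun M : Fin n → Fin n → ℝ => (Matrix.of M).det) := by
    simp only [Matrix.det_apply]
    fun_prop
  have ho : IsOpen {M : Fin n → Fin n → ℝ | (Matrix.of M).det ≠ 0} :=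
    isOpen_ne_fun hc continuous_const
  rw [Metric.isOpen_iff] at ho
  obtain ⟨ε, hε, hb⟩ := ho (fun i j => M0 i j) h
  refine ⟨ε, hε, fun M hM => ?_⟩
  have : (fun i j => M i j) ∈ Metric.ball (fun i j => M0 i j) ε := by
    rw [Metric.mem_ball, dist_pi_lt_iff hε]
    intro i
    rw [dist_pi_lt_iff hε]
    intro j
    rw [Real.dist_eq]
    exact hM i j
  exact hb this

theorem det_stable2 {n : ℕ} (M0 : Matrix (Fin n) (Fin n) ℝ) (h : M0.det ≠ 0) (C : ℝ) :
    ∃ Λ : ℝ, ∀ (M : Matrix (Fin n) (Fin n) ℝ) (L : Fin n → ℝ), (∀ i, Λ ≤ L i) →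
      (∀ i j, |M i j - M0 i j * (Real.pi * L i)| ≤ C) → M.det ≠ 0 := by
  obtain ⟨ε, hε, hst⟩ := det_stable M0 h
  refine ⟨max 1 ((|C| + 1) / ε), fun M L hL hM => ?_⟩
  have hπ : 1 < Real.pi := by linarith [Real.pi_gt_three]
  have hLi : ∀ i, 0 < Real.pi * L i := fun i => by
    have := (le_max_left _ _).trans (hL i)
    have : 0 < L i := by linarith
    positivity
  have e : M = Matrix.of fun i j => (Real.pi * L i) * ((Matrix.of fun i j => M i j / (Real.pi * L i)) i j) := by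
    ext i j
    have := (hLi i).ne'
    simp only [Matrix.of_apply]
    rw [mul_div_cancel₀ _ this]
  rw [e, Matrix.det_mul_column]
  apply mul_ne_zero
  · exact Finset.prod_ne_zero_iff.2 fun i _ => (hLi i).ne'
  · apply hst
    intro i j
    have h1 : (|C| + 1) / ε ≤ L i := (le_max_right _ _).trans (hL i)
    have h2 : |C| + 1 ≤ L i * ε := by rwa [div_le_iff₀ hε] at h1
    have h3 : (Matrix.of fun i j => M i j / (Real.pi * L i)) i j - M0 i j =
        (M i j - M0 i j * (Real.pi * L i)) / (Real.pi * L i) := by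
      have := (hLi i).ne'
      simp only [Matrix.of_apply]
      rw [sub_div, mul_div_cancel_right₀ _ this]
    rw [h3, abs_div, abs_of_pos (hLi i), div_lt_iff₀ (hLi i)]
    have h4 := hM i j
    have h5 := le_abs_self C
    have h6 : 0 < L i := by
      have := (le_max_left _ _).trans (hL i)
      linarith
    have h7 : L i * ε ≤ ε * (Real.pi * L i) := by
      have : 0 < L i * ε := by positivity
      nlinarith
    linarith

/-- the limit matrix -/
noncomputable def M0 : Matrix (Fin 8) (Fin 8) ℝ := !![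
  -8, 0, 0, -32, 0, 1, 1, 0;
  -8, 0, 0, 0, 0, 1, 1, 4;
  0, -8, 0, 1/2, 1, 0, 1, 0;
  0, 0, -8, 1/2, 1, 1, 0, 0;
  0, -1, -1, 0, -8, 0, 0, -32;
  0, -1, -1, -4, -8, 0, 0, 0;
  -1, -1, 0, 0, 0, 0, -8, 1/2;
  -1, 0, -1, 0, 0, -8, 0, 1/2]

theorem M0_det : M0.det ≠ 0 := by
  intro h
  obtain ⟨v, hv, hv2⟩ := Matrix.exists_mulVec_eq_zero_iff.2 h
  apply hv
  have e : ∀ i, ∑ j, M0 i j * v j = 0 := fun i => congrFun hv2 i
  have e0 := e 0
  have e1 := e 1
  have e2 := e 2
  have e3 := e 3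
  have e4 := e 4
  have e5 := e 5
  have e6 := e 6
  have e7 := e 7
  simp [M0, Fin.sum_univ_eight] at e0 e1 e2 e3 e4 e5 e6 e7
  funext i
  fin_cases i
  all_goals
    simp
    linarith

end Pool.Agent.K6.H95.OC
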