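import Pool.Agent.K6.H95.OC.Bd8
set_option autoImplicit false

/-!
The totally real octic fields.
-/

namespace Pool.Agent.K6.H95.OC

open Pool.Agent.W367.KT Pool.Agent.T6.H7.SX
open Polynomial NumberField
open scoped WithZero

section maps

variable {K L : Type*} [Field K] [Field L] (f : K →+* L) (n s : K)

theorem map_eτ : f (eτ s) = eτ (f s) := by
  unfold eτ
  rw [map_sub, map_inv₀]

theorem map_eu : f (eu n s) = eu (f n) (f s) := by
  unfold eu
  simp only [map_div₀, map_mul, map_sub, map_pow, map_ofNat, map_eτ]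

theorem map_ev (j : Fin 3) : f (ev n s j) = ev (f n) (f s) j := by
  fin_cases j
  · rfl
  · show f ((s + 1) * (-1 + (n - eu n s)) / 2) = (f s + 1) * (-1 + (f n - eu (f n) (f s))) / 2
    simp only [map_div₀, map_mul, map_sub, map_add, map_neg, map_one, map_ofNat, map_eu]
  · show f ((s + 1) * (-1 - (n - eu n s)) / 2) = (f s + 1) * (-1 - (f n - eu (f n) (f s))) / 2
    simp only [map_div₀, map_mul, map_sub, map_add, map_neg, map_one, map_ofNat, map_eu]

theorem map_et : f (et n s) = et (f n) (f s) := by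
  unfold et
  simp only [map_div₀, map_sub, map_one, map_eu]

theorem map_eb : f (eb s) = eb (f s) := by
  unfold eb
  simp only [map_div₀, map_sub, map_mul, map_pow, map_add, map_one]

end maps

section field

variable (n : ℤ) [hirr : Fact (Irreducible (PO (n : ℚ)))]

instance nf8 : NumberField (AdjoinRoot (PO (n : ℚ))) where
  to_charZero := charZero_of_injective_algebraMap (algebraMap ℚ (AdjoinRoot (PO (n : ℚ)))).injective
  to_finiteDimensional := (AdjoinRoot.powerBasis hirr.out.ne_zero).finite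

theorem finrank8 : Module.finrank ℚ (AdjoinRoot (PO (n : ℚ))) = 8 := by
  rw [(AdjoinRoot.powerBasis hirr.out.ne_zero).finrank, AdjoinRoot.powerBasis_dim, PO_natDegree]

theorem root_pf : pf (n : AdjoinRoot (PO (n : ℚ))) (AdjoinRoot.root (PO (n : ℚ))) = 0 := by
  have h := AdjoinRoot.eval₂_root (PO (n : ℚ))
  rw [PO_eval₂, map_intCast] at h
  exact h

/-- the real embedding attached to a real root -/
noncomputable def tau8 {r : ℝ} (h : pf (n : ℝ) r = 0) : AdjoinRoot (PO (n : ℚ)) →+* ℝ :=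
  AdjoinRoot.lift (algebraMap ℚ ℝ) r (by rw [PO_eval₂, map_intCast]; exact h)

theorem tau8_root {r : ℝ} (h : pf (n : ℝ) r = 0) : tau8 n h (AdjoinRoot.root (PO (n : ℚ))) = r := by
  unfold tau8
  rw [AdjoinRoot.lift_root]

/-- the complex embedding attached to a real root -/
noncomputable def sig8 {r : ℝ} (h : pf (n : ℝ) r = 0) : AdjoinRoot (PO (n : ℚ)) →+* ℂ :=
  Complex.ofRealHom.comp (tau8 n h)

theorem norm_sig8 {r : ℝ} (h : pf (n : ℝ) r = 0) (x : AdjoinRoot (PO (n : ℚ))) : ‖sig8 n h x‖ = |tau8 n h x| := by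
  show ‖((tau8 n h x : ℝ) : ℂ)‖ = _
  rw [Complex.norm_real, Real.norm_eq_abs]

theorem norm_ev {r : ℝ} (h : pf (n : ℝ) r = 0) (j : Fin 3) :
    ‖sig8 n h (ev (n : AdjoinRoot (PO (n : ℚ))) (AdjoinRoot.root (PO (n : ℚ))) j)‖ = |ev (n : ℝ) r j| := by
  rw [norm_sig8, map_ev, map_intCast, tau8_root]

theorem norm_ev' {r : ℝ} (h : pf (n : ℝ) r = 0) (j : Fin 3) :
    ‖sig8 n h (-1 / ev (n : AdjoinRoot (PO (n : ℚ))) (AdjoinRoot.root (PO (n : ℚ))) j)‖ = |-1 / ev (n : ℝ) r j| := by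
  rw [norm_sig8, map_div₀, map_neg, map_one, map_ev, map_intCast, tau8_root]

theorem norm_et {r : ℝ} (h : pf (n : ℝ) r = 0) :
    ‖sig8 n h (et (n : AdjoinRoot (PO (n : ℚ))) (AdjoinRoot.root (PO (n : ℚ))))‖ = |et (n : ℝ) r| := by
  rw [norm_sig8, map_et, map_intCast, tau8_root]

theorem norm_et' {r : ℝ} (h : pf (n : ℝ) r = 0) :
    ‖sig8 n h (-1 / et (n : AdjoinRoot (PO (n : ℚ))) (AdjoinRoot.root (PO (n : ℚ))))‖ = |-1 / et (n : ℝ) r| := by
  rw [norm_sig8, map_div₀, map_neg, map_one, map_et, map_intCast, tau8_root]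

theorem norm_eb {r : ℝ} (h : pf (n : ℝ) r = 0) :
    ‖sig8 n h (eb (AdjoinRoot.root (PO (n : ℚ))))‖ = |eb r| := by
  rw [norm_sig8, map_eb, tau8_root]

theorem norm_eb' {r : ℝ} (h : pf (n : ℝ) r = 0) :
    ‖sig8 n h (-1 / eb (AdjoinRoot.root (PO (n : ℚ))))‖ = |-1 / eb r| := by
  rw [norm_sig8, map_div₀, map_neg, map_one, map_eb, tau8_root]

omit hirr in
theorem PO_root {x : ℂ} : x ∈ (PO (n : ℂ)).roots ↔ pf (n : ℂ) x = 0 := by
  have h1 := PO_eval₂ (RingHom.id ℂ) (n : ℂ) x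
  rw [mem_roots (PO_monic _).ne_zero, IsRoot.def, eval, h1]
  rfl

/-- A field with eight real roots is totally real. -/
theorem totReal8 (f : Fin 8 → ℝ) (hf : Function.Injective f) (h : ∀ i, pf (n : ℝ) (f i) = 0) :
    IsTotallyReal (AdjoinRoot (PO (n : ℚ))) := by
  refine ⟨fun v => ?_⟩
  rw [InfinitePlace.isReal_iff, ComplexEmbedding.isReal_iff]
  set φ := v.embedding with hφ
  have hm : (PO (n : ℂ)).Monic := PO_monic _
  have hz : φ (AdjoinRoot.root (PO (n : ℚ))) ∈ (PO (n : ℂ)).roots.toFinset := by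
    rw [Multiset.mem_toFinset, PO_root]
    have h1 := congrArg φ (root_pf n)
    unfold pf at h1 ⊢
    simp only [map_add, map_sub, map_mul, map_pow, map_one, map_ofNat, map_intCast, map_zero] at h1
    exact h1
  have hsub : Finset.univ.image (fun i => (f i : ℂ)) ⊆ (PO (n : ℂ)).roots.toFinset := by
    intro z hz
    rw [Finset.mem_image] at hz
    obtain ⟨i, -, rfl⟩ := hz
    rw [Multiset.mem_toFinset, PO_root]
    have h1 := h i
    unfold pf at h1 ⊢
    have h2 := congrArg (fun x : ℝ => (x : ℂ)) h1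
    push_cast at h2
    exact h2
  have hcard : (Finset.univ.image (fun i => (f i : ℂ))).card = 8 := by
    rw [Finset.card_image_of_injective _ (fun i j hij => hf (Complex.ofReal_injective hij)), Finset.card_univ,
      Fintype.card_fin]
  have hle : (PO (n : ℂ)).roots.toFinset.card ≤ (Finset.univ.image (fun i => (f i : ℂ))).card := by
    rw [hcard]
    calc _ ≤ Multiset.card (PO (n : ℂ)).roots := Multiset.toFinset_card_le _
      _ ≤ (PO (n : ℂ)).natDegree := card_roots' _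
      _ = 8 := PO_natDegree _
  have heq := Finset.eq_of_subset_of_card_le hsub hle
  rw [← heq, Finset.mem_image] at hz
  obtain ⟨i, -, hr⟩ := hz
  apply AdjoinRoot.ringHom_ext
  · ext1 x
    simp
  · rw [ComplexEmbedding.conjugate_coe_eq, ← hr, Complex.conj_ofReal]

theorem em_root : ∃ m : AdjoinRoot (PO (n : ℚ)), (n : AdjoinRoot (PO (n : ℚ))) ≠ 0 → m ^ 2 = (n : AdjoinRoot (PO (n : ℚ))) ^ 2 - 4 := by
  refine ⟨em (n : AdjoinRoot (PO (n : ℚ))) (AdjoinRoot.root (PO (n : ℚ))), fun hn => ?_⟩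
  exact (em_sq hn two_ne_zero (root_pf n)).1

end field

/-- the data of the eight real roots -/
theorem eight_roots {n : ℝ} (hn : 2000 ≤ n) : ∃ f : Fin 8 → ℝ, Function.Injective f ∧ (∀ i, pf n (f i) = 0) ∧
    (n ≤ |eb (f 0)| ∧ |ev n (f 0) 0| ≤ 10 ∧ |et n (f 0)| ≤ 10) ∧
    (n ≤ |eb (f 1)| ∧ |ev n (f 1) 0| ≤ 10 ∧ 1000 ≤ |et n (f 1)|) ∧
    (n ≤ |eb (f 2)| ∧ |ev n (f 2) 1| ≤ 10 ∧ 1000 ≤ |-1 / et n (f 2)|) ∧
    (n ≤ |eb (f 3)| ∧ |ev n (f 3) 2| ≤ 10 ∧ 1000 ≤ |-1 / et n (f 3)|) ∧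
    (n ≤ |-1 / eb (f 4)| ∧ |-1 / ev n (f 4) 0| ≤ 10 ∧ |-1 / et n (f 4)| ≤ 10) ∧
    (n ≤ |-1 / eb (f 5)| ∧ |-1 / ev n (f 5) 0| ≤ 10 ∧ 1000 ≤ |-1 / et n (f 5)|) ∧
    (n ≤ |-1 / eb (f 6)| ∧ |-1 / ev n (f 6) 2| ≤ 10 ∧ 1000 ≤ |et n (f 6)|) ∧
    (n ≤ |-1 / eb (f 7)| ∧ |-1 / ev n (f 7) 1| ≤ 10 ∧ 1000 ≤ |et n (f 7)|) := by
  obtain ⟨i1, i2⟩ := inv_small hn
  obtain ⟨a, a1, a2, a3⟩ := ua hn
  obtain ⟨b, b1, b2, b3⟩ := ub hn
  obtain ⟨c, h1, h2, h3⟩ := uc hn
  obtain ⟨d, d1, d2, d3⟩ := ud hn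
  obtain ⟨s0, p0, q0⟩ := pos_root (1 - c ^ 2)
  obtain ⟨s1, p1, q1⟩ := pos_root (1 - d ^ 2)
  obtain ⟨s2, p2, q2⟩ := neg_root (1 - a ^ 2)
  obtain ⟨s3, p3, q3⟩ := neg_root (1 - b ^ 2)
  obtain ⟨s4, p4, q4⟩ := neg_root (1 - d ^ 2)
  obtain ⟨s5, p5, q5⟩ := neg_root (1 - c ^ 2)
  obtain ⟨s6, p6, q6⟩ := pos_root (1 - a ^ 2)
  obtain ⟨s7, p7, q7⟩ := pos_root (1 - b ^ 2)
  have R0 := rt_of h3 p0.ne' q0
  have R1 := rt_of d3 p1.ne' q1
  have R2 := rt_of a3 p2.ne q2
  have R3 := rt_of b3 p3.ne q3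
  have R4 := rt_of d3 p4.ne q4
  have R5 := rt_of h3 p5.ne q5
  have R6 := rt_of a3 p6.ne' q6
  have R7 := rt_of b3 p7.ne' q7
  refine ⟨![s0, s1, s2, s3, s4, s5, s6, s7], ?_, ?_, c1 hn R0 p0 h1 h2, c2 hn R1 p1 d1 d2,
    c3 hn R2 p2 a1 a2, c4 hn R3 p3 b1 b2, c5 hn R4 p4 d1 d2, c6 hn R5 p5 h1 h2, c7 hn R6 p6 a1 a2,
    c8 hn R7 p7 b1 b2⟩
  · -- distinct roots
    have key : ∀ {s s' u u' : ℝ}, RT n s u (1 - u ^ 2) → RT n s' u' (1 - u' ^ 2) → s = s' → u = u' := by
      intro s s' u u' h h' e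
      have e1 := eu_real hn h
      have e2 := eu_real hn h'
      rw [← e1, ← e2, e]
    intro i j hij
    fin_cases i <;> fin_cases j <;>
      first
        | rfl
        | (exfalso
           simp only [Fin.isValue, Fin.mk_one, Fin.zero_eta, Fin.reduceFinMk, Matrix.cons_val] at hij
           first
             | linarith
             | (have := key R0 R1 hij; linarith)
             | (have := key R1 R0 hij; linarith)
             | (have := key R0 R6 hij; linarith)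
             | (have := key R6 R0 hij; linarith)
             | (have := key R0 R7 hij; linarith)
             | (have := key R7 R0 hij; linarith)
             | (have := key R1 R6 hij; linarith)
             | (have := key R6 R1 hij; linarith)
             | (have := key R1 R7 hij; linarith)
             | (have := key R7 R1 hij; linarith)
             | (have := key R6 R7 hij; linarith)
             | (have := key R7 R6 hij; linarith)
             | (have := key R2 R3 hij; linarith)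
             | (have := key R3 R2 hij; linarith)
             | (have := key R2 R4 hij; linarith)
             | (have := key R4 R2 hij; linarith)
             | (have := key R2 R5 hij; linarith)
             | (have := key R5 R2 hij; linarith)
             | (have := key R3 R4 hij; linarith)
             | (have := key R4 R3 hij; linarith)
             | (have := key R3 R5 hij; linarith)
             | (have := key R5 R3 hij; linarith)
             | (have := key R4 R5 hij; linarith)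
             | (have := key R5 R4 hij; linarith))
  · intro i
    fin_cases i
    · exact R0.pf
    · exact R1.pf
    · exact R2.pf
    · exact R3.pf
    · exact R4.pf
    · exact R5.pf
    · exact R6.pf
    · exact R7.pf

/-- Eight independent classes. -/
theorem full8 : ∃ N : ℤ, ∀ n : ℤ, N ≤ n → ∀ [Fact (Irreducible (PO (n : ℚ)))],
    IsTotallyReal (AdjoinRoot (PO (n : ℚ))) ∧
    (tate (eb (AdjoinRoot.root (PO (n : ℚ))))).IsElliptic ∧
    FullRank (tate (eb (AdjoinRoot.root (PO (n : ℚ))))) 8 := by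
  obtain ⟨Λ, hΛ⟩ := main8
  refine ⟨max 2000 ⌈Λ⌉, fun n hN _ => ?_⟩
  have hn' : (2000 : ℝ) ≤ n := by
    have : (2000 : ℤ) ≤ n := (le_max_left _ _).trans hN
    exact_mod_cast this
  have hnΛ : Λ ≤ n := by
    have h1 : ⌈Λ⌉ ≤ n := (le_max_right _ _).trans hN
    exact (Int.le_ceil Λ).trans (by exact_mod_cast h1)
  obtain ⟨f, hf, hpf, k0, k1, k2, k3, k4, k5, k6, k7⟩ := eight_roots hn'
  set K := AdjoinRoot (PO (n : ℚ)) with hK
  set s : K := AdjoinRoot.root (PO (n : ℚ)) with hs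
  have h : pf (n : K) s = 0 := root_pf n
  have hnK : (n : K) ≠ 0 := by
    have : n ≠ 0 := by
      rintro rfl
      norm_num at hn'
    exact_mod_cast this
  have h2 : (2 : K) ≠ 0 := two_ne_zero
  refine ⟨totReal8 n f hf hpf, ?_, ?_⟩
  · apply elliptic_of (tau8 n (hpf 0))
    rw [map_eb, tau8_root]
    linarith [k0.1]
  · refine hΛ (eb0 hnK h2 h) (ev (n : K) s) (ev0 hnK h2 h) (ev_rel hnK h2 h) (ev_sum hnK h2 h) (ev_prod hnK h2 h)
      (ev_inv hnK h2 h) (et (n : K) s) (et0 hnK h2 h) (et_rel hnK h2 h) ?_ ?_ (fun i => sig8 n (hpf i)) ?_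
      ?_ ?_ ?_ ?_ ?_ ?_ ?_ ?_
    · intro j v
      exact v_kap (v.comap (cst (tate (eb s)))) h2 h (ev_rel hnK h2 h j) (ev0 hnK h2 h j)
        (v_eb _ hnK h2 h) (v_ev _ hnK h2 h j)
    · intro v
      have hk0 : (v.comap (cst (tate (eb s)))) (kap (ev (n : K) s 0)) = 1 :=
        v_kap (v.comap (cst (tate (eb s)))) h2 h (ev_rel hnK h2 h 0) (ev0 hnK h2 h 0)
        (v_eb _ hnK h2 h) (v_ev _ hnK h2 h 0)
      exact v_kap (v.comap (cst (tate (eb s)))) h2 h (et_rel hnK h2 h) (et0 hnK h2 h)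
        hk0 (v_et _ hnK h2 h)
    · intro i j hij
      apply hf
      have h5 := RingHom.congr_fun hij s
      have h6 : ((tau8 n (hpf i) s : ℝ) : ℂ) = ((tau8 n (hpf j) s : ℝ) : ℂ) := h5
      rw [hs, tau8_root, tau8_root] at h6
      exact Complex.ofReal_injective h6
    · refine ⟨?_, ?_, ?_⟩
      · rw [norm_eb]; exact hnΛ.trans k0.1
      · rw [norm_ev]; exact k0.2.1
      · rw [norm_et]; exact k0.2.2
    · refine ⟨?_, ?_, ?_⟩
      · rw [norm_eb]; exact hnΛ.trans k1.1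
      · rw [norm_ev]; exact k1.2.1
      · rw [norm_et]; exact k1.2.2
    · refine ⟨?_, ?_, ?_⟩
      · rw [norm_eb]; exact hnΛ.trans k2.1
      · rw [norm_ev]; exact k2.2.1
      · rw [norm_et']; exact k2.2.2
    · refine ⟨?_, ?_, ?_⟩
      · rw [norm_eb]; exact hnΛ.trans k3.1
      · rw [norm_ev]; exact k3.2.1
      · rw [norm_et']; exact k3.2.2
    · refine ⟨?_, ?_, ?_⟩
      · rw [norm_eb']; exact hnΛ.trans k4.1
      · rw [norm_ev']; exact k4.2.1
      · rw [norm_et']; exact k4.2.2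
    · refine ⟨?_, ?_, ?_⟩
      · rw [norm_eb']; exact hnΛ.trans k5.1
      · rw [norm_ev']; exact k5.2.1
      · rw [norm_et']; exact k5.2.2
    · refine ⟨?_, ?_, ?_⟩
      · rw [norm_eb']; exact hnΛ.trans k6.1
      · rw [norm_ev']; exact k6.2.1
      · rw [norm_et]; exact k6.2.2
    · refine ⟨?_, ?_, ?_⟩
      · rw [norm_eb']; exact hnΛ.trans k7.1
      · rw [norm_ev']; exact k7.2.1
      · rw [norm_et]; exact k7.2.2

/-- Pell's equation has large solutions. -/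
theorem pell_large {D : ℤ} (hD : 0 < D) (hsq : ¬ IsSquare D) (B : ℕ) :
    ∃ x y : ℤ, x ^ 2 - D * y ^ 2 = 1 ∧ (B : ℤ) ≤ x ∧ 1 < x ∧ y ≠ 0 := by
  induction B with
  | zero =>
    obtain ⟨x, y, h1, h2⟩ := Pell.exists_of_not_isSquare hD hsq
    refine ⟨|x|, y, by rw [sq_abs]; exact h1, by positivity, ?_, h2⟩
    have h3 : 1 < x ^ 2 := by
      have : 0 < y ^ 2 := by positivity
      nlinarith
    exact (one_lt_sq_iff_one_lt_abs x).1 h3
  | succ B ih =>
    obtain ⟨x, y, h1, h2, h3, h4⟩ := ih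
    refine ⟨2 * x ^ 2 - 1, 2 * x * y, ?_, ?_, ?_, ?_⟩
    · linear_combination 4 * x ^ 2 * h1
    · push_cast
      nlinarith
    · nlinarith
    · have : x ≠ 0 := by omega
      positivity

theorem sqrt_mem {D : ℤ} (hD : 0 < D) (hsq : ¬ IsSquare D) (B : ℤ) :
    ∃ n : ℤ, B ≤ n ∧ ∃ x : AdjoinRoot (PO (n : ℚ)), x ^ 2 = (D : AdjoinRoot (PO (n : ℚ))) := by
  obtain ⟨x, y, h1, h2, h3, h4⟩ := pell_large hD hsq (B.toNat + 2)
  have hn3 : 3 ≤ 2 * x := by omega
  have : Fact (Irreducible (PO ((2 * x : ℤ) : ℚ))) := ⟨irr8 hn3⟩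
  refine ⟨2 * x, by push_cast at h2; omega, ?_⟩
  obtain ⟨m, hm⟩ := em_root (2 * x)
  have hx0 : ((2 * x : ℤ) : AdjoinRoot (PO ((2 * x : ℤ) : ℚ))) ≠ 0 := by
    have : (2 * x : ℤ) ≠ 0 := by omega
    exact_mod_cast this
  have hm' := hm hx0
  have hy0 : (y : AdjoinRoot (PO ((2 * x : ℤ) : ℚ))) ≠ 0 := by exact_mod_cast h4
  refine ⟨m / (2 * y), ?_⟩
  have h1' : (x : AdjoinRoot (PO ((2 * x : ℤ) : ℚ))) ^ 2 - D * y ^ 2 = 1 := by exact_mod_cast h1
  rw [div_pow, hm']
  push_cast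
  field_simp
  linear_combination 4 * h1'

end Pool.Agent.K6.H95.OC
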