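import Pool.Agent.K6.H95.OC.Rel
set_option autoImplicit false

/-!
Irreducibility of the octic polynomials.
-/

namespace Pool.Agent.K6.H95.OC

open Polynomial IntermediateField

/-- the polynomial over a commutative ring -/
noncomputable def PO {R : Type*} [CommRing R] (n : R) : R[X] :=
  (X ^ 2 - 1) ^ 4 + 2 * C n ^ 2 * X * (X ^ 2 - 1) ^ 3 +
    (C n ^ 4 - 4 * C n ^ 2 + 8) * X ^ 2 * (X ^ 2 - 1) ^ 2 - 8 * C n ^ 2 * X ^ 3 * (X ^ 2 - 1) + 16 * X ^ 4

theorem PO_eq {R : Type*} [CommRing R] (n : R) : PO n =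
    X ^ 8 + C (2 * n ^ 2) * X ^ 7 + C (n ^ 4 - 4 * n ^ 2 + 4) * X ^ 6 + C (-14 * n ^ 2) * X ^ 5 +
      C (-2 * n ^ 4 + 8 * n ^ 2 + 6) * X ^ 4 + C (14 * n ^ 2) * X ^ 3 + C (n ^ 4 - 4 * n ^ 2 + 4) * X ^ 2 +
      C (-2 * n ^ 2) * X + C 1 := by
  unfold PO
  simp only [map_add, map_sub, map_mul, map_pow, map_ofNat, map_one, map_neg]
  ring

theorem PO_monic {R : Type*} [CommRing R] [Nontrivial R] (n : R) : (PO n).Monic := by
  rw [PO_eq]
  monicity!

theorem PO_natDegree {R : Type*} [CommRing R] [Nontrivial R] (n : R) : (PO n).natDegree = 8 := by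
  rw [PO_eq]
  compute_degree!

theorem PO_eval₂ {R S : Type*} [CommRing R] [CommRing S] (f : R →+* S) (n : R) (x : S) :
    (PO n).eval₂ f x = pf (f n) x := by
  unfold PO pf
  simp only [eval₂_add, eval₂_sub, eval₂_mul, eval₂_pow, eval₂_X, eval₂_C, eval₂_one, eval₂_ofNat]

/-- elements of a simple extension by a root of a quadratic polynomial -/
theorem quad_form {E : Type*} [Field E] [Algebra ℚ E] (S : IntermediateField ℚ E) {x p q : E} (hp : p ∈ S)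
    (hq : q ∈ S) (hx : x ^ 2 = p * x + q) (hxi : IsIntegral ℚ x) {y : E} (hy : y ∈ ℚ⟮x⟯) :
    ∃ α ∈ S, ∃ β ∈ S, y = α + β * x := by
  have h1 : y ∈ (ℚ⟮x⟯).toSubalgebra := hy
  rw [IntermediateField.adjoin_simple_toSubalgebra_of_isAlgebraic hxi.isAlgebraic, Algebra.adjoin_singleton_eq_range_aeval] at h1
  obtain ⟨g, rfl⟩ := h1
  show ∃ α ∈ S, ∃ β ∈ S, aeval x g = α + β * x
  induction g using Polynomial.induction_on' with
  | add f g hf hg =>
    obtain ⟨a, ha, b, hb, h⟩ := hf (by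
      have : aeval x f ∈ ℚ⟮x⟯ := by
        have h2 : aeval x f ∈ (ℚ⟮x⟯).toSubalgebra := by
          rw [IntermediateField.adjoin_simple_toSubalgebra_of_isAlgebraic hxi.isAlgebraic, Algebra.adjoin_singleton_eq_range_aeval]
          exact ⟨f, rfl⟩
        exact h2
      exact this)
    obtain ⟨c, hc, d, hd, h'⟩ := hg (by
      have h2 : aeval x g ∈ (ℚ⟮x⟯).toSubalgebra := by
        rw [IntermediateField.adjoin_simple_toSubalgebra_of_isAlgebraic hxi.isAlgebraic, Algebra.adjoin_singleton_eq_range_aeval]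
        exact ⟨g, rfl⟩
      exact h2)
    refine ⟨a + c, add_mem ha hc, b + d, add_mem hb hd, ?_⟩
    rw [map_add, h, h']
    ring
  | monomial k c =>
    rw [aeval_monomial]
    have key : ∀ k : ℕ, ∃ α ∈ S, ∃ β ∈ S, x ^ k = α + β * x := by
      intro k
      induction k with
      | zero => exact ⟨1, one_mem S, 0, zero_mem S, by ring⟩
      | succ k ih =>
        obtain ⟨a, ha, b, hb, h⟩ := ih
        refine ⟨b * q, mul_mem hb hq, a + b * p, add_mem ha (mul_mem hb hp), ?_⟩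
        rw [pow_succ, h]
        linear_combination b * hx
    obtain ⟨a, ha, b, hb, h⟩ := key k
    have hc : algebraMap ℚ E c ∈ S := S.algebraMap_mem c
    refine ⟨algebraMap ℚ E c * a, mul_mem hc ha, algebraMap ℚ E c * b, mul_mem hc hb, ?_⟩
    rw [h]
    ring

theorem not_sq_rat {a : ℤ} (h : ∀ k : ℤ, k ^ 2 ≠ a) (y : ℚ) : y ^ 2 ≠ a := by
  intro hy
  have h1 : IsSquare ((a : ℤ) : ℚ) := ⟨y, by rw [← hy]; ring⟩
  rw [Rat.isSquare_intCast_iff] at h1
  obtain ⟨k, hk⟩ := h1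
  exact h k (by rw [hk]; ring)

theorem nsq_between {m c : ℤ} (hm : 0 ≤ m) (h1 : m ^ 2 < c) (h2 : c < (m + 1) ^ 2) (k : ℤ) : k ^ 2 ≠ c := by
  intro h
  have h3 : m < |k| := by
    by_contra hcon
    have h4 : |k| ^ 2 ≤ m ^ 2 := pow_le_pow_left₀ (abs_nonneg k) (not_lt.1 hcon) 2
    rw [sq_abs] at h4
    omega
  have h4 : |k| < m + 1 := by
    by_contra hcon
    have h4 : (m + 1) ^ 2 ≤ |k| ^ 2 := pow_le_pow_left₀ (by omega) (not_lt.1 hcon) 2
    rw [sq_abs] at h4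
    omega
  omega

theorem nsq1 {n : ℤ} (hn : 3 ≤ n) (k : ℤ) : k ^ 2 ≠ n ^ 2 - 4 :=
  nsq_between (m := n - 1) (by linarith) (by nlinarith) (by nlinarith) k

theorem nsq2 {n : ℤ} (hn : 3 ≤ n) (k : ℤ) : k ^ 2 ≠ (n ^ 2 - 4) ^ 2 + 64 := by
  rcases le_or_gt 6 n with h6 | h6
  · exact nsq_between (m := n ^ 2 - 4) (by nlinarith) (by nlinarith) (by nlinarith) k
  · interval_cases n
    · exact nsq_between (m := 9) (by norm_num) (by norm_num) (by norm_num) k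
    · exact nsq_between (m := 14) (by norm_num) (by norm_num) (by norm_num) k
    · exact nsq_between (m := 22) (by norm_num) (by norm_num) (by norm_num) k

section tower

variable {E : Type*} [Field E] [CharZero E] [Algebra ℚ E] {n : ℤ} (hn : 3 ≤ n) {s : E} (h : pf (n : E) s = 0)

/-- the element `m` with `m² = n² - 4` -/
def em {K : Type*} [Field K] (n s : K) : K := eu n s * (n - eu n s) + 1

theorem em_sq {K : Type*} [Field K] {n s : K} (hn : n ≠ 0) (h2 : (2 : K) ≠ 0) (h : pf n s = 0) :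
    em n s ^ 2 = n ^ 2 - 4 ∧ eτ s ^ 2 = (2 * em n s - n ^ 2) * eτ s + 4 := by
  have R := RT.of_pf hn h2 h
  have h1 := R.hu
  have h3 := R.hw
  have h4 := R.τ0
  constructor
  · unfold em
    linear_combination ((n - eu n s) ^ 2 - 1) * h1 - h3
  · unfold em
    linear_combination eτ s * h1 + h3

omit [Algebra ℚ E] in
include hn in
theorem n_ne : (n : E) ≠ 0 := by
  have : n ≠ 0 := by omega
  exact_mod_cast this

omit [CharZero E] in
/-- comparison of coefficients -/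
theorem two_coeff {S : IntermediateField ℚ E} {x a b c d : E} (hx : x ∉ S) (ha : a ∈ S) (hb : b ∈ S) (hc : c ∈ S)
    (hd : d ∈ S) (h : a + b * x = c + d * x) : a = c ∧ b = d := by
  have hbd : b = d := by
    by_contra hne
    apply hx
    have h1 : b - d ≠ 0 := sub_ne_zero.2 hne
    have h2 : x = (c - a) / (b - d) := by
      rw [eq_div_iff h1]
      linear_combination h
    rw [h2]
    exact div_mem (sub_mem hc ha) (sub_mem hb hd)
  refine ⟨?_, hbd⟩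
  rw [hbd] at h
  exact add_right_cancel h

include hn h

theorem m_not_rat : em (n : E) s ∉ (⊥ : IntermediateField ℚ E) := by
  intro hm
  rw [IntermediateField.mem_bot] at hm
  obtain ⟨y, hy⟩ := hm
  have h1 := (em_sq (n_ne (E := E) hn) two_ne_zero h).1
  rw [← hy] at h1
  apply not_sq_rat (nsq1 hn) y
  apply (algebraMap ℚ E).injective
  push_cast
  simpa using h1

theorem m_int : IsIntegral ℚ (em (n : E) s) := by
  have h1 := (em_sq (n_ne (E := E) hn) two_ne_zero h).1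
  refine ⟨X ^ 2 - C ((n : ℚ) ^ 2 - 4), by monicity!, ?_⟩
  simp only [eval₂_sub, eval₂_pow, eval₂_X, eval₂_C]
  rw [h1]
  simp

/-- the discriminant is not a square -/
theorem disc_not_sq {X : E} (hX : X ∈ ℚ⟮em (n : E) s⟯) :
    X ^ 2 ≠ (2 * em (n : E) s - n ^ 2) ^ 2 + 16 := by
  intro hsq
  have hn0 := n_ne (E := E) hn
  have h1 := (em_sq hn0 two_ne_zero h).1
  set m := em (n : E) s with hm
  have hbot := m_not_rat hn h
  rw [← hm] at hbot
  have hq4 : ((n : E) ^ 2 - 4) ∈ (⊥ : IntermediateField ℚ E) := by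
    apply sub_mem
    · exact pow_mem (intCast_mem _ n) 2
    · exact ofNat_mem _ 4
  obtain ⟨α, hα, β, hβ, hX2⟩ := quad_form (⊥ : IntermediateField ℚ E) (x := m) (p := 0) (q := (n : E) ^ 2 - 4)
    (zero_mem _) hq4 (by rw [h1]; ring) (by rw [hm]; exact m_int hn h) hX
  have e1 : (α ^ 2 + β ^ 2 * ((n : E) ^ 2 - 4)) + (2 * α * β) * m =
      ((n : E) ^ 2 * (n ^ 2 + 4)) + (-4 * n ^ 2) * m := by
    rw [hX2] at hsq
    linear_combination hsq + (4 - β ^ 2) * h1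
  have hnm : (n : E) ∈ (⊥ : IntermediateField ℚ E) := intCast_mem _ n
  have h4m : (4 : E) ∈ (⊥ : IntermediateField ℚ E) := ofNat_mem _ 4
  have h2m : (2 : E) ∈ (⊥ : IntermediateField ℚ E) := ofNat_mem _ 2
  obtain ⟨c1, c2⟩ := two_coeff hbot (add_mem (pow_mem hα 2) (mul_mem (pow_mem hβ 2) hq4))
    (mul_mem (mul_mem h2m hα) hβ) (mul_mem (pow_mem hnm 2) (add_mem (pow_mem hnm 2) h4m))
    (mul_mem (neg_mem h4m) (pow_mem hnm 2)) e1
  have e2 : (α ^ 2 - β ^ 2 * ((n : E) ^ 2 - 4)) ^ 2 = (n : E) ^ 4 * ((n ^ 2 - 4) ^ 2 + 64) := by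
    have e3 : (α ^ 2 - β ^ 2 * ((n : E) ^ 2 - 4)) ^ 2 =
        (α ^ 2 + β ^ 2 * ((n : E) ^ 2 - 4)) ^ 2 - (2 * α * β) ^ 2 * ((n : E) ^ 2 - 4) := by ring
    rw [e3, c1, c2]
    ring
  have hZ : (α ^ 2 - β ^ 2 * ((n : E) ^ 2 - 4)) / (n : E) ^ 2 ∈ (⊥ : IntermediateField ℚ E) :=
    div_mem (sub_mem (pow_mem hα 2) (mul_mem (pow_mem hβ 2) hq4)) (pow_mem hnm 2)
  rw [IntermediateField.mem_bot] at hZ
  obtain ⟨y, hy⟩ := hZ
  apply not_sq_rat (nsq2 hn) y
  apply (algebraMap ℚ E).injective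
  rw [map_pow, hy, div_pow, e2]
  field_simp
  simp

theorem tau_not_mem : eτ s ∉ ℚ⟮em (n : E) s⟯ := by
  intro hτ
  have hn0 := n_ne (E := E) hn
  have h1 := (em_sq hn0 two_ne_zero h).2
  have hmm : em (n : E) s ∈ ℚ⟮em (n : E) s⟯ := IntermediateField.mem_adjoin_simple_self ℚ _
  have hX : 2 * eτ s - (2 * em (n : E) s - n ^ 2) ∈ ℚ⟮em (n : E) s⟯ :=
    sub_mem (mul_mem (ofNat_mem _ 2) hτ) (sub_mem (mul_mem (ofNat_mem _ 2) hmm) (pow_mem (intCast_mem _ n) 2))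
  apply disc_not_sq hn h hX
  linear_combination 4 * h1

theorem tau_int : IsIntegral ℚ (eτ s) := by
  have R := RT.of_pf (n_ne (E := E) hn) two_ne_zero h
  refine ⟨X ^ 4 + C (2 * (n:ℚ) ^ 2) * X ^ 3 + C ((n:ℚ) ^ 4 - 4 * n ^ 2 + 8) * X ^ 2 - C (8 * (n:ℚ) ^ 2) * X + 16,
    by monicity!, ?_⟩
  have e1 : 2 * (n : E) * eu (n : E) s * eτ s = n ^ 2 * eτ s - eτ s ^ 2 - 4 := by
    linear_combination eτ s * R.hu - R.hw
  have e2 : ((n : E) ^ 2 * eτ s - eτ s ^ 2 - 4) ^ 2 = 4 * n ^ 2 * (1 - eτ s) * eτ s ^ 2 := by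
    rw [← e1]
    linear_combination 4 * (n : E) ^ 2 * eτ s ^ 2 * R.hu
  simp only [eval₂_add, eval₂_sub, eval₂_mul, eval₂_pow, eval₂_X, eval₂_C, eval₂_ofNat]
  simp only [map_add, map_sub, map_mul, map_pow, map_ofNat, map_intCast]
  linear_combination e2

theorem m_mem_tau : em (n : E) s ∈ ℚ⟮eτ s⟯ := by
  have R := RT.of_pf (n_ne (E := E) hn) two_ne_zero h
  have h1 := (em_sq (n_ne (E := E) hn) two_ne_zero h).2
  have hτ : eτ s ∈ ℚ⟮eτ s⟯ := IntermediateField.mem_adjoin_simple_self ℚ _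
  have e : em (n : E) s = (eτ s ^ 2 - 4 + n ^ 2 * eτ s) / (2 * eτ s) := by
    have := R.τ0
    field_simp
    linear_combination -h1
  rw [e]
  exact div_mem (add_mem (sub_mem (pow_mem hτ 2) (ofNat_mem _ 4)) (mul_mem (pow_mem (intCast_mem _ n) 2) hτ))
    (mul_mem (ofNat_mem _ 2) hτ)

theorem s_not_mem : s ∉ ℚ⟮eτ s⟯ := by
  intro hs
  have hn0 := n_ne (E := E) hn
  have R := RT.of_pf hn0 two_ne_zero h
  have h1 := (em_sq hn0 two_ne_zero h).2
  have hτ : eτ s ∈ ℚ⟮eτ s⟯ := IntermediateField.mem_adjoin_simple_self ℚ _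
  have hmm : em (n : E) s ∈ ℚ⟮em (n : E) s⟯ := IntermediateField.mem_adjoin_simple_self ℚ _
  have hp : (2 * em (n : E) s - n ^ 2) ∈ ℚ⟮em (n : E) s⟯ :=
    sub_mem (mul_mem (ofNat_mem _ 2) hmm) (pow_mem (intCast_mem _ n) 2)
  have h4 : (4 : E) ∈ ℚ⟮em (n : E) s⟯ := ofNat_mem _ 4
  have h8 : (8 : E) ∈ ℚ⟮em (n : E) s⟯ := ofNat_mem _ 8
  have h2 : (2 : E) ∈ ℚ⟮em (n : E) s⟯ := ofNat_mem _ 2
  have hY : 2 * s - eτ s ∈ ℚ⟮eτ s⟯ := sub_mem (mul_mem (ofNat_mem _ 2) hs) hτ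
  obtain ⟨α, hα, β, hβ, hY2⟩ := quad_form (ℚ⟮em (n : E) s⟯) (x := eτ s) hp h4 h1 (tau_int hn h) hY
  set p : E := 2 * em (n : E) s - n ^ 2 with hpd
  have hYsq : (2 * s - eτ s) ^ 2 = eτ s ^ 2 + 4 := by linear_combination 4 * R.hs
  have e1 : (α ^ 2 + 4 * β ^ 2) + (2 * α * β + p * β ^ 2) * eτ s = 8 + p * eτ s := by
    rw [hY2] at hYsq
    linear_combination hYsq + (1 - β ^ 2) * h1
  obtain ⟨c1, c2⟩ := two_coeff (tau_not_mem hn h) (add_mem (pow_mem hα 2) (mul_mem h4 (pow_mem hβ 2)))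
    (add_mem (mul_mem (mul_mem h2 hα) hβ) (mul_mem hp (pow_mem hβ 2))) h8 hp e1
  have e2 : ((α ^ 2 + α * β * p - 4 * β ^ 2) / 2) ^ 2 = p ^ 2 + 16 := by
    have e3 : (α ^ 2 + α * β * p - 4 * β ^ 2) ^ 2 = (α ^ 2 + 4 * β ^ 2) ^ 2 +
        (α ^ 2 + 4 * β ^ 2) * (2 * α * β + p * β ^ 2) * p - 4 * (2 * α * β + p * β ^ 2) ^ 2 := by ring
    rw [div_pow, e3, c1, c2]
    field_simp
    ring
  exact disc_not_sq hn h (div_mem (sub_mem (add_mem (pow_mem hα 2) (mul_mem (mul_mem hα hβ) hp))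
    (mul_mem h4 (pow_mem hβ 2))) h2) e2

theorem s_int : IsIntegral ℚ s := by
  refine ⟨PO (n : ℚ), PO_monic _, ?_⟩
  rw [PO_eval₂, map_intCast]
  exact h

theorem tau_mem_s : eτ s ∈ ℚ⟮s⟯ := by
  have _ := hn
  have _ := h
  have hs : s ∈ ℚ⟮s⟯ := IntermediateField.mem_adjoin_simple_self ℚ _
  exact sub_mem hs (inv_mem hs)

theorem finrank_ge : 8 ≤ Module.finrank ℚ ℚ⟮s⟯ := by
  have i1 : ℚ⟮em (n : E) s⟯ ≤ ℚ⟮eτ s⟯ := by
    rw [IntermediateField.adjoin_simple_le_iff]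
    exact m_mem_tau hn h
  have i2 : ℚ⟮eτ s⟯ ≤ ℚ⟮s⟯ := by
    rw [IntermediateField.adjoin_simple_le_iff]
    exact tau_mem_s hn h
  have f1 : FiniteDimensional ℚ ℚ⟮em (n : E) s⟯ := IntermediateField.adjoin.finiteDimensional (m_int hn h)
  have f2 : FiniteDimensional ℚ ℚ⟮eτ s⟯ := IntermediateField.adjoin.finiteDimensional (tau_int hn h)
  have f3 : FiniteDimensional ℚ ℚ⟮s⟯ := IntermediateField.adjoin.finiteDimensional (s_int hn h)
  have p1 : 0 < Module.finrank ℚ ℚ⟮em (n : E) s⟯ := Module.finrank_pos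
  have p2 : 0 < Module.finrank ℚ ℚ⟮eτ s⟯ := Module.finrank_pos
  have p3 : 0 < Module.finrank ℚ ℚ⟮s⟯ := Module.finrank_pos
  have d1 : Module.finrank ℚ ℚ⟮em (n : E) s⟯ ≠ 1 := by
    intro h1
    rw [IntermediateField.finrank_eq_one_iff] at h1
    have hmm : em (n : E) s ∈ ℚ⟮em (n : E) s⟯ := IntermediateField.mem_adjoin_simple_self ℚ _
    rw [h1] at hmm
    exact m_not_rat hn h hmm
  have d2 : Module.finrank ℚ ℚ⟮em (n : E) s⟯ ≠ Module.finrank ℚ ℚ⟮eτ s⟯ := by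
    intro he
    have h1 := IntermediateField.eq_of_le_of_finrank_eq i1 he
    apply tau_not_mem hn h
    rw [h1]
    exact IntermediateField.mem_adjoin_simple_self ℚ _
  have d3 : Module.finrank ℚ ℚ⟮eτ s⟯ ≠ Module.finrank ℚ ℚ⟮s⟯ := by
    intro he
    have h1 := IntermediateField.eq_of_le_of_finrank_eq i2 he
    apply s_not_mem hn h
    rw [h1]
    exact IntermediateField.mem_adjoin_simple_self ℚ _
  obtain ⟨a, ha⟩ := IntermediateField.finrank_dvd_of_le_right i1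
  obtain ⟨b, hb⟩ := IntermediateField.finrank_dvd_of_le_right i2
  have ha2 : 2 ≤ a := by
    rcases a with _ | _ | a
    · omega
    · omega
    · omega
  have hb2 : 2 ≤ b := by
    rcases b with _ | _ | b
    · omega
    · omega
    · omega
  have h2 : 2 ≤ Module.finrank ℚ ℚ⟮em (n : E) s⟯ := by omega
  rw [hb, ha]
  calc 8 = 2 * 2 * 2 := rfl
    _ ≤ _ := Nat.mul_le_mul (Nat.mul_le_mul h2 ha2) hb2

end tower

/-- the polynomials are irreducible -/
theorem irr8 {n : ℤ} (hn : 3 ≤ n) : Irreducible (PO (n : ℚ)) := by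
  obtain ⟨s, hs⟩ := IsAlgClosed.exists_root (PO (n : ℂ)) (by
    rw [degree_eq_natDegree (PO_monic _).ne_zero, PO_natDegree]; norm_num)
  have h : pf (n : ℂ) s = 0 := by
    have h1 := PO_eval₂ (RingHom.id ℂ) (n : ℂ) s
    rw [IsRoot.def, eval, h1] at hs
    exact hs
  have h8 := finrank_ge hn h
  rw [IntermediateField.adjoin.finrank (s_int hn h)] at h8
  have hdvd : minpoly ℚ s ∣ PO (n : ℚ) := minpoly.dvd _ _ (by
    rw [aeval_def, PO_eval₂]
    simpa using h)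
  have he : minpoly ℚ s = PO (n : ℚ) := by
    symm
    apply Polynomial.eq_of_monic_of_dvd_of_natDegree_le (minpoly.monic (s_int hn h)) (PO_monic _) hdvd
    rw [PO_natDegree]
    exact h8
  rw [← he]
  exact minpoly.irreducible (s_int hn h)

end Pool.Agent.K6.H95.OC
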