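import Pool.Agent.K6.H95.OC.StepI
set_option autoImplicit false

/-!
Lyness pairs of transcendental functions, and their transforms.
-/

namespace Pool.Agent.K6.H95.OC

open Pool.Agent.W367.KT Pool.Agent.T6.H7.SX
open Polynomial
open scoped TensorProduct WithZero

section alg

variable {K F : Type*} [Field K] [Field F]

theorem alg_of_quad [Algebra K F] {x a b c : F} (ha : IsAlgebraic K a) (hb : IsAlgebraic K b)
    (hc : IsAlgebraic K c) (ha0 : a ≠ 0) (h : a * x ^ 2 + b * x + c = 0) : IsAlgebraic K x := by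
  let L := algebraicClosure K F
  have h1 : IsAlgebraic L x := by
    let a' : L := ⟨a, mem_algebraicClosure_iff.2 ha⟩
    let b' : L := ⟨b, mem_algebraicClosure_iff.2 hb⟩
    let c' : L := ⟨c, mem_algebraicClosure_iff.2 hc⟩
    refine ⟨C a' * X ^ 2 + C b' * X + C c', ?_, ?_⟩
    · intro h0
      have h2 := congrArg (fun q => q.coeff 2) h0
      simp [coeff_C] at h2
      apply ha0
      exact congrArg Subtype.val h2
    · simp only [map_add, map_mul, map_pow, aeval_X, aeval_C]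
      exact h
  exact h1.restrictScalars K

theorem tr_iff (φ : K →+* F) (x : F) : Tr φ x ↔ (letI := φ.toAlgebra; ¬ IsAlgebraic K x) := by
  constructor
  · intro h
    let _ := φ.toAlgebra
    rintro ⟨p, hp, hp2⟩
    exact h p hp hp2
  · exact tr_of_isAlgebraic φ x

variable {φ : K →+* F} {x : F}

theorem tr_zz (h : Tr φ x) : Tr φ (Zz x) := by
  rw [tr_iff] at h ⊢
  have h2 : 1 + x ≠ 0 := ((tr_iff φ x).2 h).nc.one_add_ne
  let _ := φ.toAlgebra
  intro h1
  apply h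
  have h3 : IsAlgebraic K (-(Zz x) * (1 + Zz x)⁻¹) := h1.neg.mul (isAlgebraic_one.add h1).inv
  have h4 : -(Zz x) * (1 + Zz x)⁻¹ = x := by
    rw [← div_eq_mul_inv]
    exact Zz_Zz h2
  rwa [h4] at h3

theorem tr_phi (h : Tr φ x) {s : K} (hs : s ≠ 0) : Tr φ (Phi (φ s) x) := by
  rw [tr_iff] at h ⊢
  have hs' : φ s ≠ 0 := (_root_.map_ne_zero φ).2 hs
  have h2 := ((tr_iff φ x).2 h).nc.den_ne s
  let _ := φ.toAlgebra
  intro h1
  apply h
  have hφ : IsAlgebraic K (φ s) := isAlgebraic_algebraMap s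
  set g : F := Phi (φ s) x with hg
  have e : g * (φ s * ((φ s - 1) * x - 1)) = x * (x + 1 - φ s ^ 2) := by
    rw [hg]
    unfold Phi
    rw [div_mul_cancel₀ _ (mul_ne_zero hs' h2)]
  apply alg_of_quad (a := 1) (b := 1 - φ s ^ 2 - φ s * (φ s - 1) * g) (c := φ s * g) isAlgebraic_one
    ((isAlgebraic_one.sub (hφ.pow 2)).sub ((hφ.mul (hφ.sub isAlgebraic_one)).mul h1)) (hφ.mul h1) one_ne_zero
  linear_combination -e

end alg

section LP

variable {K F : Type*} [Field K] [Field F]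

/-- a Lyness pair of transcendental functions -/
structure LP (φ : K →+* F) (k : K) (x y : F) : Prop where
  ly : Ly (φ k) x y
  tr : Tr φ x
  k0 : k ≠ 0

namespace LP

variable {φ : K →+* F} {k : K} {x y : F} (P : LP φ k x y)
include P

theorem ncx : NC φ x := P.tr.nc

theorem ncy : NC φ y := P.ly.nc_y P.k0 P.tr

theorem nc2 : NC φ ((1 + y) / x) := P.ly.nc_shift P.k0 P.tr

theorem tr_y : Tr φ y := by
  have htr := P.tr
  rw [tr_iff] at htr ⊢
  have h1y := P.ncy.one_add_ne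
  have hly := P.ly
  let _ := φ.toAlgebra
  intro h1
  apply htr
  have hφ : IsAlgebraic K (φ k) := isAlgebraic_algebraMap k
  have h1y' : IsAlgebraic K (1 + y) := isAlgebraic_one.add h1
  have h2y : IsAlgebraic K (2 + y) := by
    have e : (2 : F) + y = 1 + (1 + y) := by ring
    rw [e]
    exact isAlgebraic_one.add h1y'
  apply alg_of_quad (a := 1 + y) (b := (1 + y) * (2 + y) - φ k * y) (c := (1 + y) * (1 + y)) h1y'
    ((h1y'.mul h2y).sub (hφ.mul h1)) (h1y'.mul h1y') h1y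
  unfold Ly at hly
  linear_combination hly

theorem shift : LP φ k y ((1 + y) / x) :=
  ⟨P.ly.symm.back P.ncx.ne_zero, P.tr_y, P.k0⟩

theorem nonzero : (1 + x ≠ 0) ∧ (1 + y ≠ 0) ∧ (1 + x + y ≠ 0) :=
  ly_ne P.ly ((_root_.map_ne_zero φ).2 P.k0) P.ncx.ne_zero P.ncy.ne_zero

theorem x3_eq : (1 + (1 + y) / x) / y = (1 + x + y) / (x * y) := by
  have h1 := P.ncx.ne_zero
  have h2 := P.ncy.ne_zero
  field_simp
  ring

theorem nc3 : NC φ ((1 + x + y) / (x * y)) := by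
  have h := P.shift.nc2
  rwa [P.x3_eq] at h

theorem rel' {s : K} (hrel : k * (s - 1) = s ^ 2 * (s + 1)) : φ k * (φ s - 1) = φ s ^ 2 * (φ s + 1) := by
  have _ := P
  have := congrArg φ hrel
  simpa only [map_mul, map_sub, map_add, map_pow, map_one] using this

theorem phi_shift {s : K} (hs : s ≠ 0) (hrel : k * (s - 1) = s ^ 2 * (s + 1)) :
    (1 + Phi (φ s) y) / Phi (φ s) x = Phi (φ s) ((1 + y) / x) :=
  P.ly.phi_shift (P.rel' hrel) ((_root_.map_ne_zero φ).2 hs) P.ncx.ne_zero (P.ncx.den_ne s) (P.ncy.den_ne s)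
    (P.ncx.num_ne s) (P.nc2.den_ne s)

theorem map_kap (s : K) : φ (kap s) = kap (φ s) := by
  have _ := P
  unfold kap
  simp only [map_div₀, map_sub, map_add, map_pow, map_one]

theorem kap_ne' (h2 : (2 : K) ≠ 0) {s : K} (hs : s ≠ 0) (hrel : k * (s - 1) = s ^ 2 * (s + 1)) : kap s ≠ 0 := by
  rw [kap_eq hrel (sub_one_ne h2 hrel) hs]
  exact div_ne_zero (pow_ne_zero 2 P.k0) (pow_ne_zero 5 hs)

theorem phi (h2 : (2 : K) ≠ 0) {s : K} (hs : s ≠ 0) (hrel : k * (s - 1) = s ^ 2 * (s + 1)) :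
    LP φ (kap s) (Phi (φ s) x) (Phi (φ s) y) := by
  refine ⟨?_, tr_phi P.tr hs, P.kap_ne' h2 hs hrel⟩
  have h1 := sub_one_ne h2 hrel
  have h1' : φ s - 1 ≠ 0 := by
    rw [← map_one φ, ← map_sub]; exact (_root_.map_ne_zero _).2 h1
  rw [P.map_kap]
  exact P.ly.phi (P.rel' hrel) ((_root_.map_ne_zero φ).2 hs) h1' (P.ncx.den_ne s) (P.ncy.den_ne s)

theorem phi_shift3 (h2 : (2 : K) ≠ 0) {s : K} (hs : s ≠ 0) (hrel : k * (s - 1) = s ^ 2 * (s + 1)) :
    (1 + Phi (φ s) x + Phi (φ s) y) / (Phi (φ s) x * Phi (φ s) y) = Phi (φ s) ((1 + x + y) / (x * y)) := by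
  have h := P.shift.phi_shift hs hrel
  rw [P.x3_eq, ← P.phi_shift hs hrel, (P.phi h2 hs hrel).x3_eq] at h
  exact h

theorem zz : LP φ (-1 / k) (Zz x) (Zz ((1 + y) / x)) := by
  refine ⟨?_, tr_zz P.tr, div_ne_zero (neg_ne_zero.2 one_ne_zero) P.k0⟩
  have h := P.ly.zz ((_root_.map_ne_zero φ).2 P.k0) P.ncx.ne_zero P.ncy.ne_zero
  rw [map_div₀, map_neg, map_one]
  exact h

/-- the swapped pair -/
theorem swap : LP φ k y x := ⟨P.ly.symm, P.tr_y, P.k0⟩

/-- the pair `(W₀, W₁)` -/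
theorem ww : LP φ (-1 / k) (Zz ((1 + y) / x)) (Zz x) := P.zz.swap

/-- `W₃` -/
theorem ww3 : (1 + Zz ((1 + y) / x) + Zz x) / (Zz ((1 + y) / x) * Zz x) = Zz y := by
  obtain ⟨h1, h2, h3⟩ := P.nonzero
  rw [← Zz_Zz_three h1 h2 h3 P.ncx.ne_zero]
  congr 1 <;> ring

/-- `W₂` -/
theorem ww2 : (1 + Zz x) / Zz ((1 + y) / x) = Zz ((1 + x + y) / (x * y)) := by
  obtain ⟨h1, h2, h3⟩ := P.nonzero
  have hx := P.ncx.ne_zero
  have hy := P.ncy.ne_zero
  have e1 : Zz ((1 + y) / x) = -(1 + y) / (1 + x + y) := by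
    unfold Zz
    have : 1 + (1 + y) / x = (1 + x + y) / x := by field_simp; ring
    rw [this]
    field_simp
  have e2 : Zz ((1 + x + y) / (x * y)) = -(1 + x + y) / ((1 + x) * (1 + y)) := by
    unfold Zz
    have : 1 + (1 + x + y) / (x * y) = (1 + x) * (1 + y) / (x * y) := by field_simp; ring
    rw [this]
    field_simp
  have e3 : 1 + Zz x = 1 / (1 + x) := by unfold Zz; field_simp; ring
  rw [e1, e2, e3]
  field_simp

end LP

/-- `Φ_s (Z x) = Z Φ_{-1/s} x` -/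
theorem phi_of_zz {φ : K →+* F} {z : F} (hz : NC φ z) {s : K} (hs : s ≠ 0) :
    Phi (φ s) (Zz z) = Zz (Phi (φ (-1 / s)) z) := by
  have h := hz.zz.phi_zz hs
  have hs' : (-1 / s : K) ≠ 0 := div_ne_zero (neg_ne_zero.2 one_ne_zero) hs
  rw [Zz_Zz hz.one_add_ne, ← hz.zPhi hs'] at h
  exact h

end LP

end Pool.Agent.K6.H95.OC
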