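import Pool.Agent.K6.H95.OC.Pairs
set_option autoImplicit false

/-!
The regulator pairings of the classes of the first level.
-/

namespace Pool.Agent.K6.H95.OC

open Pool.Agent.W367.KT Pool.Agent.T6.H7.SX
open Set MeasureTheory intervalIntegral

section

variable {K F : Type*} [Field K] [Field F]

theorem kap_hat {s : K} (hs : s ≠ 0) : kap (-1 / s) = -1 / kap s := by
  unfold kap
  by_cases h : s + 1 = 0
  · have e : s = -1 := by linear_combination h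
    rw [e]
    norm_num
  by_cases h' : s - 1 = 0
  · have e : s = 1 := by linear_combination h'
    rw [e]
    norm_num
  have e1 : (-1 / s + 1) = (s - 1) / s := by field_simp; ring
  have e2 : (-1 / s - 1) = -(s + 1) / s := by field_simp; ring
  rw [e1, e2]
  field_simp

theorem rel_hat {k s : K} (hk : k ≠ 0) (hs : s ≠ 0) (hrel : k * (s - 1) = s ^ 2 * (s + 1)) :
    (-1 / k) * ((-1 / s) - 1) = (-1 / s) ^ 2 * ((-1 / s) + 1) := by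
  field_simp
  linear_combination -hrel

theorem hat_ne {s : K} (hs : s ≠ 0) : (-1 / s : K) ≠ 0 := div_ne_zero (neg_ne_zero.2 one_ne_zero) hs

variable {φ : K →+* F}

theorem phi_hat {z : F} (hz : NC φ z) {s : K} (hs : s ≠ 0) :
    Phi (φ s) z = Zz (Phi (φ (-1 / s)) (Zz z)) := by
  rw [← hz.zphi_zz hs, Zz_Zz (hz.one_add_phi_ne hs)]

/-- the values of `W₃` -/
theorem LP.w3 {k : K} {x y : F} (P : LP φ k x y) (h2 : (2 : K) ≠ 0) {s : K} (hs : s ≠ 0)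
    (hrel : k * (s - 1) = s ^ 2 * (s + 1)) :
    (1 + Zz (Phi (φ s) ((1 + y) / x)) + Zz (Phi (φ s) x)) /
      (Zz (Phi (φ s) ((1 + y) / x)) * Zz (Phi (φ s) x)) = Zz (Phi (φ s) y) := by
  rw [← P.phi_shift hs hrel]
  exact (P.phi h2 hs hrel).ww3

/-- the values of `W₂` -/
theorem LP.w2 {k : K} {x y : F} (P : LP φ k x y) (h2 : (2 : K) ≠ 0) {s : K} (hs : s ≠ 0)
    (hrel : k * (s - 1) = s ^ 2 * (s + 1)) :
    (1 + Zz (Phi (φ s) x)) / Zz (Phi (φ s) ((1 + y) / x)) = Zz (Phi (φ s) ((1 + x + y) / (x * y))) := by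
  rw [← P.phi_shift hs hrel, ← P.phi_shift3 h2 hs hrel]
  exact (P.phi h2 hs hrel).ww2

/-- the third function of the transformed pair -/
theorem LP.zz_three {k : K} {x y : F} (P : LP φ k x y) :
    (1 + Zz x + Zz ((1 + y) / x)) / (Zz x * Zz ((1 + y) / x)) = Zz y := by
  obtain ⟨h1, h2, h3⟩ := P.nonzero
  exact Zz_Zz_three h1 h2 h3 P.ncx.ne_zero

variable {σ : K →+* ℂ} {γ : Loop F} (hγ : ∀ t c, γ.e t (φ c) = σ c)
include hγ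

theorem EV.stepI {x y : F} {X Y : ℝ → ℂ} (E : EV γ x y X Y) (s : K) :
    EV γ (Phi (φ s) x) (Phi (φ s) y) (fun t => Phi (σ s) (X t)) (fun t => Phi (σ s) (Y t)) :=
  ⟨fun t => by rw [map_Phi, hγ, E.hx], fun t => by rw [map_Phi, hγ, E.hy]⟩

theorem EV.stepII {k : K} {x y : F} {X Y : ℝ → ℂ} (E : EV γ x y X Y) (P : LP φ k x y) {s : K} (hs : s ≠ 0) :
    EV γ (Zz (Phi (φ s) ((1 + y) / x))) (Zz (Phi (φ s) x)) (fun t => ZPhi (σ s) ((1 + Y t) / X t))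
      (fun t => ZPhi (σ s) (X t)) :=
  ⟨fun t => by rw [P.nc2.zPhi hs, map_ZPhi, hγ, Neck.ev2 E], fun t => by rw [P.ncx.zPhi hs, map_ZPhi, hγ, E.hx]⟩

variable {R : ℝ} {k : K} {x y : F} {X Y : ℝ → ℂ} {c d : ℂ} {m : ℤ} {lo hi B : ℝ}

theorem lvlA_I (h2 : (2 : K) ≠ 0) (P : LP φ k x y) (N : Neck R (σ k) X Y c d m lo hi B) (E : EV γ x y X Y)
    (hk : 10 ^ 18 ≤ ‖σ k‖) (hlo : 1 / 200 ≤ lo) {s : K} (hs : s ≠ 0) (hrel : k * (s - 1) = s ^ 2 * (s + 1))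
    (hrel' : σ k * (σ s - 1) = σ s ^ 2 * (σ s + 1)) (h10 : ‖σ s‖ ≤ 10) :
    |γ.pair (uP P.ncx hs) (uP P.ncy hs) - 2 * Real.pi * ((-(2 * m) : ℤ) * Real.log ‖kap (σ s)‖)| ≤
      TB (2 * m) (3 * J m B) ∧
    |γ.pair (uZ P.ncx hs) (uZ P.nc2 hs) - 2 * Real.pi * ((0 : ℤ) * Real.log ‖kap (σ s)‖)| ≤
      TB (2 * m) (3 * J m B) := by
  have N' := N.stepI hrel' h10 hk hlo
  have E' := E.stepI hγ s
  constructor
  · exact N'.T1 E' _ _ rfl rfl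
  · exact N'.T2 E' _ _ rfl (by
      show Zz (Phi (φ s) ((1 + y) / x)) = _
      rw [P.phi_shift hs hrel])

theorem lvlA_II (h2 : (2 : K) ≠ 0) (P : LP φ k x y) (N : Neck R (σ k) X Y c d m lo hi B) (E : EV γ x y X Y)
    (hk : 10 ^ 18 ≤ ‖σ k‖) (hlo : 1 / 200 ≤ lo) (hhi : hi * (21 / 20) ≤ 1 / 6) {s : K} (hs : s ≠ 0)
    (hrel : k * (s - 1) = s ^ 2 * (s + 1))
    (hrel' : σ k * (σ s - 1) = σ s ^ 2 * (σ s + 1)) (h1000 : 1000 ≤ ‖σ s‖) :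
    |γ.pair (uP P.ncx hs) (uP P.ncy hs) - 2 * Real.pi * ((0 : ℤ) * Real.log ‖-1 / kap (σ s)‖)| ≤
      TB m (BII m lo B) ∧
    |γ.pair (uZ P.ncx hs) (uZ P.nc2 hs) - 2 * Real.pi * ((m : ℤ) * Real.log ‖-1 / kap (σ s)‖)| ≤
      TB m (BII m lo B) := by
  have N' := N.stepII hrel' h1000 hk hlo hhi
  have E' := E.stepII hγ P hs
  constructor
  · refine N'.T4 E' _ _ ?_ ?_
    · show Phi (φ s) x = _
      rw [Zz_Zz (P.ncx.one_add_phi_ne hs)]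
    · show Phi (φ s) y = _
      rw [P.w3 h2 hs hrel, Zz_Zz (P.ncy.one_add_phi_ne hs)]
  · exact N'.T6 E' _ _ rfl rfl

theorem lvlB_I (h2 : (2 : K) ≠ 0) (P : LP φ k x y) (N : Neck R (σ (-1 / k)) X Y c d m lo hi B)
    (E : EV γ (Zz x) (Zz ((1 + y) / x)) X Y)
    (hk : 10 ^ 18 ≤ ‖σ (-1 / k)‖) (hlo : 1 / 200 ≤ lo) {s : K} (hs : s ≠ 0) (hrel : k * (s - 1) = s ^ 2 * (s + 1))
    (hrel' : σ (-1 / k) * (σ (-1 / s) - 1) = σ (-1 / s) ^ 2 * (σ (-1 / s) + 1)) (h10 : ‖σ (-1 / s)‖ ≤ 10) :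
    |γ.pair (uP P.ncx hs) (uP P.ncy hs) - 2 * Real.pi * ((0 : ℤ) * Real.log ‖kap (σ (-1 / s))‖)| ≤
      TB (2 * m) (3 * J m B) ∧
    |γ.pair (uZ P.ncx hs) (uZ P.nc2 hs) - 2 * Real.pi * ((-(2 * m) : ℤ) * Real.log ‖kap (σ (-1 / s))‖)| ≤
      TB (2 * m) (3 * J m B) := by
  have N' := N.stepI hrel' h10 hk hlo
  have E' := E.stepI hγ (-1 / s)
  have Q := P.zz
  have hrh := rel_hat P.k0 hs hrel
  constructor
  · refine N'.T3 E' _ _ ?_ ?_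
    · show Phi (φ s) x = _
      rw [phi_hat P.ncx hs]
    · show Phi (φ s) y = _
      rw [phi_hat P.ncy hs, Q.phi_shift3 h2 (hat_ne hs) hrh, P.zz_three]
  · refine N'.T1 E' _ _ ?_ ?_
    · show Zz (Phi (φ s) x) = _
      rw [P.ncx.zphi_zz hs]
    · show Zz (Phi (φ s) ((1 + y) / x)) = _
      rw [P.nc2.zphi_zz hs]

theorem lvlB_II (h2 : (2 : K) ≠ 0) (P : LP φ k x y) (N : Neck R (σ (-1 / k)) X Y c d m lo hi B)
    (E : EV γ (Zz x) (Zz ((1 + y) / x)) X Y)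
    (hk : 10 ^ 18 ≤ ‖σ (-1 / k)‖) (hlo : 1 / 200 ≤ lo) (hhi : hi * (21 / 20) ≤ 1 / 6) {s : K} (hs : s ≠ 0)
    (hrel : k * (s - 1) = s ^ 2 * (s + 1))
    (hrel' : σ (-1 / k) * (σ (-1 / s) - 1) = σ (-1 / s) ^ 2 * (σ (-1 / s) + 1)) (h1000 : 1000 ≤ ‖σ (-1 / s)‖) :
    |γ.pair (uP P.ncx hs) (uP P.ncy hs) - 2 * Real.pi * ((-m : ℤ) * Real.log ‖-1 / kap (σ (-1 / s))‖)| ≤
      TB m (BII m lo B) ∧
    |γ.pair (uZ P.ncx hs) (uZ P.nc2 hs) - 2 * Real.pi * ((0 : ℤ) * Real.log ‖-1 / kap (σ (-1 / s))‖)| ≤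
      TB m (BII m lo B) := by
  have Q := P.zz
  have N' := N.stepII hrel' h1000 hk hlo hhi
  have E' := E.stepII hγ Q (hat_ne hs)
  have hrh := rel_hat P.k0 hs hrel
  constructor
  · refine N'.T5 E' _ _ ?_ ?_
    · show Phi (φ s) x = _
      rw [phi_hat P.ncx hs]
    · show Phi (φ s) y = _
      rw [Q.w2 h2 (hat_ne hs) hrh, P.zz_three, phi_hat P.ncy hs]
  · refine N'.T4 E' _ _ ?_ ?_
    · show Zz (Phi (φ s) x) = _
      rw [P.ncx.zphi_zz hs, Zz_Zz (Q.ncx.one_add_phi_ne (hat_ne hs))]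
    · show Zz (Phi (φ s) ((1 + y) / x)) = _
      rw [Q.w3 h2 (hat_ne hs) hrh, P.nc2.zphi_zz hs, Zz_Zz (Q.ncy.one_add_phi_ne (hat_ne hs))]

end

end Pool.Agent.K6.H95.OC
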