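import Pool.Agent.K6.H95.OC.Lvl
set_option autoImplicit false

/-!
The regulator pairings of the classes of the second level over two large roots.
-/

namespace Pool.Agent.K6.H95.OC

open Pool.Agent.W367.KT Pool.Agent.T6.H7.SX
open Set MeasureTheory intervalIntegral

section

variable {K F : Type*} [Field K] [Field F]
variable {φ : K →+* F}

variable {σ : K →+* ℂ} {γ : Loop F} (hγ : ∀ t c, γ.e t (φ c) = σ c)
include hγ

variable {R : ℝ} {k : K} {x y : F} {X Y : ℝ → ℂ} {c d : ℂ} {m : ℤ} {lo hi B : ℝ}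

theorem lvlA_II_II (h2 : (2 : K) ≠ 0) (P : LP φ k x y) (N : Neck R (σ k) X Y c d m lo hi B)
    (E : EV γ x y X Y)
    (hk : 10 ^ 18 ≤ ‖σ k‖) (hlo : 1 / 200 ≤ lo / 2) (hhi : hi * (21 / 20) * (21 / 20) ≤ 1 / 6) {s : K} (hs : s ≠ 0)
    (hrel : k * (s - 1) = s ^ 2 * (s + 1))
    (hrel' : σ k * (σ s - 1) = σ s ^ 2 * (σ s + 1)) (h1000 : 1000 ≤ ‖σ s‖)
    (hk2 : 10 ^ 18 ≤ ‖-1 / kap (σ s)‖) {t : K} (ht : t ≠ 0) (hrelt : kap s * (t - 1) = t ^ 2 * (t + 1))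
    (hrelt' : -1 / kap (σ s) * (σ (-1 / t) - 1) = σ (-1 / t) ^ 2 * (σ (-1 / t) + 1))
    (h1000t : 1000 ≤ ‖σ (-1 / t)‖) :
    |γ.pair (uP (P.phi h2 hs hrel).ncx ht) (uP (P.phi h2 hs hrel).ncy ht) -
      2 * Real.pi * ((m : ℤ) * Real.log ‖-1 / kap (σ (-1 / t))‖)| ≤ TB m (BII m (lo / 2) (BII m lo B)) ∧
    |γ.pair (uZ (P.phi h2 hs hrel).ncx ht) (uZ (P.phi h2 hs hrel).nc2 ht) -
      2 * Real.pi * ((0 : ℤ) * Real.log ‖-1 / kap (σ (-1 / t))‖)| ≤ TB m (BII m (lo / 2) (BII m lo B)) := by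
  have hh : hi * (21 / 20) ≤ 1 / 6 := by
    have := (norm_nonneg _).trans (N.ux 0)
    linarith
  have N1 := N.stepII hrel' h1000 hk (by linarith [N.lo0]) hh
  have E1 := E.stepII hγ P hs
  have P' := P.phi h2 hs hrel
  have Q : LP φ (-1 / kap s) (Zz (Phi (φ s) ((1 + y) / x))) (Zz (Phi (φ s) x)) := by
    have := P'.ww
    rwa [P.phi_shift hs hrel] at this
  have N2 := N1.stepII hrelt' h1000t hk2 hlo hhi
  have E2 := E1.stepII hγ Q (hat_ne ht)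
  have hrh := rel_hat P'.k0 ht hrelt
  have a1 : Phi (φ t) (Phi (φ s) x) = (1 + Zz (Phi (φ (-1 / t)) ((1 + Zz (Phi (φ s) x)) / Zz (Phi (φ s) ((1 + y) / x)))) +
      Zz (Phi (φ (-1 / t)) (Zz (Phi (φ s) ((1 + y) / x))))) /
      (Zz (Phi (φ (-1 / t)) ((1 + Zz (Phi (φ s) x)) / Zz (Phi (φ s) ((1 + y) / x)))) *
        Zz (Phi (φ (-1 / t)) (Zz (Phi (φ s) ((1 + y) / x))))) := by
    rw [Q.w3 h2 (hat_ne ht) hrh, phi_hat P'.ncx ht]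
  constructor
  · refine N2.T7 E2 _ _ ?_ ?_
    · show Phi (φ t) (Phi (φ s) x) = _
      exact a1
    · show Phi (φ t) (Phi (φ s) y) = _
      rw [Q.w2 h2 (hat_ne ht) hrh, P.w3 h2 hs hrel, phi_hat P'.ncy ht]
  · refine N2.T8 E2 _ _ ?_ ?_
    · show Zz (Phi (φ t) (Phi (φ s) x)) = _
      rw [← a1]
    · show Zz (Phi (φ t) ((1 + Phi (φ s) y) / Phi (φ s) x)) = _
      rw [phi_hat P'.nc2 ht, P.phi_shift hs hrel]

theorem lvlB_II_II (h2 : (2 : K) ≠ 0) (P : LP φ k x y) (N : Neck R (σ (-1 / k)) X Y c d m lo hi B)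
    (E : EV γ (Zz x) (Zz ((1 + y) / x)) X Y)
    (hk : 10 ^ 18 ≤ ‖σ (-1 / k)‖) (hlo : 1 / 200 ≤ lo / 2) (hhi : hi * (21 / 20) * (21 / 20) ≤ 1 / 6) {s : K}
    (hs : s ≠ 0) (hrel : k * (s - 1) = s ^ 2 * (s + 1))
    (hrel' : σ (-1 / k) * (σ (-1 / s) - 1) = σ (-1 / s) ^ 2 * (σ (-1 / s) + 1)) (h1000 : 1000 ≤ ‖σ (-1 / s)‖)
    (hk2 : 10 ^ 18 ≤ ‖-1 / kap (σ (-1 / s))‖) {t : K} (ht : t ≠ 0)
    (hrelt : kap s * (t - 1) = t ^ 2 * (t + 1))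
    (hrelt' : -1 / kap (σ (-1 / s)) * (σ t - 1) = σ t ^ 2 * (σ t + 1))
    (h1000t : 1000 ≤ ‖σ t‖) :
    |γ.pair (uP (P.phi h2 hs hrel).ncx ht) (uP (P.phi h2 hs hrel).ncy ht) -
      2 * Real.pi * ((0 : ℤ) * Real.log ‖-1 / kap (σ t)‖)| ≤ TB m (BII m (lo / 2) (BII m lo B)) ∧
    |γ.pair (uZ (P.phi h2 hs hrel).ncx ht) (uZ (P.phi h2 hs hrel).nc2 ht) -
      2 * Real.pi * ((m : ℤ) * Real.log ‖-1 / kap (σ t)‖)| ≤ TB m (BII m (lo / 2) (BII m lo B)) := by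
  have hh : hi * (21 / 20) ≤ 1 / 6 := by
    have := (norm_nonneg _).trans (N.ux 0)
    linarith
  have Q := P.zz
  have hrhs := rel_hat P.k0 hs hrel
  have N1 := N.stepII hrel' h1000 hk (by linarith [N.lo0]) hh
  have E1 := E.stepII hγ Q (hat_ne hs)
  have P' := P.phi h2 hs hrel
  have Q' := Q.phi h2 (hat_ne hs) hrhs
  have Rr : LP φ (kap s) (Zz (Phi (φ (-1 / s)) ((1 + Zz ((1 + y) / x)) / Zz x)))
      (Zz (Phi (φ (-1 / s)) (Zz x))) := by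
    have h := Q'.ww
    rw [Q.phi_shift (hat_ne hs) hrhs, kap_hat hs] at h
    have e : -1 / (-1 / kap s) = kap s := by
      have := P'.k0
      field_simp
    rwa [e] at h
  have N2 := N1.stepII hrelt' h1000t hk2 hlo hhi
  have E2 := E1.stepII hγ Rr ht
  have w1 : Phi (φ s) x = Zz (Phi (φ (-1 / s)) (Zz x)) := phi_hat P.ncx hs
  have w2 : Phi (φ s) y = (1 + Zz (Phi (φ (-1 / s)) (Zz x))) /
      Zz (Phi (φ (-1 / s)) ((1 + Zz ((1 + y) / x)) / Zz x)) := by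
    rw [Q.w2 h2 (hat_ne hs) hrhs, P.zz_three, phi_hat P.ncy hs]
  have w3 : Phi (φ s) ((1 + y) / x) = (1 + Zz (Phi (φ (-1 / s)) ((1 + Zz ((1 + y) / x)) / Zz x)) +
      Zz (Phi (φ (-1 / s)) (Zz x))) / (Zz (Phi (φ (-1 / s)) ((1 + Zz ((1 + y) / x)) / Zz x)) *
      Zz (Phi (φ (-1 / s)) (Zz x))) := by
    rw [Q.w3 h2 (hat_ne hs) hrhs, phi_hat P.nc2 hs]
  constructor
  · refine N2.T9 E2 _ _ ?_ ?_
    · show Phi (φ t) (Phi (φ s) x) = _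
      rw [Rr.w3 h2 ht hrelt, Zz_Zz (Rr.ncy.one_add_phi_ne ht), w1]
    · show Phi (φ t) (Phi (φ s) y) = _
      rw [Zz_Zz (Rr.nc2.one_add_phi_ne ht), w2]
  · refine N2.T7 E2 _ _ ?_ ?_
    · show Zz (Phi (φ t) (Phi (φ s) x)) = _
      rw [Rr.w3 h2 ht hrelt, w1]
    · show Zz (Phi (φ t) ((1 + Phi (φ s) y) / Phi (φ s) x)) = _
      rw [P.phi_shift hs hrel, Rr.w2 h2 ht hrelt, w3]

end

end Pool.Agent.K6.H95.OC
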