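import Pool.Agent.K6.H95.OC.Rows2
import Pool.Agent.K6.H95.OC.Det
set_option autoImplicit false

/-!
Eight independent classes from eight embeddings.
-/

namespace Pool.Agent.K6.H95.OC

open Pool.Agent.W367.KT Pool.Agent.T6.H7.SX
open Set MeasureTheory intervalIntegral Polynomial
open scoped TensorProduct WithZero Interval

section cls

variable {K F : Type*} [Field K] [Field F] {φ : K →+* F} {k : K} {x y : F} (P : LP φ k x y)

/-- the class `{Φ_s x, Φ_s y}` -/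
noncomputable def cA {s : K} (hs : s ≠ 0) : ℚ ⊗[ℤ] K2 F := (1 : ℚ) ⊗ₜ[ℤ] symb (uP P.ncx hs) (uP P.ncy hs)

/-- the class `{Z Φ_s x, Z Φ_s x₂}` -/
noncomputable def cB {s : K} (hs : s ≠ 0) : ℚ ⊗[ℤ] K2 F := (1 : ℚ) ⊗ₜ[ℤ] symb (uZ P.ncx hs) (uZ P.nc2 hs)

theorem cA_mem (h2 : (2 : K) ≠ 0) {s : K} (hs : s ≠ 0) (hrel : k * (s - 1) = s ^ 2 * (s + 1))
    (hv : ∀ v : Valuation F ℤᵐ⁰, v (φ (kap s)) = 1) : cA P hs ∈ H2MZ F :=
  Ly.mem (φ (kap s)) hv _ _ (P.phi h2 hs hrel).ly 1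

theorem cB_mem (h2 : (2 : K) ≠ 0) {s : K} (hs : s ≠ 0) (hrel : k * (s - 1) = s ^ 2 * (s + 1))
    (hv : ∀ v : Valuation F ℤᵐ⁰, v (φ (kap s)) = 1) : cB P hs ∈ H2MZ F := by
  refine Ly.mem (φ (-1 / kap s)) (fun v => ?_) _ _ ?_ 1
  · rw [map_div₀, map_div₀, hv, map_neg, map_one, Valuation.map_neg, map_one, div_one]
  · have h := (P.phi h2 hs hrel).zz.ly
    rw [P.phi_shift hs hrel] at h
    exact h

theorem regQ_cA {s : K} (hs : s ≠ 0) (γ : Loop F) :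
    γ.regQ (cA P hs) = γ.pair (uP P.ncx hs) (uP P.ncy hs) := by
  unfold cA
  rw [Loop.regQ_tmul, one_smul]

theorem regQ_cB {s : K} (hs : s ≠ 0) (γ : Loop F) :
    γ.regQ (cB P hs) = γ.pair (uZ P.ncx hs) (uZ P.nc2 hs) := by
  unfold cB
  rw [Loop.regQ_tmul, one_smul]

end cls

theorem exp_big {Λ x : ℝ} (h : Real.exp (max Λ 1000) ≤ x) : 10 ^ 40 ≤ x ∧ 10 ^ 8 ≤ x ∧ Λ ≤ Real.log x := by
  have h1 : (10:ℝ) ^ 40 ≤ Real.exp 1000 := by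
    have h2 : (2:ℝ) ≤ Real.exp 1 := by
      have := Real.add_one_le_exp (1:ℝ)
      linarith
    calc (10:ℝ) ^ 40 ≤ 2 ^ 133 := by norm_num
      _ ≤ 2 ^ 1000 := pow_le_pow_right₀ (by norm_num) (by norm_num)
      _ ≤ (Real.exp 1) ^ 1000 := pow_le_pow_left₀ (by norm_num) h2 _
      _ = Real.exp 1000 := by rw [← Real.exp_nat_mul]; norm_num
  have h3 : Real.exp 1000 ≤ Real.exp (max Λ 1000) := Real.exp_le_exp.2 (le_max_right _ _)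
  have h4 : (10:ℝ) ^ 40 ≤ x := (h1.trans h3).trans h
  refine ⟨h4, le_trans (by norm_num) h4, ?_⟩
  rw [Real.le_log_iff_exp_le (lt_of_lt_of_le (by norm_num) h4)]
  exact (Real.exp_le_exp.2 (le_max_left _ _)).trans h

theorem main8 : ∃ Λ : ℝ, ∀ {K : Type} [Field K] [NumberField K] {b : K} (_ : b ≠ 0) (s : Fin 3 → K)
    (hs : ∀ j, s j ≠ 0) (_ : ∀ j, b * (s j - 1) = s j ^ 2 * (s j + 1))
    (_ : s 0 + s 1 + s 2 = -1) (_ : s 0 * s 1 * s 2 = -b)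
    (_ : s 0 * s 1 + s 0 * s 2 + s 1 * s 2 = s 0 * s 1 * s 2) (t : K) (_ : t ≠ 0)
    (_ : kap (s 0) * (t - 1) = t ^ 2 * (t + 1))
    (_ : ∀ (j : Fin 3) (v : Valuation (tate b).toAffine.FunctionField ℤᵐ⁰), v (cst (tate b) (kap (s j))) = 1)
    (_ : ∀ (v : Valuation (tate b).toAffine.FunctionField ℤᵐ⁰), v (cst (tate b) (kap t)) = 1)
    (σ : Fin 8 → (K →+* ℂ)) (_ : Function.Injective σ)
    (_ : Λ ≤ ‖σ 0 b‖ ∧ ‖σ 0 (s 0)‖ ≤ 10 ∧ ‖σ 0 t‖ ≤ 10)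
    (_ : Λ ≤ ‖σ 1 b‖ ∧ ‖σ 1 (s 0)‖ ≤ 10 ∧ 1000 ≤ ‖σ 1 t‖)
    (_ : Λ ≤ ‖σ 2 b‖ ∧ ‖σ 2 (s 1)‖ ≤ 10 ∧ 1000 ≤ ‖σ 2 (-1 / t)‖)
    (_ : Λ ≤ ‖σ 3 b‖ ∧ ‖σ 3 (s 2)‖ ≤ 10 ∧ 1000 ≤ ‖σ 3 (-1 / t)‖)
    (_ : Λ ≤ ‖σ 4 (-1 / b)‖ ∧ ‖σ 4 (-1 / s 0)‖ ≤ 10 ∧ ‖σ 4 (-1 / t)‖ ≤ 10)
    (_ : Λ ≤ ‖σ 5 (-1 / b)‖ ∧ ‖σ 5 (-1 / s 0)‖ ≤ 10 ∧ 1000 ≤ ‖σ 5 (-1 / t)‖)
    (_ : Λ ≤ ‖σ 6 (-1 / b)‖ ∧ ‖σ 6 (-1 / s 2)‖ ≤ 10 ∧ 1000 ≤ ‖σ 6 t‖)
    (_ : Λ ≤ ‖σ 7 (-1 / b)‖ ∧ ‖σ 7 (-1 / s 1)‖ ≤ 10 ∧ 1000 ≤ ‖σ 7 t‖),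
    FullRank (tate b) 8 := by
  obtain ⟨CA, hCA⟩ := rowA2
  obtain ⟨CB, hCB⟩ := rowB2
  obtain ⟨Λ, hΛ⟩ := det_stable2 M0 M0_det (max CA CB)
  refine ⟨Real.exp (max Λ 1000), ?_⟩
  intro K _ _ b hb s hs hrel hsum hprod hinv t ht hrelt hv hvt σ hσ h0 h1 h2 h3 h4 h5 h6 h7
  -- large roots
  have hrel0 : ∀ j, (-1 / b) * ((-1 / s j) - 1) = (-1 / s j) ^ 2 * ((-1 / s j) + 1) := fun j =>
    rel_hat hb (hs j) (hrel j)
  have hsum' : (-1 / s 0) + (-1 / s 1) + (-1 / s 2) = -1 := by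
    have h0 := hs 0
    have h1 := hs 1
    have h2 := hs 2
    field_simp
    linear_combination -hinv
  have hprod' : (-1 / s 0) * (-1 / s 1) * (-1 / s 2) = -(-1 / b) := by
    have e : b = -(s 0 * s 1 * s 2) := by linear_combination hprod
    have h0 := hs 0
    have h1 := hs 1
    have h2 := hs 2
    rw [e]
    field_simp
  have bigA : ∀ (τ : K →+* ℂ) (_ : 10 ^ 8 ≤ ‖τ b‖) (i : Fin 3) (_ : ‖τ (s i)‖ ≤ 10) (j : Fin 3) (_ : j ≠ i),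
      1000 ≤ ‖τ (s j)‖ := fun τ hτ i hi j hj =>
    triple_big (k := τ b) (fun j => τ (s j))
      (by have := congrArg τ hsum; simpa only [map_add, map_neg, map_one] using this)
      (by have := congrArg τ hprod; simpa only [map_mul, map_neg] using this) hτ i hi j hj
  have bigB : ∀ (τ : K →+* ℂ) (_ : 10 ^ 8 ≤ ‖τ (-1 / b)‖) (i : Fin 3) (_ : ‖τ (-1 / s i)‖ ≤ 10) (j : Fin 3)
      (_ : j ≠ i), 1000 ≤ ‖τ (-1 / s j)‖ := fun τ hτ i hi j hj =>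
    triple_big (k := τ (-1 / b)) (fun j => τ (-1 / s j))
      (by have := congrArg τ hsum'; simpa only [map_add, map_neg, map_one] using this)
      (by have := congrArg τ hprod'; simpa only [map_mul, map_neg] using this) hτ i hi j hj
  obtain ⟨γ0, g0, r0⟩ := hCA hb (σ 0) (exp_big h0.1).1
  obtain ⟨γ1, g1, r1⟩ := hCA hb (σ 1) (exp_big h1.1).1
  obtain ⟨γ2, g2, r2⟩ := hCA hb (σ 2) (exp_big h2.1).1
  obtain ⟨γ3, g3, r3⟩ := hCA hb (σ 3) (exp_big h3.1).1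
  obtain ⟨γ4, g4, r4⟩ := hCB hb (σ 4) (exp_big h4.1).1
  obtain ⟨γ5, g5, r5⟩ := hCB hb (σ 5) (exp_big h5.1).1
  obtain ⟨γ6, g6, r6⟩ := hCB hb (σ 6) (exp_big h6.1).1
  obtain ⟨γ7, g7, r7⟩ := hCB hb (σ 7) (exp_big h7.1).1
  set P := lp0 hb with hP
  set P' := P.phi two_ne_zero (hs 0) (hrel 0) with hP'
  set α : Fin 8 → ℚ ⊗[ℤ] K2 (tate b).toAffine.FunctionField :=
    ![cA P (hs 0), cA P (hs 1), cA P (hs 2), cA P' ht, cB P (hs 0), cB P (hs 1), cB P (hs 2), cB P' ht] with hα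
  set γ : Fin 8 → Loop (tate b).toAffine.FunctionField := ![γ0, γ1, γ2, γ3, γ4, γ5, γ6, γ7] with hγ
  set L : Fin 8 → ℝ := ![Real.log ‖σ 0 b‖, Real.log ‖σ 1 b‖, Real.log ‖σ 2 b‖, Real.log ‖σ 3 b‖,
    Real.log ‖σ 4 (-1 / b)‖, Real.log ‖σ 5 (-1 / b)‖, Real.log ‖σ 6 (-1 / b)‖, Real.log ‖σ 7 (-1 / b)‖] with hL
  set M : Matrix (Fin 8) (Fin 8) ℝ := Matrix.of fun i j => (γ i).regQ (α j) with hM
  have lA := le_max_left CA CB
  have lB := le_max_right CA CB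
  have hdet : M.det ≠ 0 := by
    apply hΛ M L
    · intro i
      fin_cases i
      · exact (exp_big h0.1).2.2
      · exact (exp_big h1.1).2.2
      · exact (exp_big h2.1).2.2
      · exact (exp_big h3.1).2.2
      · exact (exp_big h4.1).2.2
      · exact (exp_big h5.1).2.2
      · exact (exp_big h6.1).2.2
      · exact (exp_big h7.1).2.2
    · -- the entries
      have row : ∀ (γ' : Loop (tate b).toAffine.FunctionField) (ℓ : ℝ) (a : Fin 8 → ℝ),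
          |γ'.pair (uP P.ncx (hs 0)) (uP P.ncy (hs 0)) - a 0 * (Real.pi * ℓ)| ≤ max CA CB →
          |γ'.pair (uP P.ncx (hs 1)) (uP P.ncy (hs 1)) - a 1 * (Real.pi * ℓ)| ≤ max CA CB →
          |γ'.pair (uP P.ncx (hs 2)) (uP P.ncy (hs 2)) - a 2 * (Real.pi * ℓ)| ≤ max CA CB →
          |γ'.pair (uP P'.ncx ht) (uP P'.ncy ht) - a 3 * (Real.pi * ℓ)| ≤ max CA CB →
          |γ'.pair (uZ P.ncx (hs 0)) (uZ P.nc2 (hs 0)) - a 4 * (Real.pi * ℓ)| ≤ max CA CB →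
          |γ'.pair (uZ P.ncx (hs 1)) (uZ P.nc2 (hs 1)) - a 5 * (Real.pi * ℓ)| ≤ max CA CB →
          |γ'.pair (uZ P.ncx (hs 2)) (uZ P.nc2 (hs 2)) - a 6 * (Real.pi * ℓ)| ≤ max CA CB →
          |γ'.pair (uZ P'.ncx ht) (uZ P'.nc2 ht) - a 7 * (Real.pi * ℓ)| ≤ max CA CB →
          ∀ j, |γ'.regQ (α j) - a j * (Real.pi * ℓ)| ≤ max CA CB := by
        intro γ' ℓ a b0 b1 b2 b3 b4 b5 b6 b7 j
        fin_cases j
        · show |γ'.regQ (cA P (hs 0)) - _| ≤ _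
          rw [regQ_cA]; exact b0
        · show |γ'.regQ (cA P (hs 1)) - _| ≤ _
          rw [regQ_cA]; exact b1
        · show |γ'.regQ (cA P (hs 2)) - _| ≤ _
          rw [regQ_cA]; exact b2
        · show |γ'.regQ (cA P' ht) - _| ≤ _
          rw [regQ_cA]; exact b3
        · show |γ'.regQ (cB P (hs 0)) - _| ≤ _
          rw [regQ_cB]; exact b4
        · show |γ'.regQ (cB P (hs 1)) - _| ≤ _
          rw [regQ_cB]; exact b5
        · show |γ'.regQ (cB P (hs 2)) - _| ≤ _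
          rw [regQ_cB]; exact b6
        · show |γ'.regQ (cB P' ht) - _| ≤ _
          rw [regQ_cB]; exact b7
      intro i
      fin_cases i
      · -- r1
        have k0 := (r0 (s 0) (hs 0) (hrel 0)).1 h0.2.1
        have k1 := (r0 (s 1) (hs 1) (hrel 1)).2 (bigA _ (exp_big h0.1).2.1 0 h0.2.1 1 (by decide))
        have k2 := (r0 (s 2) (hs 2) (hrel 2)).2 (bigA _ (exp_big h0.1).2.1 0 h0.2.1 2 (by decide))
        have kt := (k0.2.2 t ht hrelt).1 h0.2.2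
        exact row γ0 (Real.log ‖σ 0 b‖) (M0 0) (k0.1.trans lA) (k1.1.trans lA) (k2.1.trans lA) (kt.1.trans lA)
          (k0.2.1.trans lA) (k1.2.1.trans lA) (k2.2.1.trans lA) (kt.2.trans lA)
      · -- r2
        have k0 := (r1 (s 0) (hs 0) (hrel 0)).1 h1.2.1
        have k1 := (r1 (s 1) (hs 1) (hrel 1)).2 (bigA _ (exp_big h1.1).2.1 0 h1.2.1 1 (by decide))
        have k2 := (r1 (s 2) (hs 2) (hrel 2)).2 (bigA _ (exp_big h1.1).2.1 0 h1.2.1 2 (by decide))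
        have kt := (k0.2.2 t ht hrelt).2 h1.2.2
        exact row γ1 (Real.log ‖σ 1 b‖) (M0 1) (k0.1.trans lA) (k1.1.trans lA) (k2.1.trans lA) (kt.1.trans lA)
          (k0.2.1.trans lA) (k1.2.1.trans lA) (k2.2.1.trans lA) (kt.2.trans lA)
      · -- r3
        have k1 := (r2 (s 1) (hs 1) (hrel 1)).1 h2.2.1
        have k0 := (r2 (s 0) (hs 0) (hrel 0)).2 (bigA _ (exp_big h2.1).2.1 1 h2.2.1 0 (by decide))
        have k2 := (r2 (s 2) (hs 2) (hrel 2)).2 (bigA _ (exp_big h2.1).2.1 1 h2.2.1 2 (by decide))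
        have kt := k0.2.2 t ht hrelt h2.2.2
        exact row γ2 (Real.log ‖σ 2 b‖) (M0 2) (k0.1.trans lA) (k1.1.trans lA) (k2.1.trans lA) (kt.1.trans lA)
          (k0.2.1.trans lA) (k1.2.1.trans lA) (k2.2.1.trans lA) (kt.2.trans lA)
      · -- r4
        have k2 := (r3 (s 2) (hs 2) (hrel 2)).1 h3.2.1
        have k0 := (r3 (s 0) (hs 0) (hrel 0)).2 (bigA _ (exp_big h3.1).2.1 2 h3.2.1 0 (by decide))
        have k1 := (r3 (s 1) (hs 1) (hrel 1)).2 (bigA _ (exp_big h3.1).2.1 2 h3.2.1 1 (by decide))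
        have kt := k0.2.2 t ht hrelt h3.2.2
        exact row γ3 (Real.log ‖σ 3 b‖) (M0 3) (k0.1.trans lA) (k1.1.trans lA) (k2.1.trans lA) (kt.1.trans lA)
          (k0.2.1.trans lA) (k1.2.1.trans lA) (k2.2.1.trans lA) (kt.2.trans lA)
      · -- r5
        have k0 := (r4 (s 0) (hs 0) (hrel 0)).1 h4.2.1
        have k1 := (r4 (s 1) (hs 1) (hrel 1)).2 (bigB _ (exp_big h4.1).2.1 0 h4.2.1 1 (by decide))
        have k2 := (r4 (s 2) (hs 2) (hrel 2)).2 (bigB _ (exp_big h4.1).2.1 0 h4.2.1 2 (by decide))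
        have kt := (k0.2.2 t ht hrelt).1 h4.2.2
        exact row γ4 (Real.log ‖σ 4 (-1 / b)‖) (M0 4) (k0.1.trans lB) (k1.1.trans lB) (k2.1.trans lB)
          (kt.1.trans lB) (k0.2.1.trans lB) (k1.2.1.trans lB) (k2.2.1.trans lB) (kt.2.trans lB)
      · -- r6
        have k0 := (r5 (s 0) (hs 0) (hrel 0)).1 h5.2.1
        have k1 := (r5 (s 1) (hs 1) (hrel 1)).2 (bigB _ (exp_big h5.1).2.1 0 h5.2.1 1 (by decide))
        have k2 := (r5 (s 2) (hs 2) (hrel 2)).2 (bigB _ (exp_big h5.1).2.1 0 h5.2.1 2 (by decide))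
        have kt := (k0.2.2 t ht hrelt).2 h5.2.2
        exact row γ5 (Real.log ‖σ 5 (-1 / b)‖) (M0 5) (k0.1.trans lB) (k1.1.trans lB) (k2.1.trans lB)
          (kt.1.trans lB) (k0.2.1.trans lB) (k1.2.1.trans lB) (k2.2.1.trans lB) (kt.2.trans lB)
      · -- r7
        have k2 := (r6 (s 2) (hs 2) (hrel 2)).1 h6.2.1
        have k0 := (r6 (s 0) (hs 0) (hrel 0)).2 (bigB _ (exp_big h6.1).2.1 2 h6.2.1 0 (by decide))
        have k1 := (r6 (s 1) (hs 1) (hrel 1)).2 (bigB _ (exp_big h6.1).2.1 2 h6.2.1 1 (by decide))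
        have kt := k0.2.2 t ht hrelt h6.2.2
        exact row γ6 (Real.log ‖σ 6 (-1 / b)‖) (M0 6) (k0.1.trans lB) (k1.1.trans lB) (k2.1.trans lB)
          (kt.1.trans lB) (k0.2.1.trans lB) (k1.2.1.trans lB) (k2.2.1.trans lB) (kt.2.trans lB)
      · -- r8
        have k1 := (r7 (s 1) (hs 1) (hrel 1)).1 h7.2.1
        have k0 := (r7 (s 0) (hs 0) (hrel 0)).2 (bigB _ (exp_big h7.1).2.1 1 h7.2.1 0 (by decide))
        have k2 := (r7 (s 2) (hs 2) (hrel 2)).2 (bigB _ (exp_big h7.1).2.1 1 h7.2.1 2 (by decide))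
        have kt := k0.2.2 t ht hrelt h7.2.2
        exact row γ7 (Real.log ‖σ 7 (-1 / b)‖) (M0 7) (k0.1.trans lB) (k1.1.trans lB) (k2.1.trans lB)
          (kt.1.trans lB) (k0.2.1.trans lB) (k1.2.1.trans lB) (k2.2.1.trans lB) (kt.2.trans lB)
  have hmem : ∀ c, α c ∈ H2MZ (tate b).toAffine.FunctionField := by
    intro c
    fin_cases c
    · exact cA_mem P two_ne_zero (hs 0) (hrel 0) (hv 0)
    · exact cA_mem P two_ne_zero (hs 1) (hrel 1) (hv 1)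
    · exact cA_mem P two_ne_zero (hs 2) (hrel 2) (hv 2)
    · exact cA_mem P' two_ne_zero ht hrelt hvt
    · exact cB_mem P two_ne_zero (hs 0) (hrel 0) (hv 0)
    · exact cB_mem P two_ne_zero (hs 1) (hrel 1) (hv 1)
    · exact cB_mem P two_ne_zero (hs 2) (hrel 2) (hv 2)
    · exact cB_mem P' two_ne_zero ht hrelt hvt
  refine ⟨σ, γ, α, hσ, ?_, hmem, linearIndependent_of_det _ _ hdet, hdet⟩
  intro i t c
  fin_cases i
  · exact g0 t c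
  · exact g1 t c
  · exact g2 t c
  · exact g3 t c
  · exact g4 t c
  · exact g5 t c
  · exact g6 t c
  · exact g7 t c

end Pool.Agent.K6.H95.OC
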