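import Pool.Agent.K6.H95.OC.RP
set_option autoImplicit false

/-!
Necks: Lyness pairs `(x, y)` on circles with `x` bounded and `y` large.
-/

namespace Pool.Agent.K6.H95.OC

open Pool.Agent.W367.KT Pool.Agent.T6.H7.SX
open Set MeasureTheory intervalIntegral

/-- a Lyness pair on a circle with `x` bounded, `y` large, and both almost monomial -/
structure Neck (R : ℝ) (k : ℂ) (x y : ℝ → ℂ) (c d : ℂ) (m : ℤ) (lo hi B : ℝ) : Prop where
  hR : 0 < R
  rx : RP R x c m B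
  ry : RP R y d m B
  lx : ∀ t, lo ≤ ‖x t‖
  ux : ∀ t, ‖x t‖ ≤ hi
  h6 : hi ≤ 1 / 6
  lo0 : 0 < lo
  ly : ∀ t, Ly k (x t) (y t)
  yb : ∀ t, 10 ^ 4 ≤ ‖y t‖
  c0 : c ≠ 0
  d0 : d ≠ 0
  k0 : k ≠ 0

namespace Neck

variable {R : ℝ} {k : ℂ} {x y : ℝ → ℂ} {c d : ℂ} {m : ℤ} {lo hi B : ℝ}
  (N : Neck R k x y c d m lo hi B)
include N

theorem B0 : 0 ≤ B := N.rx.nonneg

theorem x_ne (t : ℝ) : x t ≠ 0 := by
  rw [← norm_pos_iff]; linarith [N.lx t, N.lo0]

theorem y_ne (t : ℝ) : y t ≠ 0 := by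
  rw [← norm_pos_iff]; linarith [N.yb t]

theorem ux6 (t : ℝ) : ‖x t‖ ≤ 1 / 6 := (N.ux t).trans N.h6

theorem n1p (t : ℝ) : 5 / 6 ≤ ‖1 + x t‖ := by
  have h := norm_sub_norm_le (1 : ℂ) (-x t)
  rw [norm_one, norm_neg, sub_neg_eq_add] at h
  linarith [N.ux6 t]

theorem n1p' (t : ℝ) : ‖1 + x t‖ ≤ 7 / 6 := by
  have h := norm_add_le (1 : ℂ) (x t)
  rw [norm_one] at h
  linarith [N.ux6 t]

theorem ne1p (t : ℝ) : 1 + x t ≠ 0 := by
  rw [← norm_pos_iff]; linarith [N.n1p t]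

theorem ne (t : ℝ) : 1 + x t ≠ 0 ∧ 1 + y t ≠ 0 ∧ 1 + x t + y t ≠ 0 :=
  ly_ne (N.ly t) N.k0 (N.x_ne t) (N.y_ne t)

omit N in
/-- the correction factor -/
noncomputable def w (k : ℂ) (x y : ℝ → ℂ) (t : ℝ) : ℂ := y t * (1 + x t) / (k * x t)

theorem y_eq (t : ℝ) : y t = k * x t * (1 + x t)⁻¹ * w k x y t := by
  unfold w
  have := N.ne1p t
  have := N.x_ne t
  have := N.k0
  field_simp

theorem wb (t : ℝ) : ‖w k x y t - 1‖ ≤ 3 / ‖y t‖ := by
  have hy := N.y_ne t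
  have hx := N.x_ne t
  have hk := N.k0
  obtain ⟨h1, h2, h3⟩ := N.ne t
  set u : ℂ := (y t)⁻¹ with hu
  have nu : ‖u‖ ≤ 1 / 10 ^ 4 := by
    rw [hu, norm_inv, inv_le_comm₀ (norm_pos_iff.2 hy) (by norm_num)]
    linarith [N.yb t]
  have nu0 := norm_nonneg u
  have e1 : w k x y t - 1 = -(((2 + x t) + (1 + x t) * u) * u * w k x y t) := by
    have h4 := N.ly t
    unfold Ly at h4
    unfold w
    rw [hu]
    field_simp
    linear_combination h4
  have n1 : ‖(2 + x t) + (1 + x t) * u‖ ≤ 9 / 4 := by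
    have a1 := norm_add_le (2 + x t) ((1 + x t) * u)
    have a2 := norm_add_le (2 : ℂ) (x t)
    rw [norm_mul] at a1
    rw [Complex.norm_ofNat] at a2
    have a3 : ‖1 + x t‖ * ‖u‖ ≤ 7 / 6 * (1 / 10 ^ 4) := mul_le_mul (N.n1p' t) nu nu0 (by norm_num)
    linarith [N.ux6 t]
  have n2 : ‖w k x y t - 1‖ ≤ 9 / 4 * ‖u‖ * ‖w k x y t‖ := by
    rw [e1, norm_neg, norm_mul, norm_mul]
    gcongr
  have n3 : ‖w k x y t‖ ≤ 1 + ‖w k x y t - 1‖ := by
    have a1 := norm_add_le (1 : ℂ) (w k x y t - 1)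
    rwa [norm_one, add_sub_cancel] at a1
  have n4 : ‖w k x y t‖ ≤ 1001 / 1000 := by
    have : 9 / 4 * ‖u‖ * ‖w k x y t‖ ≤ 9 / 4 * (1 / 10 ^ 4) * ‖w k x y t‖ := by gcongr
    linarith
  calc ‖w k x y t - 1‖ ≤ 9 / 4 * ‖u‖ * ‖w k x y t‖ := n2
    _ ≤ 9 / 4 * ‖u‖ * (1001 / 1000) := by gcongr
    _ ≤ 3 * ‖u‖ := by linarith
    _ = 3 / ‖y t‖ := by rw [hu, norm_inv]; ring

theorem wb' (t : ℝ) : ‖w k x y t - 1‖ ≤ 1 / 1000 := by
  refine (N.wb t).trans ?_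
  rw [div_le_iff₀ (norm_pos_iff.2 (N.y_ne t))]
  linarith [N.yb t]

theorem nw (t : ℝ) : 999 / 1000 ≤ ‖w k x y t‖ := by
  have h := norm_sub_norm_le (1 : ℂ) (1 - w k x y t)
  rw [norm_one, norm_sub_rev, sub_sub_cancel] at h
  linarith [N.wb' t]

theorem nw' (t : ℝ) : ‖w k x y t‖ ≤ 1001 / 1000 := by
  have h := norm_add_le (1 : ℂ) (w k x y t - 1)
  rw [norm_one, add_sub_cancel] at h
  linarith [N.wb' t]

theorem ny (t : ℝ) : ‖k‖ * lo / 2 ≤ ‖y t‖ := by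
  rw [N.y_eq t, norm_mul, norm_mul, norm_mul, norm_inv]
  have h1 : 6 / 7 ≤ ‖1 + x t‖⁻¹ := by
    rw [le_inv_comm₀ (by norm_num) (by linarith [N.n1p t])]
    linarith [N.n1p' t]
  have h2 := N.lx t
  have h3 := N.nw t
  have h4 := norm_nonneg k
  have h5 := N.lo0
  have h6 : 0 ≤ ‖k‖ * lo := by positivity
  calc ‖k‖ * lo / 2 ≤ ‖k‖ * lo * (6 / 7) * (999 / 1000) := by linarith
    _ ≤ ‖k‖ * ‖x t‖ * ‖1 + x t‖⁻¹ * ‖w k x y t‖ := by gcongr

theorem rep_1px : RP R (fun t => 1 + x t) 1 0 (J m B) :=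
  (N.rx.add_dom N.hR N.B0 one_ne_zero (fun t => by rw [norm_one]; linarith [N.ux6 t])).congr
    (fun t => by ring) rfl rfl le_rfl le_rfl

theorem rep_xp1 : RP R (fun t => x t + 1) 1 0 (J m B) :=
  N.rep_1px.congr (fun t => by ring) rfl rfl le_rfl le_rfl

theorem rep_1py : RP R (fun t => 1 + y t) d m (J m B) :=
  (N.ry.add_small N.hR N.d0 1 (fun t => by rw [norm_one]; linarith [N.yb t])).congr
    (fun t => by ring) rfl rfl le_rfl le_rfl

omit N in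
theorem J_ge (m : ℤ) {B : ℝ} (hB : 0 ≤ B) : B ≤ J m B := by
  unfold J
  have : 0 ≤ 2 * Real.pi * |(m:ℝ)| := by positivity
  linarith

theorem J0 : 0 ≤ J m B := N.B0.trans (J_ge m N.B0)

theorem BJ : B ≤ J m B := J_ge m N.B0

theorem rep_1pxy : RP R (fun t => 1 + x t + y t) d m (2 * J m B) := by
  have h := N.ry.add_gen N.hR N.rep_1px N.d0 (fun t => by linarith [N.n1p' t, N.yb t])
  refine h.congr (fun t => by ring) rfl rfl ?_ ?_ <;>
  · unfold J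
    push_cast
    rw [zero_sub, abs_neg]
    linarith

theorem rep_x2 : RP R (fun t => (1 + y t) / x t) (d / c) 0 (2 * J m B) := by
  have h := N.rep_1py.mul N.hR N.rx.inv
  exact h.congr (fun t => by rw [div_eq_mul_inv]) (by rw [div_eq_mul_inv]) (by ring)
    (by linarith [N.BJ]) (by linarith [N.BJ])

theorem rep_x3 : RP R (fun t => (1 + x t + y t) / (x t * y t)) (1 / c) (-m) (4 * J m B) := by
  have h := (N.rep_1pxy.mul N.hR N.rx.inv).mul N.hR N.ry.inv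
  refine h.congr (fun t => ?_) ?_ (by ring) (by linarith [N.BJ]) (by linarith [N.BJ])
  · rw [div_eq_mul_inv, mul_inv]; ring
  · have := N.d0
    have := N.c0
    field_simp

theorem rep_zx : RP R (fun t => Zz (x t)) (-c) m (2 * J m B) := by
  have h := (N.rx.const_mul N.hR (-1)).mul N.hR N.rep_1px.inv
  refine h.congr (fun t => ?_) ?_ (by ring) (by linarith [N.BJ]) (by linarith [N.BJ])
  · unfold Zz; rw [div_eq_mul_inv]; ring
  · rw [inv_one]; ring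

theorem rep_zy : RP R (fun t => Zz (y t)) (-1) 0 (2 * J m B) := by
  have h := (N.ry.const_mul N.hR (-1)).mul N.hR N.rep_1py.inv
  refine h.congr (fun t => ?_) ?_ (by ring) (by linarith [N.BJ]) (by linarith [N.BJ])
  · unfold Zz; rw [div_eq_mul_inv]; ring
  · have := N.d0
    field_simp

theorem zx2 (t : ℝ) : Zz ((1 + y t) / x t) = -(1 + y t) / (1 + x t + y t) := by
  have h1 := N.x_ne t
  have h2 := (N.ne t).2.2
  unfold Zz
  have : 1 + (1 + y t) / x t = (1 + x t + y t) / x t := by field_simp; ring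
  rw [this]
  field_simp

theorem zx3 (t : ℝ) : Zz ((1 + x t + y t) / (x t * y t)) = -(1 + x t + y t) / ((1 + x t) * (1 + y t)) := by
  have h1 := N.x_ne t
  have h2 := N.y_ne t
  have h3 := (N.ne t).1
  have h4 := (N.ne t).2.1
  unfold Zz
  have : 1 + (1 + x t + y t) / (x t * y t) = (1 + x t) * (1 + y t) / (x t * y t) := by field_simp; ring
  rw [this]
  field_simp

theorem rep_zx2 : RP R (fun t => Zz ((1 + y t) / x t)) (-1) 0 (4 * J m B) := by
  have h := (RP.const_mul N.hR N.rep_1py (-1)).mul N.hR N.rep_1pxy.inv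
  refine h.congr (fun t => ?_) ?_ (by ring) (by linarith [N.J0]) (by linarith [N.J0])
  · rw [N.zx2 t, div_eq_mul_inv]; ring
  · have := N.d0
    field_simp

theorem rep_zx3 : RP R (fun t => Zz ((1 + x t + y t) / (x t * y t))) (-1) 0 (4 * J m B) := by
  have h := ((RP.const_mul N.hR N.rep_1pxy (-1)).mul N.hR N.rep_1px.inv).mul N.hR N.rep_1py.inv
  refine h.congr (fun t => ?_) ?_ (by ring) (by linarith [N.J0]) (by linarith [N.J0])
  · rw [N.zx3 t, div_eq_mul_inv, mul_inv]; ring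
  · have := N.d0
    rw [inv_one]
    field_simp

/-- the relation between the leading coefficients -/
theorem logs : |Real.log ‖d‖ - Real.log ‖c‖ - Real.log ‖k‖| ≤ 2 * B + 1 := by
  obtain ⟨α, a1, a2, a3, a4, a5⟩ := N.rx
  obtain ⟨β, b1, b2, b3, b4, b5⟩ := N.ry
  have hc := norm_pos_iff.2 N.c0
  have hd := norm_pos_iff.2 N.d0
  have hk := norm_pos_iff.2 N.k0
  have hw := N.nw 0
  have hw' := N.nw' 0
  have h1 := N.n1p 0
  have h1' := N.n1p' 0
  have e : ‖y 0‖ * ‖1 + x 0‖ = ‖k‖ * ‖x 0‖ * ‖w k x y 0‖ := by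
    rw [← norm_mul, ← norm_mul, ← norm_mul]
    congr 1
    unfold w
    have := N.x_ne 0
    have := N.k0
    field_simp
  have hm : 0 < ‖circ R 0 ^ m‖ := norm_pos_iff.2 (zpow_ne_zero _ (circ_ne_zero N.hR 0))
  have l1 : Real.log ‖y 0‖ = Real.log ‖d‖ + Real.log ‖circ R 0 ^ m‖ + (β 0).re := by
    rw [b3, norm_mul, norm_mul, Complex.norm_exp, Real.log_mul (by positivity) (Real.exp_ne_zero _),
      Real.log_mul hd.ne' hm.ne', Real.log_exp]
  have l2 : Real.log ‖x 0‖ = Real.log ‖c‖ + Real.log ‖circ R 0 ^ m‖ + (α 0).re := by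
    rw [a3, norm_mul, norm_mul, Complex.norm_exp, Real.log_mul (by positivity) (Real.exp_ne_zero _),
      Real.log_mul hc.ne' hm.ne', Real.log_exp]
  have l3 := congrArg Real.log e
  rw [Real.log_mul (norm_ne_zero_iff.2 (N.y_ne 0)) (by linarith),
    Real.log_mul (mul_ne_zero hk.ne' (norm_ne_zero_iff.2 (N.x_ne 0))) (by linarith),
    Real.log_mul hk.ne' (norm_ne_zero_iff.2 (N.x_ne 0)), l1, l2] at l3
  have r1 : |(α 0).re| ≤ B := (Complex.abs_re_le_norm _).trans (a4 0)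
  have r2 : |(β 0).re| ≤ B := (Complex.abs_re_le_norm _).trans (b4 0)
  have g1 : Real.log ‖w k x y 0‖ ≤ 1 / 1000 := by
    have := Real.log_le_sub_one_of_pos (by linarith : 0 < ‖w k x y 0‖)
    linarith
  have g2 : -(1 / 500) ≤ Real.log ‖w k x y 0‖ := by
    have := Real.one_sub_inv_le_log_of_pos (by linarith : 0 < ‖w k x y 0‖)
    have h2 : ‖w k x y 0‖⁻¹ ≤ (999 / 1000)⁻¹ := inv_anti₀ (by norm_num) hw
    have h3 : ((999:ℝ) / 1000)⁻¹ ≤ 1 + 1 / 500 := by norm_num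
    linarith
  have g3 : Real.log ‖1 + x 0‖ ≤ 1 / 2 := by
    have := Real.log_le_sub_one_of_pos (by linarith : 0 < ‖1 + x 0‖)
    linarith
  have g4 : -(1 / 2) ≤ Real.log ‖1 + x 0‖ := by
    have := Real.one_sub_inv_le_log_of_pos (by linarith : 0 < ‖1 + x 0‖)
    have h2 : ‖1 + x 0‖⁻¹ ≤ (5 / 6)⁻¹ := inv_anti₀ (by norm_num) h1
    have h3 : ((5:ℝ) / 6)⁻¹ ≤ 1 + 1 / 2 := by norm_num
    linarith
  rw [abs_le] at r1 r2 ⊢
  constructor
  · linarith [r1.1, r2.2, r1.2, r2.1]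
  · linarith [r1.1, r2.2, r1.2, r2.1]

end Neck

end Pool.Agent.K6.H95.OC
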