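import Pool.Agent.K6.H95.OC.Base
import Pool.Agent.K6.H95.OC.LP
set_option autoImplicit false

/-!
The regulator pairings of the symbols attached to necks.
-/

namespace Pool.Agent.K6.H95.OC

open Pool.Agent.W367.KT Pool.Agent.T6.H7.SX
open Set MeasureTheory intervalIntegral

/-- the bound for the pairings -/
noncomputable def TB (m : ℤ) (B : ℝ) : ℝ :=
  4 * Real.pi * |(m:ℝ)| * (4 * J m B) + (4 * J m B) * (4 * J m B) + 2 * Real.pi * |(m:ℝ)| * (2 * B + 1)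

section

variable {F : Type*} [Field F]

theorem Neck.pair {R : ℝ} {k : ℂ} {x y : ℝ → ℂ} {c d : ℂ} {m : ℤ} {lo hi B : ℝ}
    (N : Neck R k x y c d m lo hi B) (γ : Loop F) (a b : Fˣ) {f g : ℝ → ℂ} {c1 c2 : ℂ} {m1 m2 : ℤ} {B1 B2 : ℝ}
    (hf : RP R f c1 m1 B1) (hg : RP R g c2 m2 B2) (hB1 : B1 ≤ 4 * J m B) (hB2 : B2 ≤ 4 * J m B)
    (h1 : |(m1:ℝ)| ≤ |(m:ℝ)|) (h2 : |(m2:ℝ)| ≤ |(m:ℝ)|) (c10 : c1 ≠ 0) (c20 : c2 ≠ 0) (e : ℤ)
    (he : |(e:ℝ)| ≤ |(m:ℝ)|)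
    (hee : (m2:ℝ) * Real.log ‖c1‖ - m1 * Real.log ‖c2‖ = e * (Real.log ‖d‖ - Real.log ‖c‖))
    (ha : ∀ t, γ.e t (a : F) = f t) (hb : ∀ t, γ.e t (b : F) = g t) :
    |γ.pair a b - 2 * Real.pi * (e * Real.log ‖k‖)| ≤ TB m B := by
  have hJ := N.J0
  have hB := N.B0
  have key := pair_RP γ a b N.hR c10 c20 m1 m2 (hf.mono hB1) (hg.mono hB2) ha hb
  rw [hee] at key
  have hl := N.logs
  have e1 : γ.pair a b - 2 * Real.pi * (e * Real.log ‖k‖) =
      (γ.pair a b - 2 * Real.pi * (e * (Real.log ‖d‖ - Real.log ‖c‖))) +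
      2 * Real.pi * (e * (Real.log ‖d‖ - Real.log ‖c‖ - Real.log ‖k‖)) := by ring
  rw [e1]
  refine (abs_add_le _ _).trans ?_
  have e2 : |2 * Real.pi * (e * (Real.log ‖d‖ - Real.log ‖c‖ - Real.log ‖k‖))| ≤
      2 * Real.pi * |(m:ℝ)| * (2 * B + 1) := by
    rw [abs_mul, abs_mul, abs_mul, abs_of_pos Real.pi_pos, abs_of_pos (by norm_num : (0:ℝ) < 2), mul_assoc (2 * Real.pi)]
    gcongr
  have e3 : 2 * Real.pi * |(m1:ℝ)| * (4 * J m B) + 2 * Real.pi * |(m2:ℝ)| * (4 * J m B) ≤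
      4 * Real.pi * |(m:ℝ)| * (4 * J m B) := by
    have a1 : 2 * Real.pi * |(m1:ℝ)| * (4 * J m B) ≤ 2 * Real.pi * |(m:ℝ)| * (4 * J m B) := by gcongr
    have a2 : 2 * Real.pi * |(m2:ℝ)| * (4 * J m B) ≤ 2 * Real.pi * |(m:ℝ)| * (4 * J m B) := by gcongr
    linarith
  unfold TB
  linarith

/-- the loop `γ` evaluates `(x', y')` as the neck -/
structure EV (γ : Loop F) (x' y' : F) (x y : ℝ → ℂ) : Prop where
  hx : ∀ t, γ.e t x' = x t
  hy : ∀ t, γ.e t y' = y t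

namespace Neck

variable {R : ℝ} {k : ℂ} {x y : ℝ → ℂ} {c d : ℂ} {m : ℤ} {lo hi B : ℝ}
  (N : Neck R k x y c d m lo hi B) {γ : Loop F} {x' y' : F} (E : EV γ x' y' x y) (a b : Fˣ)
include N E

omit N in
theorem ev2 (t : ℝ) : γ.e t ((1 + y') / x') = (1 + y t) / x t := by
  rw [map_div₀, map_add, map_one, E.hx, E.hy]

omit N in
theorem ev3 (t : ℝ) : γ.e t ((1 + x' + y') / (x' * y')) = (1 + x t + y t) / (x t * y t) := by
  rw [map_div₀, map_mul, map_add, map_add, map_one, E.hx, E.hy]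

theorem T1 (ha : (a : F) = x') (hb : (b : F) = y') :
    |γ.pair a b - 2 * Real.pi * ((-m : ℤ) * Real.log ‖k‖)| ≤ TB m B := by
  have hB := N.B0
  have hJ := N.J0
  have hBJ := N.BJ
  refine N.pair γ a b N.rx N.ry (by linarith) (by linarith) le_rfl le_rfl N.c0 N.d0 (-m)
    (by push_cast; rw [abs_neg]) ?_ (fun t => by rw [ha, E.hx]) (fun t => by rw [hb, E.hy])
  push_cast
  ring

theorem T2 (ha : (a : F) = Zz x') (hb : (b : F) = Zz ((1 + y') / x')) :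
    |γ.pair a b - 2 * Real.pi * ((0 : ℤ) * Real.log ‖k‖)| ≤ TB m B := by
  have hJ := N.J0
  refine N.pair γ a b N.rep_zx N.rep_zx2 (by linarith) le_rfl le_rfl (by simp) (neg_ne_zero.2 N.c0)
    (neg_ne_zero.2 one_ne_zero) 0 (by simp) ?_ (fun t => by rw [ha, map_Zz, E.hx])
    (fun t => by rw [hb, map_Zz, ev2 E])
  rw [norm_neg, norm_neg, norm_one, Real.log_one]
  push_cast
  ring

theorem T3 (ha : (a : F) = Zz x') (hb : (b : F) = Zz ((1 + x' + y') / (x' * y'))) :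
    |γ.pair a b - 2 * Real.pi * ((0 : ℤ) * Real.log ‖k‖)| ≤ TB m B := by
  have hJ := N.J0
  refine N.pair γ a b N.rep_zx N.rep_zx3 (by linarith) le_rfl le_rfl (by simp) (neg_ne_zero.2 N.c0)
    (neg_ne_zero.2 one_ne_zero) 0 (by simp) ?_ (fun t => by rw [ha, map_Zz, E.hx])
    (fun t => by rw [hb, map_Zz, ev3 E])
  rw [norm_neg, norm_neg, norm_one, Real.log_one]
  push_cast
  ring

theorem T4 (ha : (a : F) = Zz y') (hb : (b : F) = Zz ((1 + x' + y') / (x' * y'))) :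
    |γ.pair a b - 2 * Real.pi * ((0 : ℤ) * Real.log ‖k‖)| ≤ TB m B := by
  have hJ := N.J0
  refine N.pair γ a b N.rep_zy N.rep_zx3 (by linarith) le_rfl (by simp) (by simp) (neg_ne_zero.2 one_ne_zero)
    (neg_ne_zero.2 one_ne_zero) 0 (by simp) ?_ (fun t => by rw [ha, map_Zz, E.hy])
    (fun t => by rw [hb, map_Zz, ev3 E])
  push_cast
  ring

theorem T5 (ha : (a : F) = y') (hb : (b : F) = (1 + y') / x') :
    |γ.pair a b - 2 * Real.pi * ((-m : ℤ) * Real.log ‖k‖)| ≤ TB m B := by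
  have hB := N.B0
  have hJ := N.J0
  have hBJ := N.BJ
  refine N.pair γ a b N.ry N.rep_x2 (by linarith) (by linarith) le_rfl (by simp) N.d0
    (div_ne_zero N.d0 N.c0) (-m) (by push_cast; rw [abs_neg]) ?_ (fun t => by rw [ha, E.hy])
    (fun t => by rw [hb, ev2 E])
  rw [norm_div, Real.log_div (norm_ne_zero_iff.2 N.d0) (norm_ne_zero_iff.2 N.c0)]
  push_cast
  ring

theorem T6 (ha : (a : F) = y') (hb : (b : F) = x') :
    |γ.pair a b - 2 * Real.pi * ((m : ℤ) * Real.log ‖k‖)| ≤ TB m B := by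
  have hB := N.B0
  have hJ := N.J0
  have hBJ := N.BJ
  refine N.pair γ a b N.ry N.rx (by linarith) (by linarith) le_rfl le_rfl N.d0 N.c0 m
    le_rfl ?_ (fun t => by rw [ha, E.hy]) (fun t => by rw [hb, E.hx])
  ring

theorem T7 (ha : (a : F) = (1 + x' + y') / (x' * y')) (hb : (b : F) = (1 + y') / x') :
    |γ.pair a b - 2 * Real.pi * ((m : ℤ) * Real.log ‖k‖)| ≤ TB m B := by
  have hB := N.B0
  have hJ := N.J0
  have hBJ := N.BJ
  refine N.pair γ a b N.rep_x3 N.rep_x2 le_rfl (by linarith) (by push_cast; rw [abs_neg]) (by simp)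
    (div_ne_zero one_ne_zero N.c0)
    (div_ne_zero N.d0 N.c0) m le_rfl ?_ (fun t => by rw [ha, ev3 E])
    (fun t => by rw [hb, ev2 E])
  rw [norm_div d, Real.log_div (norm_ne_zero_iff.2 N.d0) (norm_ne_zero_iff.2 N.c0)]
  push_cast
  ring

theorem T8 (ha : (a : F) = Zz ((1 + x' + y') / (x' * y'))) (hb : (b : F) = Zz y') :
    |γ.pair a b - 2 * Real.pi * ((0 : ℤ) * Real.log ‖k‖)| ≤ TB m B := by
  have hJ := N.J0
  refine N.pair γ a b N.rep_zx3 N.rep_zy le_rfl (by linarith) (by simp) (by simp) (neg_ne_zero.2 one_ne_zero)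
    (neg_ne_zero.2 one_ne_zero) 0 (by simp) ?_ (fun t => by rw [ha, map_Zz, ev3 E])
    (fun t => by rw [hb, map_Zz, E.hy])
  push_cast
  ring

theorem T9 (ha : (a : F) = Zz ((1 + x' + y') / (x' * y'))) (hb : (b : F) = Zz x') :
    |γ.pair a b - 2 * Real.pi * ((0 : ℤ) * Real.log ‖k‖)| ≤ TB m B := by
  have hJ := N.J0
  refine N.pair γ a b N.rep_zx3 N.rep_zx le_rfl (by linarith) (by simp) le_rfl (neg_ne_zero.2 one_ne_zero)
    (neg_ne_zero.2 N.c0) 0 (by simp) ?_ (fun t => by rw [ha, map_Zz, ev3 E])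
    (fun t => by rw [hb, map_Zz, E.hx])
  rw [norm_neg, norm_one, Real.log_one]
  push_cast
  ring

end Neck

end

end Pool.Agent.K6.H95.OC
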