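import Pool.Agent.T6.H7.SX.Main
set_option autoImplicit false

/-!
Almost-monomial functions on circles: addition of constants, and bounds for derivatives.
-/

namespace Pool.Agent.K6.H95.OC

open Pool.Agent.W367.KT Pool.Agent.T6.H7.SX
open Set MeasureTheory intervalIntegral

/-- `A = c x^m exp(α)` on the circle, with one bound for `α` and `α'` -/
abbrev RP (R : ℝ) (A : ℝ → ℂ) (c : ℂ) (m : ℤ) (B : ℝ) : Prop := Rep R A c m B B

section

variable {R : ℝ} (hR : 0 < R) {f g : ℝ → ℂ} {c c' : ℂ} {m m' : ℤ} {A B : ℝ}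
include hR

theorem RP.deriv_bd (hf : RP R f c m B) : CC f ∧ ∀ t, ‖deriv f t‖ ≤ ‖f t‖ * (2 * Real.pi * |(m:ℝ)| + B) := by
  obtain ⟨α, h1, h2, h3, h4, h5⟩ := hf
  have hc : ∀ t, HasDerivAt f (f t * (2 * Real.pi * Complex.I * m + deriv α t)) t := by
    intro t
    have k1 := (hasDerivAt_zpow m (circ R t) (Or.inl (circ_ne_zero hR t))).comp t (hasDerivAt_circ R t)
    have k2 : HasDerivAt (fun t => Complex.exp (α t)) (Complex.exp (α t) * deriv α t) t :=
      ((h1.differentiable (by norm_num)) t).hasDerivAt.cexp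
    have k3 := (k1.const_mul c).mul k2
    have e : f = fun t => c * circ R t ^ m * Complex.exp (α t) := funext h3
    rw [e]
    refine k3.congr_deriv ?_
    simp only [Function.comp_apply]
    rw [zpow_sub_one₀ (circ_ne_zero hR t)]
    have := circ_ne_zero hR t
    field_simp
  have hcd : ContDiff ℝ 1 f := by
    have e : f = fun t => c * circ R t ^ m * Complex.exp (α t) := funext h3
    rw [e]
    refine (contDiff_const.mul ?_).mul h1.cexp
    cases m with
    | ofNat n => simpa using (contDiff_circ R).pow n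
    | negSucc n =>
      simp only [zpow_negSucc]
      exact ((contDiff_circ R).pow (n+1)).inv (fun t => pow_ne_zero _ (circ_ne_zero hR t))
  refine ⟨⟨hcd, by rw [h3, h3, circ_closed, h2]⟩, fun t => ?_⟩
  rw [(hc t).deriv, norm_mul]
  apply mul_le_mul_of_nonneg_left _ (norm_nonneg _)
  refine (norm_add_le _ _).trans (add_le_add (le_of_eq ?_) (h5 t))
  rw [norm_mul, norm_mul, norm_mul]
  simp only [Complex.norm_ofNat, Complex.norm_real, Complex.norm_I, mul_one, Real.norm_eq_abs,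
    abs_of_pos Real.pi_pos, Complex.norm_intCast]

theorem RP.cc (hf : RP R f c m B) : CC f := (hf.deriv_bd hR).1

theorem RP.ne_zero (hf : RP R f c m B) (hc : c ≠ 0) (t : ℝ) : f t ≠ 0 := by
  obtain ⟨α, h1, h2, h3, h4, h5⟩ := hf
  rw [h3]
  exact mul_ne_zero (mul_ne_zero hc (zpow_ne_zero _ (circ_ne_zero hR t))) (Complex.exp_ne_zero _)

omit hR in
theorem RP.mono (hf : RP R f c m A) (h : A ≤ B) : RP R f c m B :=
  hf.congr (fun _ => rfl) rfl rfl h h

omit hR in
/-- functions `1 - E` with small `E` -/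
theorem rp_near {E : ℝ → ℂ} (hE : CC E) (h : ∀ t, ‖E t‖ ≤ 1 / 2) {D : ℝ} (hD : ∀ t, ‖deriv E t‖ ≤ D) :
    RP R (fun t => 1 - E t) 1 0 (1 + 2 * D) := by
  have hD0 : 0 ≤ D := (norm_nonneg _).trans (hD 0)
  have hs' : ∀ t, 1 - E t ∈ Complex.slitPlane := fun t => by
    rw [sub_eq_add_neg]
    exact slit_of_norm (by rw [norm_neg]; exact h t)
  have hder : ∀ t, HasDerivAt (fun t => 1 - E t) (-deriv E t) t := fun t =>
    ((hE.1.differentiable (by norm_num)) t).hasDerivAt.const_sub 1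
  have hc : ContDiff ℝ 1 (fun t => 1 - E t) := contDiff_const.sub hE.1
  refine ⟨fun t => Complex.log (1 - E t), ?_, by dsimp only; rw [hE.2], fun t => ?_, fun t => ?_, fun t => ?_⟩
  · rw [contDiff_iff_contDiffAt]
    intro t
    exact (((Complex.contDiffAt_log (hs' t)).restrict_scalars ℝ).comp t (hc.contDiffAt))
  · rw [Complex.exp_log (Complex.slitPlane_ne_zero (hs' t))]; simp
  · have := Complex.norm_log_one_add_half_le_self (z := -(E t)) (by rw [norm_neg]; exact h t)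
    rw [← sub_eq_add_neg, norm_neg] at this
    linarith [h t]
  · rw [((hder t).clog_real (hs' t)).deriv, norm_div, norm_neg]
    have h2 : 1 / 2 ≤ ‖1 - E t‖ := by
      have := norm_sub_norm_le (1:ℂ) (E t)
      rw [norm_one] at this
      linarith [h t]
    rw [div_le_iff₀ (by linarith)]
    nlinarith [hD t]

/-- the bound after addition of a constant -/
noncomputable def J (m : ℤ) (B : ℝ) : ℝ := 2 * B + 2 * Real.pi * |(m:ℝ)| + 1

theorem RP.add_small (hf : RP R f c m B) (hc : c ≠ 0) (a : ℂ) (h : ∀ t, ‖a‖ ≤ ‖f t‖ / 2) :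
    RP R (fun t => f t + a) c m (J m B) := by
  obtain ⟨k1, k2⟩ := hf.deriv_bd hR
  have hf0 := hf.ne_zero hR hc
  have hE : CC (fun t => -a * (f t)⁻¹) := (CC.const (-a)).mul (k1.inv hf0)
  have hb : ∀ t, ‖-a * (f t)⁻¹‖ ≤ 1 / 2 := fun t => by
    rw [norm_mul, norm_neg, norm_inv, ← div_eq_mul_inv, div_le_iff₀ (norm_pos_iff.2 (hf0 t))]
    linarith [h t]
  have hd : ∀ t, ‖deriv (fun t => -a * (f t)⁻¹) t‖ ≤ 1 / 2 * (2 * Real.pi * |(m:ℝ)| + B) := fun t => by
    have e : HasDerivAt (fun t => -a * (f t)⁻¹) (-a * (-(deriv f t) / f t ^ 2)) t :=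
      (((k1.1.differentiable (by norm_num)) t).hasDerivAt.inv (hf0 t)).const_mul (-a)
    rw [e.deriv]
    have e2 : -a * (-(deriv f t) / f t ^ 2) = -(-a * (f t)⁻¹) * (deriv f t / f t) := by
      have := hf0 t
      field_simp
    rw [e2, norm_mul, norm_neg, norm_div]
    apply mul_le_mul (hb t) _ (by positivity) (by norm_num)
    rw [div_le_iff₀ (norm_pos_iff.2 (hf0 t)), mul_comm]
    exact k2 t
  have h1 := hf.mul hR (rp_near hE hb hd)
  refine h1.congr (fun t => ?_) (by ring) (by ring) ?_ ?_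
  · have := hf0 t
    field_simp
    ring
  · unfold J; linarith
  · unfold J; linarith

theorem RP.add_dom (hf : RP R f c m B) (hB : 0 ≤ B) {a : ℂ} (ha : a ≠ 0) (h : ∀ t, ‖f t‖ ≤ ‖a‖ / 2) :
    RP R (fun t => f t + a) a 0 (J m B) := by
  obtain ⟨k1, k2⟩ := hf.deriv_bd hR
  have hE : CC (fun t => -a⁻¹ * f t) := (CC.const (-a⁻¹)).mul k1
  have ha' := norm_pos_iff.2 ha
  have hb : ∀ t, ‖-a⁻¹ * f t‖ ≤ 1 / 2 := fun t => by
    rw [norm_mul, norm_neg, norm_inv, inv_mul_le_iff₀ ha']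
    linarith [h t]
  have hd : ∀ t, ‖deriv (fun t => -a⁻¹ * f t) t‖ ≤ 1 / 2 * (2 * Real.pi * |(m:ℝ)| + B) := fun t => by
    have e : HasDerivAt (fun t => -a⁻¹ * f t) (-a⁻¹ * deriv f t) t :=
      ((k1.1.differentiable (by norm_num)) t).hasDerivAt.const_mul (-a⁻¹)
    rw [e.deriv, norm_mul, norm_neg, norm_inv, inv_mul_le_iff₀ ha']
    refine (k2 t).trans ?_
    have h3 : 0 ≤ 2 * Real.pi * |(m:ℝ)| + B := by positivity
    calc ‖f t‖ * (2 * Real.pi * |(m:ℝ)| + B) ≤ (‖a‖ / 2) * (2 * Real.pi * |(m:ℝ)| + B) :=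
          mul_le_mul_of_nonneg_right (h t) h3
      _ = _ := by ring
  have h1 := (Rep.const R a).mul hR (rp_near hE hb hd)
  refine h1.congr (fun t => ?_) (by ring) (by ring) ?_ ?_
  · field_simp
    ring
  · unfold J; linarith
  · unfold J; linarith

theorem RP.const_mul (hf : RP R f c m B) (a : ℂ) : RP R (fun t => a * f t) (a * c) m B :=
  ((Rep.const R a).mul hR hf).congr (fun _ => rfl) rfl (by ring) (by linarith) (by linarith)


/-- addition of a relatively small function -/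
theorem RP.add_gen {A' : ℝ} (hf : RP R f c m B) (hg : RP R g c' m' A') (hc : c ≠ 0)
    (h : ∀ t, ‖g t‖ ≤ ‖f t‖ / 2) :
    RP R (fun t => f t + g t) c m (2 * B + A' + 2 * Real.pi * |((m' - m : ℤ):ℝ)| + 1) := by
  obtain ⟨k1, k2⟩ := hf.deriv_bd hR
  have hf0 := hf.ne_zero hR hc
  have hq : RP R (fun t => -1 * (g t * (f t)⁻¹)) (-1 * (c' * c⁻¹)) (m' - m) (A' + B) :=
    (RP.const_mul hR (hg.mul hR (rep_inv hf)) (-1)).congr (fun _ => rfl) rfl (by ring) (by linarith) (by linarith)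
  obtain ⟨q1, q2⟩ := hq.deriv_bd hR
  have hb : ∀ t, ‖-1 * (g t * (f t)⁻¹)‖ ≤ 1 / 2 := fun t => by
    rw [norm_mul, norm_neg, norm_one, one_mul, norm_mul, norm_inv, ← div_eq_mul_inv,
      div_le_iff₀ (norm_pos_iff.2 (hf0 t))]
    linarith [h t]
  have h0 : 0 ≤ 2 * Real.pi * |((m' - m : ℤ):ℝ)| + (A' + B) := by
    have := q2 0
    by_contra hcon
    obtain ⟨α, a1, a2, a3, a4, a5⟩ := hf
    obtain ⟨β, b1, b2, b3, b4, b5⟩ := hg
    have e1 := (norm_nonneg _).trans (a4 0)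
    have e2 := (norm_nonneg _).trans (b4 0)
    apply hcon
    positivity
  have hd : ∀ t, ‖deriv (fun t => -1 * (g t * (f t)⁻¹)) t‖ ≤
      1 / 2 * (2 * Real.pi * |((m' - m : ℤ):ℝ)| + (A' + B)) := fun t =>
    (q2 t).trans (mul_le_mul_of_nonneg_right (hb t) h0)
  have h1 := hf.mul hR (rp_near q1 hb hd)
  refine h1.congr (fun t => ?_) (by ring) (by ring) (by linarith) (by linarith)
  have := hf0 t
  field_simp
  ring

omit hR in
theorem RP.nonneg (hf : RP R f c m B) : 0 ≤ B := by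
  obtain ⟨α, a1, a2, a3, a4, a5⟩ := hf
  exact (norm_nonneg _).trans (a4 0)

omit hR in
theorem RP.inv (hf : RP R f c m B) : RP R (fun t => (f t)⁻¹) c⁻¹ (-m) B := rep_inv hf

end

section BD

/-- closed `C^1` functions, bounded with their derivatives -/
def BD (f : ℝ → ℂ) (M : ℝ) : Prop := CC f ∧ (∀ t, ‖f t‖ ≤ M) ∧ ∀ t, ‖deriv f t‖ ≤ M

variable {f g : ℝ → ℂ} {M N : ℝ}

theorem BD.nonneg (hf : BD f M) : 0 ≤ M := (norm_nonneg _).trans (hf.2.1 0)

theorem BD.const (a : ℂ) : BD (fun _ => a) ‖a‖ :=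
  ⟨CC.const a, fun _ => le_rfl, fun t => by simp⟩

theorem BD.add (hf : BD f M) (hg : BD g N) : BD (fun t => f t + g t) (M + N) := by
  refine ⟨hf.1.add hg.1, fun t => (norm_add_le _ _).trans (add_le_add (hf.2.1 t) (hg.2.1 t)), fun t => ?_⟩
  have e : HasDerivAt (fun t => f t + g t) (deriv f t + deriv g t) t :=
    ((hf.1.1.differentiable (by norm_num)) t).hasDerivAt.add ((hg.1.1.differentiable (by norm_num)) t).hasDerivAt
  rw [e.deriv]
  exact (norm_add_le _ _).trans (add_le_add (hf.2.2 t) (hg.2.2 t))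

theorem BD.mul (hf : BD f M) (hg : BD g N) : BD (fun t => f t * g t) (2 * M * N) := by
  have hM := hf.nonneg
  have hN := hg.nonneg
  refine ⟨hf.1.mul hg.1, fun t => ?_, fun t => ?_⟩
  · rw [norm_mul]
    have := mul_le_mul (hf.2.1 t) (hg.2.1 t) (norm_nonneg _) hM
    nlinarith [mul_nonneg hM hN]
  · have e : HasDerivAt (fun t => f t * g t) (deriv f t * g t + f t * deriv g t) t :=
      ((hf.1.1.differentiable (by norm_num)) t).hasDerivAt.mul ((hg.1.1.differentiable (by norm_num)) t).hasDerivAt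
    rw [e.deriv]
    refine (norm_add_le _ _).trans ?_
    rw [norm_mul, norm_mul]
    have h1 := mul_le_mul (hf.2.2 t) (hg.2.1 t) (norm_nonneg _) hM
    have h2 := mul_le_mul (hf.2.1 t) (hg.2.2 t) (norm_nonneg _) hM
    linarith

theorem BD.mono (hf : BD f M) (h : M ≤ N) : BD f N :=
  ⟨hf.1, fun t => (hf.2.1 t).trans h, fun t => (hf.2.2 t).trans h⟩

theorem RP.bd {R : ℝ} (hR : 0 < R) {c : ℂ} {m : ℤ} {B : ℝ} (hf : RP R f c m B) (hB : 0 ≤ B)
    (hM : ∀ t, ‖f t‖ ≤ M) : BD f (M * (1 + 2 * Real.pi * |(m:ℝ)| + B)) := by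
  have h0 : 0 ≤ M := (norm_nonneg _).trans (hM 0)
  have hp : 0 ≤ 2 * Real.pi * |(m:ℝ)| := by positivity
  obtain ⟨h1, h2⟩ := hf.deriv_bd hR
  refine ⟨h1, fun t => (hM t).trans ?_, fun t => (h2 t).trans ?_⟩
  · nlinarith [mul_nonneg h0 hp, mul_nonneg h0 hB]
  · have := mul_le_mul_of_nonneg_right (hM t) (add_nonneg hp hB)
    nlinarith

end BD

/-- the pairing of two almost monomials -/
theorem pair_RP {F : Type*} [Field F] (γ : Loop F) (a b : Fˣ) {R : ℝ} (hR : 0 < R) {c c' : ℂ} (hc : c ≠ 0)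
    (hc' : c' ≠ 0) (m n : ℤ) {f g : ℝ → ℂ} {B : ℝ} (hf : RP R f c m B) (hg : RP R g c' n B)
    (ha : ∀ t, γ.e t (a : F) = f t) (hb : ∀ t, γ.e t (b : F) = g t) :
    |γ.pair a b - 2 * Real.pi * (n * Real.log ‖c‖ - m * Real.log ‖c'‖)| ≤
      2 * Real.pi * |(m:ℝ)| * B + 2 * Real.pi * |(n:ℝ)| * B + B * B :=
  pair_rep γ a b hR hc hc' m n hf (Rep.rep' hg) ha hb

end Pool.Agent.K6.H95.OC
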