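import Pool.Agent.K6.H95.OC.Irr8
set_option autoImplicit false

/-!
The eight real roots.
-/

namespace Pool.Agent.K6.H95.OC

open Pool.Agent.T6.H7.SX
open Set

/-- the quartic function of `u` -/
def qr (n u : ℝ) : ℝ := (1 - u ^ 2) * ((n - u) ^ 2 - 1) - 4

theorem cont_qr (n : ℝ) : Continuous (qr n) := by unfold qr; fun_prop

section roots

variable {n : ℝ} (hn : 2000 ≤ n)
include hn

theorem inv_small : 0 < 1 / n ∧ 1 / n ≤ 1 / 2000 := by
  have h0 : 0 < n := by linarith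
  exact ⟨one_div_pos.2 h0, one_div_le_one_div_of_le (by norm_num) hn⟩

theorem ua : ∃ u, n - 1 < u ∧ u < n - 1 + 1 / n ∧ qr n u = 0 := by
  obtain ⟨h1, h2⟩ := inv_small hn
  have h0 : 0 < n := by linarith
  apply exists_root (cont_qr n) (by linarith)
  · unfold qr; ring_nf; norm_num
  · have e : qr n (n - 1 + 1 / n) = ((n ^ 2 - n + 1) ^ 2 - n ^ 2) * (2 * n - 1) / n ^ 4 - 4 := by
      unfold qr
      field_simp
      ring
    rw [e, sub_pos, lt_div_iff₀ (by positivity)]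
    obtain ⟨m, hm, rfl⟩ : ∃ m : ℝ, 0 ≤ m ∧ n = 2000 + m := ⟨n - 2000, by linarith, by ring⟩
    ring_nf
    nlinarith [pow_nonneg hm 2, pow_nonneg hm 3, pow_nonneg hm 4, pow_nonneg hm 5]

theorem ub : ∃ u, n + 1 - 1 / n < u ∧ u < n + 1 ∧ qr n u = 0 := by
  obtain ⟨h1, h2⟩ := inv_small hn
  have h0 : 0 < n := by linarith
  apply exists_root' (cont_qr n) (by linarith)
  · have e : qr n (n + 1 - 1 / n) = ((n ^ 2 + n - 1) ^ 2 - n ^ 2) * (2 * n - 1) / n ^ 4 - 4 := by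
      unfold qr
      field_simp
      ring
    rw [e, sub_pos, lt_div_iff₀ (by positivity)]
    obtain ⟨m, hm, rfl⟩ : ∃ m : ℝ, 0 ≤ m ∧ n = 2000 + m := ⟨n - 2000, by linarith, by ring⟩
    ring_nf
    nlinarith [pow_nonneg hm 2, pow_nonneg hm 3, pow_nonneg hm 4, pow_nonneg hm 5]
  · unfold qr; ring_nf; norm_num

theorem uc : ∃ u, 1 - 1 / n < u ∧ u < 1 ∧ qr n u = 0 := by
  obtain ⟨h1, h2⟩ := inv_small hn
  have h0 : 0 < n := by linarith
  apply exists_root' (cont_qr n) (by linarith)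
  · have e : qr n (1 - 1 / n) = (2 * n - 1) * ((n ^ 2 - n + 1) ^ 2 - n ^ 2) / n ^ 4 - 4 := by
      unfold qr
      field_simp
      ring
    rw [e, sub_pos, lt_div_iff₀ (by positivity)]
    obtain ⟨m, hm, rfl⟩ : ∃ m : ℝ, 0 ≤ m ∧ n = 2000 + m := ⟨n - 2000, by linarith, by ring⟩
    ring_nf
    nlinarith [pow_nonneg hm 2, pow_nonneg hm 3, pow_nonneg hm 4, pow_nonneg hm 5]
  · unfold qr; ring_nf; norm_num

theorem ud : ∃ u, -1 < u ∧ u < -1 + 1 / n ∧ qr n u = 0 := by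
  obtain ⟨h1, h2⟩ := inv_small hn
  have h0 : 0 < n := by linarith
  apply exists_root (cont_qr n) (by linarith)
  · unfold qr; ring_nf; norm_num
  · have e : qr n (-1 + 1 / n) = (2 * n - 1) * ((n ^ 2 + n - 1) ^ 2 - n ^ 2) / n ^ 4 - 4 := by
      unfold qr
      field_simp
      ring
    rw [e, sub_pos, lt_div_iff₀ (by positivity)]
    obtain ⟨m, hm, rfl⟩ : ∃ m : ℝ, 0 ≤ m ∧ n = 2000 + m := ⟨n - 2000, by linarith, by ring⟩
    ring_nf
    nlinarith [pow_nonneg hm 2, pow_nonneg hm 3, pow_nonneg hm 4, pow_nonneg hm 5]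

end roots

theorem pos_root (τ : ℝ) : ∃ s : ℝ, 0 < s ∧ s ^ 2 - 1 = τ * s := by
  have h1 : 0 ≤ τ ^ 2 + 4 := by positivity
  have h2 := Real.sq_sqrt h1
  have h3 : |τ| < Real.sqrt (τ ^ 2 + 4) := by
    apply Real.lt_sqrt_of_sq_lt
    rw [sq_abs]
    linarith
  refine ⟨(τ + Real.sqrt (τ ^ 2 + 4)) / 2, ?_, ?_⟩
  · have := neg_abs_le τ
    linarith
  · linear_combination (1 / 4) * h2

theorem neg_root (τ : ℝ) : ∃ s : ℝ, s < 0 ∧ s ^ 2 - 1 = τ * s := by
  obtain ⟨s, h1, h2⟩ := pos_root (-τ)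
  exact ⟨-s, by linarith, by linear_combination h2⟩

theorem rt_of {n s u : ℝ} (hq : qr n u = 0) (hs : s ≠ 0) (h : s ^ 2 - 1 = (1 - u ^ 2) * s) :
    RT n s u (1 - u ^ 2) := by
  refine ⟨hs, ?_, h, by ring, ?_⟩
  · intro h0
    unfold qr at hq
    rw [h0] at hq
    norm_num at hq
  · unfold qr at hq
    linear_combination hq

section bounds

variable {n : ℝ} (hn : 2000 ≤ n) {s u τ : ℝ} (R : RT n s u τ)
include hn R

theorem eu_real : eu n s = u := (R.eu_eq (by linarith) two_ne_zero).2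

/-- `τ` for `u` near `±1` -/
theorem tau_small (hu1 : -1 < u) (hu2 : u < 1) : 0 < τ ∧ τ ≤ 8 / n ^ 2 := by
  have h1 := R.hu
  have h2 := R.hw
  have h0 : 0 < n := by linarith
  have hτ : 0 < τ := by nlinarith
  refine ⟨hτ, ?_⟩
  rw [le_div_iff₀ (by positivity)]
  have h3 : n ^ 2 / 2 ≤ (n - u) ^ 2 - 1 := by nlinarith
  nlinarith

/-- `τ` for `u` near `n ± 1` -/
theorem tau_large (hu1 : n - 1 < u) (hu2 : u < n + 1) : τ ≤ -n ^ 2 / 2 := by
  have h1 := R.hu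
  nlinarith

theorem s_pos_small (hs : 0 < s) (hτ : 0 < τ) : 1 < s ∧ s - 1 ≤ τ ∧ τ ≤ 2 * (s - 1) := by
  have _ := hn
  have h1 := R.hs
  have h2 : 1 < s := by nlinarith [mul_pos hτ hs]
  refine ⟨h2, ?_, ?_⟩
  · nlinarith [mul_pos hτ hs]
  · nlinarith [mul_pos hτ hs]

theorem s_neg_small (hs : s < 0) (hτ : 0 < τ) : -1 < s ∧ s + 1 ≤ τ := by
  have _ := hn
  have h1 := R.hs
  have h3 : 0 < τ * (-s) := mul_pos hτ (by linarith)
  have h2 : -1 < s := by nlinarith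
  refine ⟨h2, ?_⟩
  have h4 : (s + 1) * (1 - s) = τ * (-s) := by linear_combination -h1
  have h5 : (s + 1) * 1 ≤ (s + 1) * (1 - s) := by
    apply mul_le_mul_of_nonneg_left _ (by linarith)
    linarith
  have h6 : τ * (-s) ≤ τ * 1 := by
    apply mul_le_mul_of_nonneg_left _ hτ.le
    linarith
  linarith

theorem s_pos_large (hs : 0 < s) (hτ : τ ≤ -n ^ 2 / 2) : s < 1 / 10 ∧ s ^ 2 * n ≤ 1 / 4 := by
  have h1 := R.hs
  have h2 : n ^ 2 / 2 * s ≤ 1 := by nlinarith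
  have h3 : s * n ≤ 1 / 1000 := by nlinarith
  constructor
  · nlinarith
  · have : s ≤ 1 := by nlinarith
    nlinarith

theorem s_neg_large (hs : s < 0) (hτ : τ ≤ -n ^ 2 / 2) : s < τ ∧ -s ≤ -τ + 1 := by
  have h1 := R.hs
  have h0 : τ < 0 := by nlinarith
  have h2 : s < -1 := by nlinarith [mul_pos_of_neg_of_neg h0 hs]
  have h3 : s * (s - τ) = 1 := by linear_combination h1
  constructor
  · nlinarith
  · nlinarith

end bounds

end Pool.Agent.K6.H95.OC
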