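import Pool.Agent.K6.H95.OC.Main8
import Pool.Agent.T6.H7.SX.Sext
set_option autoImplicit false

/-!
The relations and units in the octic fields.
-/

namespace Pool.Agent.K6.H95.OC

open Pool.Agent.W367.KT Pool.Agent.T6.H7.SX
open Polynomial
open scoped WithZero

/-- the parametrisation: `τ = s - 1/s`, `u² = 1 - τ` and `(n - u)² = 1 + 4/τ` -/
structure RT {K : Type*} [Field K] (n s u τ : K) : Prop where
  s0 : s ≠ 0
  τ0 : τ ≠ 0
  hs : s ^ 2 - 1 = τ * s
  hu : u ^ 2 = 1 - τ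
  hw : ((n - u) ^ 2 - 1) * τ = 4

/-- the polynomial, as a function -/
def pf {K : Type*} [CommRing K] (n s : K) : K :=
  (s ^ 2 - 1) ^ 4 + 2 * n ^ 2 * s * (s ^ 2 - 1) ^ 3 + (n ^ 4 - 4 * n ^ 2 + 8) * s ^ 2 * (s ^ 2 - 1) ^ 2 -
    8 * n ^ 2 * s ^ 3 * (s ^ 2 - 1) + 16 * s ^ 4

/-- the element `τ` -/
def eτ {K : Type*} [Field K] (s : K) : K := s - s⁻¹

/-- the element `u` -/
def eu {K : Type*} [Field K] (n s : K) : K := (n ^ 2 - eτ s - 4 / eτ s) / (2 * n)

/-- the roots of `b (X - 1) = X² (X + 1)` -/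
def ev {K : Type*} [Field K] (n s : K) : Fin 3 → K :=
  ![s, (s + 1) * (-1 + (n - eu n s)) / 2, (s + 1) * (-1 - (n - eu n s)) / 2]

/-- the root of `kap s (X - 1) = X² (X + 1)` -/
def et {K : Type*} [Field K] (n s : K) : K := (eu n s - 1) / (1 - s)

/-- the parameter `b` -/
def eb {K : Type*} [Field K] (s : K) : K := s ^ 2 * (s + 1) / (s - 1)

section gen

variable {K : Type*} [Field K] {n s u τ : K}

theorem RT.pf (h : RT n s u τ) : pf n s = 0 := by
  have h1 := h.hs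
  have h2 := h.hu
  have h3 := h.hw
  unfold OC.pf
  rw [h1]
  have e1 : 2 * n * u * τ = n ^ 2 * τ - τ ^ 2 - 4 := by
    linear_combination τ * h2 - h3
  have e2 : (n ^ 2 * τ - τ ^ 2 - 4) ^ 2 = 4 * n ^ 2 * (1 - τ) * τ ^ 2 := by
    rw [← e1]
    linear_combination 4 * n ^ 2 * τ ^ 2 * h2
  linear_combination s ^ 4 * e2

theorem RT.of_pf (hn : n ≠ 0) (h2 : (2 : K) ≠ 0) (h : OC.pf n s = 0) : RT n s (eu n s) (eτ s) := by
  have hs0 : s ≠ 0 := by
    rintro rfl
    unfold OC.pf at h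
    norm_num at h
  have h4 : (4 : K) ≠ 0 := by
    have : (4 : K) = 2 * 2 := by norm_num
    rw [this]
    exact mul_ne_zero h2 h2
  have hsτ : s ^ 2 - 1 = eτ s * s := by
    unfold eτ
    rw [sub_mul, inv_mul_cancel₀ hs0]
    ring
  have hτ0 : eτ s ≠ 0 := by
    intro h0
    rw [h0, zero_mul] at hsτ
    unfold OC.pf at h
    rw [hsτ] at h
    have : (4 * s ^ 2) ^ 2 = 0 := by linear_combination h
    exact mul_ne_zero h4 (pow_ne_zero 2 hs0) (pow_eq_zero_iff (two_ne_zero) |>.1 this)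
  have hQ : eτ s ^ 4 + 2 * n ^ 2 * eτ s ^ 3 + (n ^ 4 - 4 * n ^ 2 + 8) * eτ s ^ 2 - 8 * n ^ 2 * eτ s + 16 = 0 := by
    have : s ^ 4 * (eτ s ^ 4 + 2 * n ^ 2 * eτ s ^ 3 + (n ^ 4 - 4 * n ^ 2 + 8) * eτ s ^ 2 - 8 * n ^ 2 * eτ s + 16) = 0 := by
      unfold OC.pf at h
      rw [hsτ] at h
      linear_combination h
    exact (mul_eq_zero.1 this).resolve_left (pow_ne_zero 4 hs0)
  refine ⟨hs0, hτ0, hsτ, ?_, ?_⟩
  · unfold eu
    field_simp
    ring_nf
    ring_nf at hQ
    linear_combination hQ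
  · unfold eu
    field_simp
    ring_nf
    ring_nf at hQ
    linear_combination hQ

theorem RT.eu_eq (h : RT n s u τ) (hn : n ≠ 0) (h2 : (2 : K) ≠ 0) : eτ s = τ ∧ eu n s = u := by
  have h1 := h.hs
  have h3 := h.hu
  have h4 := h.hw
  have hs0 := h.s0
  have e : eτ s = τ := by
    unfold eτ
    have : s * (s - s⁻¹) = s * τ := by
      rw [mul_sub, mul_inv_cancel₀ hs0]
      linear_combination h1
    exact mul_left_cancel₀ hs0 this
  refine ⟨e, ?_⟩
  unfold eu
  rw [e]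
  have := h.τ0
  field_simp
  linear_combination h4 - τ * h3

end gen

section rel

variable {K : Type*} [Field K] {n s : K} (hn : n ≠ 0) (h2 : (2 : K) ≠ 0) (h : pf n s = 0)
include hn h2 h

theorem s0 : s ≠ 0 := (RT.of_pf hn h2 h).s0

theorem sp0 : s + 1 ≠ 0 := by
  intro h0
  have h1 := (RT.of_pf hn h2 h).hs
  have h3 := (RT.of_pf hn h2 h).τ0
  have h4 := (RT.of_pf hn h2 h).s0
  have : eτ s * s = 0 := by rw [← h1]; linear_combination (s - 1) * h0
  exact mul_ne_zero h3 h4 this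

theorem sm0 : s - 1 ≠ 0 := by
  intro h0
  have h1 := (RT.of_pf hn h2 h).hs
  have h3 := (RT.of_pf hn h2 h).τ0
  have h4 := (RT.of_pf hn h2 h).s0
  have : eτ s * s = 0 := by rw [← h1]; linear_combination (s + 1) * h0
  exact mul_ne_zero h3 h4 this

theorem sm0' : 1 - s ≠ 0 := by
  intro h0
  apply sm0 hn h2 h
  linear_combination -h0

theorem eb0 : eb s ≠ 0 := by
  unfold eb
  exact div_ne_zero (mul_ne_zero (pow_ne_zero 2 (s0 hn h2 h)) (sp0 hn h2 h)) (sm0 hn h2 h)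

/-- `(w² - 1) (s² - 1) = 4 s` -/
theorem w_rel : ((n - eu n s) ^ 2 - 1) * (s ^ 2 - 1) = 4 * s := by
  have R := RT.of_pf hn h2 h
  rw [R.hs]
  linear_combination s * R.hw

/-- `u² s = s - (s² - 1)` -/
theorem u_rel : (eu n s ^ 2 - 1) * s = -(s ^ 2 - 1) := by
  have R := RT.of_pf hn h2 h
  rw [R.hs]
  linear_combination s * R.hu

theorem ev_sum : ev n s 0 + ev n s 1 + ev n s 2 = -1 := by
  show s + (s + 1) * (-1 + (n - eu n s)) / 2 + (s + 1) * (-1 - (n - eu n s)) / 2 = -1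
  field_simp
  ring

theorem ev_prod : ev n s 0 * ev n s 1 * ev n s 2 = -eb s := by
  have hw := w_rel hn h2 h
  have hm := sm0 hn h2 h
  show s * ((s + 1) * (-1 + (n - eu n s)) / 2) * ((s + 1) * (-1 - (n - eu n s)) / 2) = _
  unfold eb
  generalize eu n s = u at *
  field_simp
  linear_combination -(s + 1) * s * hw

theorem ev_inv : ev n s 0 * ev n s 1 + ev n s 0 * ev n s 2 + ev n s 1 * ev n s 2 =
    ev n s 0 * ev n s 1 * ev n s 2 := by
  have hw := w_rel hn h2 h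
  have hm := sm0 hn h2 h
  show s * ((s + 1) * (-1 + (n - eu n s)) / 2) + s * ((s + 1) * (-1 - (n - eu n s)) / 2) +
    ((s + 1) * (-1 + (n - eu n s)) / 2) * ((s + 1) * (-1 - (n - eu n s)) / 2) =
    s * ((s + 1) * (-1 + (n - eu n s)) / 2) * ((s + 1) * (-1 - (n - eu n s)) / 2)
  generalize eu n s = u at *
  field_simp
  linear_combination (s + 1) * hw

theorem ev_rel (j : Fin 3) : eb s * (ev n s j - 1) = ev n s j ^ 2 * (ev n s j + 1) := by
  have h1 := ev_sum hn h2 h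
  have h3 := ev_prod hn h2 h
  have h4 := ev_inv hn h2 h
  have e : eb s = -(ev n s 0 * ev n s 1 * ev n s 2) := by rw [h3, neg_neg]
  rw [e]
  fin_cases j
  · show -(ev n s 0 * ev n s 1 * ev n s 2) * (ev n s 0 - 1) = ev n s 0 ^ 2 * (ev n s 0 + 1)
    linear_combination ev n s 0 * h4 - ev n s 0 ^ 2 * h1
  · show -(ev n s 0 * ev n s 1 * ev n s 2) * (ev n s 1 - 1) = ev n s 1 ^ 2 * (ev n s 1 + 1)
    linear_combination ev n s 1 * h4 - ev n s 1 ^ 2 * h1
  · show -(ev n s 0 * ev n s 1 * ev n s 2) * (ev n s 2 - 1) = ev n s 2 ^ 2 * (ev n s 2 + 1)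
    linear_combination ev n s 2 * h4 - ev n s 2 ^ 2 * h1

theorem ev0 (j : Fin 3) : ev n s j ≠ 0 := by
  intro h0
  have h3 := ev_prod hn h2 h
  have h5 := eb0 hn h2 h
  apply h5
  rw [← neg_eq_zero, ← h3]
  fin_cases j
  · have : ev n s 0 = 0 := h0
    rw [this]; ring
  · have : ev n s 1 = 0 := h0
    rw [this]; ring
  · have : ev n s 2 = 0 := h0
    rw [this]; ring

theorem et_rel : kap (ev n s 0) * (et n s - 1) = et n s ^ 2 * (et n s + 1) := by
  have hu := u_rel hn h2 h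
  have hm := sm0 hn h2 h
  have hm' := sm0' hn h2 h
  have h0 := s0 hn h2 h
  show kap s * _ = _
  unfold kap et
  generalize eu n s = u at *
  have e1 : (u - 1) / (1 - s) - 1 = (u + s - 2) / (1 - s) := by field_simp; ring
  have e2 : (u - 1) / (1 - s) + 1 = (u - s) / (1 - s) := by field_simp; ring
  have e3 : ((s + 1) / (s - 1)) ^ 2 = (s + 1) ^ 2 / (1 - s) ^ 2 := by
    rw [div_pow]
    congr 1
    ring
  rw [e1, e2, e3]
  field_simp
  linear_combination -(u - s - 2) * hu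

theorem et0 : et n s ≠ 0 := by
  intro h0
  have h1 := et_rel hn h2 h
  rw [h0] at h1
  have h3 : kap (ev n s 0) = 0 := by linear_combination -h1
  unfold kap at h3
  rw [div_eq_zero_iff] at h3
  rcases h3 with h3 | h3
  · have h4 := pow_eq_zero_iff (two_ne_zero) |>.1 h3
    rw [div_eq_zero_iff] at h4
    rcases h4 with h4 | h4
    · exact sp0 hn h2 h h4
    · exact sm0 hn h2 h h4
  · exact s0 hn h2 h h3

end rel

section val

variable {K : Type*} [Field K]

theorem v_quad (w : Valuation K ℤᵐ⁰) {a c x : K} (ha : w a ≤ 1) (hc : w c = 1) (h : x ^ 2 + a * x + c = 0) :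
    w x = 1 := by
  have e : x * (x + a) = -c := by linear_combination h
  have e1 : w x * w (x + a) = 1 := by rw [← map_mul, e, Valuation.map_neg, hc]
  have hx : w x ≤ 1 := by
    by_contra hcon
    have hgt : 1 < w x := not_le.1 hcon
    have h6 : w (x + a) = w x := Valuation.map_add_eq_of_lt_left w (ha.trans_lt hgt)
    rw [h6] at e1
    have h7 : 1 < w x * w x := one_lt_mul'' hgt hgt
    exact h7.ne' e1
  have hxa : w (x + a) ≤ 1 := Valuation.map_add_le w hx ha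
  exact (val_one_of_mul hx hxa (by rw [map_mul]; exact e1)).1

theorem v_int (w : Valuation K ℤᵐ⁰) (n : ℤ) : w (n : K) ≤ 1 :=
  val_le_of_int w (by
    have := isIntegral_algebraMap (R := ℤ) (A := K) (x := n)
    simpa using this)

theorem v_ofsq (w : Valuation K ℤᵐ⁰) {x : K} (h : w (x ^ 2) ≤ 1) : w x ≤ 1 := by
  by_contra hcon
  have hgt : 1 < w x := not_le.1 hcon
  rw [map_pow, pow_two] at h
  exact absurd (one_lt_mul'' hgt hgt) (not_lt.2 h)

theorem v_sub (w : Valuation K ℤᵐ⁰) {x y : K} (hx : w x ≤ 1) (hy : w y ≤ 1) : w (x - y) ≤ 1 :=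
  Valuation.map_sub_le w hx hy

theorem v_add (w : Valuation K ℤᵐ⁰) {x y : K} (hx : w x ≤ 1) (hy : w y ≤ 1) : w (x + y) ≤ 1 :=
  Valuation.map_add_le w hx hy

variable (w : Valuation K ℤᵐ⁰) {n : ℤ} {s : K} (hn : (n : K) ≠ 0) (h2 : (2 : K) ≠ 0) (h : pf (n : K) s = 0)
include hn h2 h

theorem v_tau : w (eτ s) ≤ 1 := by
  have R := RT.of_pf hn h2 h
  have e1 : 2 * (n : K) * eu (n : K) s * eτ s = n ^ 2 * eτ s - eτ s ^ 2 - 4 := by
    linear_combination eτ s * R.hu - R.hw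
  have e2 : ((n : K) ^ 2 * eτ s - eτ s ^ 2 - 4) ^ 2 = 4 * n ^ 2 * (1 - eτ s) * eτ s ^ 2 := by
    rw [← e1]
    linear_combination 4 * (n : K) ^ 2 * eτ s ^ 2 * R.hu
  apply val_le_of_int w
  refine ⟨X ^ 4 + C (2 * n ^ 2) * X ^ 3 + C (n ^ 4 - 4 * n ^ 2 + 8) * X ^ 2 - C (8 * n ^ 2) * X + 16, by monicity!, ?_⟩
  simp only [eval₂_add, eval₂_sub, eval₂_mul, eval₂_pow, eval₂_X, eval₂_C, eval₂_ofNat]
  simp only [algebraMap_int_eq, eq_intCast, Int.cast_mul, Int.cast_pow, Int.cast_ofNat, Int.cast_add, Int.cast_sub]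
  linear_combination e2

theorem v_s : w s = 1 := by
  have R := RT.of_pf hn h2 h
  have ht := v_tau w hn h2 h
  refine v_quad w (a := -eτ s) (c := -1) (by rw [Valuation.map_neg]; exact ht)
    (by rw [Valuation.map_neg, map_one]) ?_
  linear_combination R.hs

theorem v_u : w (eu (n : K) s) ≤ 1 := by
  have R := RT.of_pf hn h2 h
  have ht := v_tau w hn h2 h
  apply v_ofsq
  rw [R.hu]
  exact v_sub w (map_one w).le ht

theorem v_tst : w ((1 + s) / (1 - s)) = 1 := by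
  have hw := w_rel hn h2 h
  have hm' := sm0' hn h2 h
  have hW : w ((n : K) - eu (n : K) s) ≤ 1 := v_sub w (v_int w n) (v_u w hn h2 h)
  have hW2 : w (((n : K) - eu (n : K) s) ^ 2) ≤ 1 := by
    rw [map_pow]
    exact pow_le_one₀ zero_le hW
  refine v_quad w (a := ((n : K) - eu (n : K) s) ^ 2 - 1) (c := -1) (v_sub w hW2 (map_one w).le)
    (by rw [Valuation.map_neg, map_one]) ?_
  generalize eu (n : K) s = u at *
  field_simp
  linear_combination -hw

theorem v_eb : w (eb s) = 1 := by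
  have hm := sm0 hn h2 h
  have hm' := sm0' hn h2 h
  have e : eb s = -(s ^ 2 * ((1 + s) / (1 - s))) := by
    unfold eb
    field_simp
    ring
  rw [e, Valuation.map_neg, map_mul, map_pow, v_s w hn h2 h, v_tst w hn h2 h, one_pow, one_mul]

theorem v_ev (j : Fin 3) : w (ev (n : K) s j) = 1 := by
  have hs := v_s w hn h2 h
  have ht := v_tst w hn h2 h
  have hm' := sm0' hn h2 h
  have hw := w_rel hn h2 h
  have h1s : w (1 + s) ≤ 1 := v_add w (map_one w).le hs.le
  have hst : w (s * ((1 + s) / (1 - s))) = 1 := by rw [map_mul, hs, ht, one_mul]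
  fin_cases j
  · exact hs
  · refine v_quad w (a := 1 + s) (c := s * ((1 + s) / (1 - s))) h1s hst ?_
    show ((s + 1) * (-1 + ((n : K) - eu (n : K) s)) / 2) ^ 2 + (1 + s) * ((s + 1) * (-1 + ((n : K) - eu (n : K) s)) / 2) +
      s * ((1 + s) / (1 - s)) = 0
    generalize eu (n : K) s = u at *
    field_simp
    linear_combination -(s + 1) * hw
  · refine v_quad w (a := 1 + s) (c := s * ((1 + s) / (1 - s))) h1s hst ?_
    show ((s + 1) * (-1 - ((n : K) - eu (n : K) s)) / 2) ^ 2 + (1 + s) * ((s + 1) * (-1 - ((n : K) - eu (n : K) s)) / 2) +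
      s * ((1 + s) / (1 - s)) = 0
    generalize eu (n : K) s = u at *
    field_simp
    linear_combination -(s + 1) * hw

theorem v_et : w (et (n : K) s) = 1 := by
  have hs := v_s w hn h2 h
  have hs0 := s0 hn h2 h
  have ht := v_tst w hn h2 h
  have hm' := sm0' hn h2 h
  have hu := u_rel hn h2 h
  refine v_quad w (a := 1 + (1 + s) / (1 - s)) (c := -((1 + s) / (1 - s) / s)) (v_add w (map_one w).le ht.le)
    (by rw [Valuation.map_neg, map_div₀, ht, hs, div_one]) ?_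
  unfold et
  generalize eu (n : K) s = u at *
  field_simp
  linear_combination hu

omit hn in
theorem v_kap {b t : K} (ht : b * (t - 1) = t ^ 2 * (t + 1)) (ht0 : t ≠ 0) (hb : w b = 1)
    (hwt : w t = 1) : w (kap t) = 1 := by
  have _ := h
  rw [kap_eq ht (sub_one_ne h2 ht) ht0, map_div₀, map_pow, map_pow, hb, hwt, one_pow, one_pow, div_one]

end val

end Pool.Agent.K6.H95.OC
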