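import Pool.Agent.K6.H95.OC.Lvl2
set_option autoImplicit false

/-!
The loops and the rows of the regulator matrix.
-/

namespace Pool.Agent.K6.H95.OC

open Pool.Agent.W367.KT Pool.Agent.T6.H7.SX
open Set MeasureTheory intervalIntegral

theorem lp0 {K : Type*} [Field K] {b : K} (hb : b ≠ 0) : LP (cst (tate b)) b (xF b) (yF b) :=
  ⟨ly_F, tr_xF hb, hb⟩

theorem map_kap {K L : Type*} [Field K] [Field L] (f : K →+* L) (s : K) : f (kap s) = kap (f s) := by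
  unfold kap
  simp only [map_div₀, map_sub, map_add, map_pow, map_one]

theorem comb {p l L q T δ : ℝ} {e : ℤ} (h : |p - 2 * Real.pi * (e * l)| ≤ T) (hl : |l - q * L| ≤ δ) {C v : ℝ}
    (hv : v = 2 * e * q) (he : |(e:ℝ)| ≤ 4) (hC : T + 2 * Real.pi * 4 * δ ≤ C) : |p - v * (Real.pi * L)| ≤ C := by
  have e1 : p - v * (Real.pi * L) = (p - 2 * Real.pi * (e * l)) + 2 * Real.pi * e * (l - q * L) := by
    rw [hv]; ring
  rw [e1]
  refine (abs_add_le _ _).trans (le_trans ?_ hC)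
  gcongr
  rw [abs_mul, abs_mul, abs_mul, abs_of_pos Real.pi_pos, abs_of_pos (by norm_num : (0:ℝ) < 2)]
  gcongr

theorem log_two_steps {l1 l L q r : ℝ} {δ : ℝ} (h1 : |l1 - q * L| ≤ δ) (h2 : |l - r * l1| ≤ 1) (hr : |r| ≤ 2) :
    |l - (r * q) * L| ≤ 1 + 2 * δ := by
  have e : l - (r * q) * L = (l - r * l1) + r * (l1 - q * L) := by ring
  rw [e]
  refine (abs_add_le _ _).trans (add_le_add h2 ?_)
  rw [abs_mul]
  have := abs_nonneg r
  have := abs_nonneg (l1 - q * L)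
  nlinarith

theorem I_kap {k s : ℂ} (hrel : k * (s - 1) = s ^ 2 * (s + 1)) (hs : ‖s‖ ≤ 10) (hk : 10 ^ 18 ≤ ‖k‖) :
    ‖k‖ ≤ ‖kap s‖ := by
  have h0 := I_s0 hrel hs hk
  have h1 := sub_one_ne two_ne_zero hrel
  have hp := norm_pos_iff.2 h0
  rw [kap_eq hrel h1 h0, norm_div, norm_pow, norm_pow, le_div_iff₀ (by positivity)]
  have h2 : ‖s‖ ^ 5 ≤ 10 ^ 5 := by gcongr
  have h3 : ‖s‖ ^ 5 ≤ ‖k‖ := by
    norm_num at h2 hk
    linarith
  nlinarith

section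

variable {K : Type*} [Field K]

theorem rel_map {L : Type*} [Field L] (f : K →+* L) {k s : K} (hrel : k * (s - 1) = s ^ 2 * (s + 1)) :
    f k * (f s - 1) = f s ^ 2 * (f s + 1) := by
  have := congrArg f hrel
  simpa only [map_mul, map_sub, map_add, map_pow, map_one] using this

end

theorem big_step {a v : ℝ} (h : a ≤ 8 * v ^ 2) (ha : 10 ^ 40 ≤ a) (hv : 0 ≤ v) : 10 ^ 18 ≤ v := by
  by_contra hcon
  push Not at hcon
  have h3 : v ^ 2 ≤ (10 ^ 18) ^ 2 := by gcongr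
  norm_num at h3 ha
  linarith

/-- the bounds -/
noncomputable def CT (B0 : ℝ) : ℝ :=
  |TB (2 * 1) (3 * J 1 B0)| + |TB 1 (BII 1 (1 / 10) B0)| + |TB (2 * (2 * 1)) (3 * J (2 * 1) (3 * J 1 B0))| +
  |TB (2 * 1) (BII (2 * 1) ((1 / 10) ^ 2 / 2) (3 * J 1 B0))| + |TB 1 (BII 1 (1 / 10 / 2) (BII 1 (1 / 10) B0))| +
  100 * Real.pi

theorem ct_aux (a b c d e : ℝ) {p : ℝ} (hp : 0 < p) :
    a + 2 * p * 4 * 1 ≤ |a| + |b| + |c| + |d| + |e| + 100 * p ∧
    b + 2 * p * 4 * 1 ≤ |a| + |b| + |c| + |d| + |e| + 100 * p ∧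
    c + 2 * p * 4 * (1 + 2 * 1) ≤ |a| + |b| + |c| + |d| + |e| + 100 * p ∧
    d + 2 * p * 4 * (1 + 2 * 1) ≤ |a| + |b| + |c| + |d| + |e| + 100 * p ∧
    e + 2 * p * 4 * (1 + 2 * 1) ≤ |a| + |b| + |c| + |d| + |e| + 100 * p := by
  have a1 := le_abs_self a
  have b1 := le_abs_self b
  have c1 := le_abs_self c
  have d1 := le_abs_self d
  have e1 := le_abs_self e
  have a2 := abs_nonneg a
  have b2 := abs_nonneg b
  have c2 := abs_nonneg c
  have d2 := abs_nonneg d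
  have e2 := abs_nonneg e
  refine ⟨?_, ?_, ?_, ?_, ?_⟩ <;> linarith

theorem ct_bd (B0 : ℝ) :
    TB (2 * 1) (3 * J 1 B0) + 2 * Real.pi * 4 * 1 ≤ CT B0 ∧
    TB 1 (BII 1 (1 / 10) B0) + 2 * Real.pi * 4 * 1 ≤ CT B0 ∧
    TB (2 * (2 * 1)) (3 * J (2 * 1) (3 * J 1 B0)) + 2 * Real.pi * 4 * (1 + 2 * 1) ≤ CT B0 ∧
    TB (2 * 1) (BII (2 * 1) ((1 / 10) ^ 2 / 2) (3 * J 1 B0)) + 2 * Real.pi * 4 * (1 + 2 * 1) ≤ CT B0 ∧
    TB 1 (BII 1 (1 / 10 / 2) (BII 1 (1 / 10) B0)) + 2 * Real.pi * 4 * (1 + 2 * 1) ≤ CT B0 :=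
  ct_aux _ _ _ _ _ Real.pi_pos

theorem rowA2 : ∃ C : ℝ, ∀ {K : Type} [Field K] [NumberField K] {b : K} (hb : b ≠ 0) (σ : K →+* ℂ),
    10 ^ 40 ≤ ‖σ b‖ → ∃ γ : Loop (tate b).toAffine.FunctionField, (∀ t c, γ.e t (cst _ c) = σ c) ∧
      ∀ (s : K) (hs : s ≠ 0) (hrel : b * (s - 1) = s ^ 2 * (s + 1)),
      (‖σ s‖ ≤ 10 →
        |γ.pair (uP (lp0 hb).ncx hs) (uP (lp0 hb).ncy hs) - (-8) * (Real.pi * Real.log ‖σ b‖)| ≤ C ∧
        |γ.pair (uZ (lp0 hb).ncx hs) (uZ (lp0 hb).nc2 hs) - 0 * (Real.pi * Real.log ‖σ b‖)| ≤ C ∧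
        ∀ (t : K) (ht : t ≠ 0), kap s * (t - 1) = t ^ 2 * (t + 1) →
          (‖σ t‖ ≤ 10 →
            |γ.pair (uP ((lp0 hb).phi two_ne_zero hs hrel).ncx ht) (uP ((lp0 hb).phi two_ne_zero hs hrel).ncy ht) -
              (-32) * (Real.pi * Real.log ‖σ b‖)| ≤ C ∧
            |γ.pair (uZ ((lp0 hb).phi two_ne_zero hs hrel).ncx ht) (uZ ((lp0 hb).phi two_ne_zero hs hrel).nc2 ht) -
              0 * (Real.pi * Real.log ‖σ b‖)| ≤ C) ∧
          (1000 ≤ ‖σ t‖ →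
            |γ.pair (uP ((lp0 hb).phi two_ne_zero hs hrel).ncx ht) (uP ((lp0 hb).phi two_ne_zero hs hrel).ncy ht) -
              0 * (Real.pi * Real.log ‖σ b‖)| ≤ C ∧
            |γ.pair (uZ ((lp0 hb).phi two_ne_zero hs hrel).ncx ht) (uZ ((lp0 hb).phi two_ne_zero hs hrel).nc2 ht) -
              4 * (Real.pi * Real.log ‖σ b‖)| ≤ C)) ∧
      (1000 ≤ ‖σ s‖ →
        |γ.pair (uP (lp0 hb).ncx hs) (uP (lp0 hb).ncy hs) - 0 * (Real.pi * Real.log ‖σ b‖)| ≤ C ∧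
        |γ.pair (uZ (lp0 hb).ncx hs) (uZ (lp0 hb).nc2 hs) - 1 * (Real.pi * Real.log ‖σ b‖)| ≤ C ∧
        ∀ (t : K) (ht : t ≠ 0), kap s * (t - 1) = t ^ 2 * (t + 1) → 1000 ≤ ‖σ (-1 / t)‖ →
            |γ.pair (uP ((lp0 hb).phi two_ne_zero hs hrel).ncx ht) (uP ((lp0 hb).phi two_ne_zero hs hrel).ncy ht) -
              (1 / 2) * (Real.pi * Real.log ‖σ b‖)| ≤ C ∧
            |γ.pair (uZ ((lp0 hb).phi two_ne_zero hs hrel).ncx ht) (uZ ((lp0 hb).phi two_ne_zero hs hrel).nc2 ht) -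
              0 * (Real.pi * Real.log ‖σ b‖)| ≤ C) := by
  obtain ⟨B0, hB0⟩ := base_neck
  obtain ⟨ct1, ct2, ct3, ct4, ct5⟩ := ct_bd B0
  refine ⟨CT B0, fun {K} _ _ {b} hb σ hk => ?_⟩
  obtain ⟨R, hR1, hR2, hRT⟩ := exists_transcendental_between (r := 1 / 10) (s := 1 / 9) (by norm_num)
  have hk18 : 10 ^ 18 ≤ ‖σ b‖ := le_trans (by norm_num) hk
  obtain ⟨y, N⟩ := hB0 R (σ b) hR1 hR2 (le_trans (by norm_num) hk)
  obtain ⟨γ, g1, g2, g3⟩ := exists_loop_ly hb σ (circ R) y (CC.circ R) (N.ry.cc N.hR)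
    (transcendental_circ N.hR hRT) N.y_ne N.ly
  have E : EV γ (xF b) (yF b) (circ R) y := ⟨g2, g3⟩
  have h2 : (2 : K) ≠ 0 := two_ne_zero
  refine ⟨γ, g1, fun s hs hrel => ⟨fun h10 => ?_, fun h1000 => ?_⟩⟩
  · have hrel' := rel_map σ hrel
    obtain ⟨v1, v2⟩ := lvlA_I g1 h2 (lp0 hb) N E hk18 (by norm_num) hs hrel hrel' h10
    have l1 := I_log hrel' h10 hk18
    refine ⟨comb v1 l1 (by push_cast; ring) (by norm_num) ?_, comb v2 l1 (by push_cast; ring) (by norm_num) ?_, ?_⟩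
    · exact ct1
    · exact ct1
    intro t ht hrelt
    have hrelt' := rel_map σ hrelt
    have N1 := N.stepI hrel' h10 hk18 (by norm_num)
    have E1 := E.stepI g1 s
    have hk1 := (hk18.trans (I_kap hrel' h10 hk18))
    rw [← map_kap σ s] at N1 hk1 l1
    have P' := (lp0 hb).phi h2 hs hrel
    constructor
    · intro ht10
      obtain ⟨u1, u2⟩ := lvlA_I g1 h2 P' N1 E1 hk1 (by norm_num) ht hrelt hrelt' ht10
      have l2 := log_two_steps l1 (I_log hrelt' ht10 hk1) (by norm_num)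
      refine ⟨comb u1 l2 (by push_cast; ring) (by norm_num) ?_, comb u2 l2 (by push_cast; ring) (by norm_num) ?_⟩
      · exact ct3
      · exact ct3
    · intro ht1000
      obtain ⟨u1, u2⟩ := lvlA_II g1 h2 P' N1 E1 hk1 (by norm_num) (by norm_num) ht hrelt hrelt' ht1000
      have l2 := log_two_steps l1 (II_log hrelt' ht1000 hk1) (by norm_num)
      refine ⟨comb u1 l2 (by push_cast; ring) (by norm_num) ?_, comb u2 l2 (by push_cast; ring) (by norm_num) ?_⟩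
      · exact ct4
      · exact ct4
  · have hrel' := rel_map σ hrel
    obtain ⟨v1, v2⟩ := lvlA_II g1 h2 (lp0 hb) N E hk18 (by norm_num) (by norm_num) hs hrel hrel' h1000
    have l1 := II_log hrel' h1000 hk18
    refine ⟨comb v1 l1 (by push_cast; ring) (by norm_num) ?_, comb v2 l1 (by push_cast; ring) (by norm_num) ?_, ?_⟩
    · exact ct2
    · exact ct2
    intro t ht hrelt ht1000
    have hk1 : 10 ^ 18 ≤ ‖-1 / kap (σ s)‖ := by
      exact big_step (II_kap hrel' h1000 hk18) hk (norm_nonneg _)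
    have P' := (lp0 hb).phi h2 hs hrel
    have hrelt' : -1 / kap (σ s) * (σ (-1 / t) - 1) = σ (-1 / t) ^ 2 * (σ (-1 / t) + 1) := by
      have h := rel_map σ (rel_hat P'.k0 ht hrelt)
      rw [map_div₀ σ (-1) (kap s), map_neg, map_one, map_kap] at h
      exact h
    obtain ⟨u1, u2⟩ := lvlA_II_II g1 h2 (lp0 hb) N E hk18 (by norm_num) (by norm_num) hs hrel hrel' h1000 hk1 ht
      hrelt hrelt' ht1000
    have l2 := log_two_steps l1 (II_log hrelt' ht1000 hk1) (by norm_num)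
    refine ⟨comb u1 l2 (by push_cast; ring) (by norm_num) ?_, comb u2 l2 (by push_cast; ring) (by norm_num) ?_⟩
    · exact ct5
    · exact ct5

theorem rowB2 : ∃ C : ℝ, ∀ {K : Type} [Field K] [NumberField K] {b : K} (hb : b ≠ 0) (σ : K →+* ℂ),
    10 ^ 40 ≤ ‖σ (-1 / b)‖ → ∃ γ : Loop (tate b).toAffine.FunctionField, (∀ t c, γ.e t (cst _ c) = σ c) ∧
      ∀ (s : K) (hs : s ≠ 0) (hrel : b * (s - 1) = s ^ 2 * (s + 1)),
      (‖σ (-1 / s)‖ ≤ 10 →
        |γ.pair (uP (lp0 hb).ncx hs) (uP (lp0 hb).ncy hs) - 0 * (Real.pi * Real.log ‖σ (-1 / b)‖)| ≤ C ∧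
        |γ.pair (uZ (lp0 hb).ncx hs) (uZ (lp0 hb).nc2 hs) - (-8) * (Real.pi * Real.log ‖σ (-1 / b)‖)| ≤ C ∧
        ∀ (t : K) (ht : t ≠ 0), kap s * (t - 1) = t ^ 2 * (t + 1) →
          (‖σ (-1 / t)‖ ≤ 10 →
            |γ.pair (uP ((lp0 hb).phi two_ne_zero hs hrel).ncx ht) (uP ((lp0 hb).phi two_ne_zero hs hrel).ncy ht) -
              0 * (Real.pi * Real.log ‖σ (-1 / b)‖)| ≤ C ∧
            |γ.pair (uZ ((lp0 hb).phi two_ne_zero hs hrel).ncx ht) (uZ ((lp0 hb).phi two_ne_zero hs hrel).nc2 ht) -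
              (-32) * (Real.pi * Real.log ‖σ (-1 / b)‖)| ≤ C) ∧
          (1000 ≤ ‖σ (-1 / t)‖ →
            |γ.pair (uP ((lp0 hb).phi two_ne_zero hs hrel).ncx ht) (uP ((lp0 hb).phi two_ne_zero hs hrel).ncy ht) -
              (-4) * (Real.pi * Real.log ‖σ (-1 / b)‖)| ≤ C ∧
            |γ.pair (uZ ((lp0 hb).phi two_ne_zero hs hrel).ncx ht) (uZ ((lp0 hb).phi two_ne_zero hs hrel).nc2 ht) -
              0 * (Real.pi * Real.log ‖σ (-1 / b)‖)| ≤ C)) ∧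
      (1000 ≤ ‖σ (-1 / s)‖ →
        |γ.pair (uP (lp0 hb).ncx hs) (uP (lp0 hb).ncy hs) - (-1) * (Real.pi * Real.log ‖σ (-1 / b)‖)| ≤ C ∧
        |γ.pair (uZ (lp0 hb).ncx hs) (uZ (lp0 hb).nc2 hs) - 0 * (Real.pi * Real.log ‖σ (-1 / b)‖)| ≤ C ∧
        ∀ (t : K) (ht : t ≠ 0), kap s * (t - 1) = t ^ 2 * (t + 1) → 1000 ≤ ‖σ t‖ →
            |γ.pair (uP ((lp0 hb).phi two_ne_zero hs hrel).ncx ht) (uP ((lp0 hb).phi two_ne_zero hs hrel).ncy ht) -
              0 * (Real.pi * Real.log ‖σ (-1 / b)‖)| ≤ C ∧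
            |γ.pair (uZ ((lp0 hb).phi two_ne_zero hs hrel).ncx ht) (uZ ((lp0 hb).phi two_ne_zero hs hrel).nc2 ht) -
              (1 / 2) * (Real.pi * Real.log ‖σ (-1 / b)‖)| ≤ C) := by
  obtain ⟨B0, hB0⟩ := base_neck
  obtain ⟨ct1, ct2, ct3, ct4, ct5⟩ := ct_bd B0
  refine ⟨CT B0, fun {K} _ _ {b} hb σ hk => ?_⟩
  obtain ⟨R, hR1, hR2, hRT⟩ := exists_transcendental_between (r := 1 / 10) (s := 1 / 9) (by norm_num)
  have hk18 : 10 ^ 18 ≤ ‖σ (-1 / b)‖ := le_trans (by norm_num) hk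
  obtain ⟨y', N⟩ := hB0 R (σ (-1 / b)) hR1 hR2 (le_trans (by norm_num) hk)
  have hk0 : σ (-1 / b) ≠ 0 := N.k0
  have hT := transcendental_circ N.hR hRT
  set x3 : ℝ → ℂ := fun t => (1 + circ R t + y' t) / (circ R t * y' t) with hx3
  have hne := N.ne
  have h3 : ∀ t, 1 + x3 t ≠ 0 := fun t => by
    simp only [hx3]
    rw [x3_add_one (N.x_ne t) (N.y_ne t)]
    exact div_ne_zero (mul_ne_zero (hne t).1 (hne t).2.1) (mul_ne_zero (N.x_ne t) (N.y_ne t))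
  have h30 : ∀ t, x3 t ≠ 0 := fun t =>
    div_ne_zero (hne t).2.2 (mul_ne_zero (N.x_ne t) (N.y_ne t))
  have cx := N.rx.cc N.hR
  have cx3 : CC x3 := N.rep_x3.cc N.hR
  have cZx : CC (fun t => Zz (circ R t)) := N.rep_zx.cc N.hR
  have cZ3 : CC (fun t => Zz (x3 t)) := N.rep_zx3.cc N.hR
  have hbb : -1 / σ (-1 / b) = σ b := by
    rw [map_div₀, map_neg, map_one]
    have : σ b ≠ 0 := (_root_.map_ne_zero σ).2 hb
    field_simp
  obtain ⟨γ, g1, g2, g3⟩ := exists_loop_ly hb σ (fun t => Zz (circ R t)) (fun t => Zz (x3 t)) cZx cZ3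
    (fun t halg => hT t (by
      have h5 : IsAlgebraic ℚ (-Zz (circ R t) * (1 + Zz (circ R t))⁻¹) :=
        halg.neg.mul (isAlgebraic_one.add halg).inv
      have h6 : -Zz (circ R t) * (1 + Zz (circ R t))⁻¹ = circ R t := by
        rw [← div_eq_mul_inv]
        exact Zz_Zz (hne t).1
      rwa [h6] at h5))
    (fun t => Zz_ne_zero (h30 t) (h3 t)) (fun t => by
      have h5 := (N.ly t).zz3 hk0 (N.x_ne t) (N.y_ne t)
      rw [hbb] at h5
      exact h5)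
  have E : EV γ (Zz (xF b)) (Zz ((1 + yF b) / xF b)) (circ R) y' := by
    constructor
    · intro t
      rw [map_Zz, g2]; exact Zz_Zz (hne t).1
    · intro t
      rw [map_Zz, map_div₀, map_add, map_one, g2, g3]
      have h5 := zz3_back (N.x_ne t) (N.y_ne t) (hne t).1 (hne t).2.1
      have h6 : (1 + Zz (x3 t)) / Zz (circ R t) = Zz (y' t) := h5
      rw [h6, Zz_Zz (hne t).2.1]
  have h2 : (2 : K) ≠ 0 := two_ne_zero
  refine ⟨γ, g1, fun s hs hrel => ⟨fun h10 => ?_, fun h1000 => ?_⟩⟩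
  · have hrel' := rel_map σ (rel_hat hb hs hrel)
    obtain ⟨v1, v2⟩ := lvlB_I g1 h2 (lp0 hb) N E hk18 (by norm_num) hs hrel hrel' h10
    have l1 := I_log hrel' h10 hk18
    refine ⟨comb v1 l1 (by push_cast; ring) (by norm_num) ?_, comb v2 l1 (by push_cast; ring) (by norm_num) ?_, ?_⟩
    · exact ct1
    · exact ct1
    intro t ht hrelt
    have N1 := N.stepI hrel' h10 hk18 (by norm_num)
    have E1 := E.stepI g1 (-1 / s)
    have hk1 := (hk18.trans (I_kap hrel' h10 hk18))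
    have P' := (lp0 hb).phi h2 hs hrel
    have hrelt' := rel_map σ (rel_hat P'.k0 ht hrelt)
    rw [← map_kap σ (-1 / s), kap_hat hs] at N1 hk1 l1
    have E1' : EV γ (Zz (Phi (cst (tate b) s) (xF b)))
        (Zz ((1 + Phi (cst (tate b) s) (yF b)) / Phi (cst (tate b) s) (xF b)))
        (fun t => Phi (σ (-1 / s)) (circ R t)) (fun t => Phi (σ (-1 / s)) (y' t)) := by
      rw [(lp0 hb).phi_shift hs hrel, (lp0 hb).ncx.zphi_zz hs, (lp0 hb).nc2.zphi_zz hs]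
      exact E1
    constructor
    · intro ht10
      obtain ⟨u1, u2⟩ := lvlB_I g1 h2 P' N1 E1' hk1 (by norm_num) ht hrelt hrelt' ht10
      have l2 := log_two_steps l1 (I_log hrelt' ht10 hk1) (by norm_num)
      refine ⟨comb u1 l2 (by push_cast; ring) (by norm_num) ?_, comb u2 l2 (by push_cast; ring) (by norm_num) ?_⟩
      · exact ct3
      · exact ct3
    · intro ht1000
      obtain ⟨u1, u2⟩ := lvlB_II g1 h2 P' N1 E1' hk1 (by norm_num) (by norm_num) ht hrelt hrelt' ht1000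
      have l2 := log_two_steps l1 (II_log hrelt' ht1000 hk1) (by norm_num)
      refine ⟨comb u1 l2 (by push_cast; ring) (by norm_num) ?_, comb u2 l2 (by push_cast; ring) (by norm_num) ?_⟩
      · exact ct4
      · exact ct4
  · have hrel' := rel_map σ (rel_hat hb hs hrel)
    obtain ⟨v1, v2⟩ := lvlB_II g1 h2 (lp0 hb) N E hk18 (by norm_num) (by norm_num) hs hrel hrel' h1000
    have l1 := II_log hrel' h1000 hk18
    refine ⟨comb v1 l1 (by push_cast; ring) (by norm_num) ?_, comb v2 l1 (by push_cast; ring) (by norm_num) ?_, ?_⟩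
    · exact ct2
    · exact ct2
    intro t ht hrelt ht1000
    have hk1 : 10 ^ 18 ≤ ‖-1 / kap (σ (-1 / s))‖ := by
      exact big_step (II_kap hrel' h1000 hk18) hk (norm_nonneg _)
    have P' := (lp0 hb).phi h2 hs hrel
    have hrelt' : -1 / kap (σ (-1 / s)) * (σ t - 1) = σ t ^ 2 * (σ t + 1) := by
      have h := rel_map σ hrelt
      have e : -1 / kap (σ (-1 / s)) = σ (kap s) := by
        have h0 := P'.k0
        rw [← map_kap, kap_hat hs, map_div₀, map_neg, map_one]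
        have : σ (kap s) ≠ 0 := (_root_.map_ne_zero σ).2 h0
        field_simp
      rw [e]
      exact h
    obtain ⟨u1, u2⟩ := lvlB_II_II g1 h2 (lp0 hb) N E hk18 (by norm_num) (by norm_num) hs hrel hrel' h1000 hk1 ht
      hrelt hrelt' ht1000
    have l2 := log_two_steps l1 (II_log hrelt' ht1000 hk1) (by norm_num)
    refine ⟨comb u1 l2 (by push_cast; ring) (by norm_num) ?_, comb u2 l2 (by push_cast; ring) (by norm_num) ?_⟩
    · exact ct5
    · exact ct5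

end Pool.Agent.K6.H95.OC
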