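import Pool.Agent.K6.H95.OC.Neck
set_option autoImplicit false

/-!
The isogeny attached to the root near `1`.
-/

namespace Pool.Agent.K6.H95.OC

open Pool.Agent.W367.KT Pool.Agent.T6.H7.SX
open Set MeasureTheory intervalIntegral

theorem sub_one_ne {F : Type*} [Field F] (h2 : (2 : F) ≠ 0) {k s : F} (hrel : k * (s - 1) = s ^ 2 * (s + 1)) :
    s - 1 ≠ 0 := by
  intro h0
  have h1 : s = 1 := by linear_combination h0
  rw [h0, h1] at hrel
  apply h2
  linear_combination -hrel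

theorem kap_eq {F : Type*} [Field F] {k s : F} (hrel : k * (s - 1) = s ^ 2 * (s + 1)) (h1 : s - 1 ≠ 0)
    (h0 : s ≠ 0) : kap s = k ^ 2 / s ^ 5 := by
  unfold kap
  rw [div_pow, div_div, div_eq_div_iff (mul_ne_zero (pow_ne_zero 2 h1) h0) (pow_ne_zero 5 h0)]
  linear_combination (-s * (k * (s - 1) + s ^ 2 * (s + 1))) * hrel

section one

variable {k s : ℂ} (hrel : k * (s - 1) = s ^ 2 * (s + 1)) (hs : ‖s‖ ≤ 10) (hk : 10 ^ 18 ≤ ‖k‖)
include hrel hs hk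

theorem I_near : ‖s - 1‖ ≤ 1 / 10 ^ 14 := by
  have h1 : ‖k‖ * ‖s - 1‖ = ‖s‖ ^ 2 * ‖s + 1‖ := by
    rw [← norm_mul, hrel, norm_mul, norm_pow]
  have h2 : ‖s + 1‖ ≤ 11 := by
    have := norm_add_le s 1
    rw [norm_one] at this
    linarith
  have h3 : ‖s‖ ^ 2 * ‖s + 1‖ ≤ 10 ^ 2 * 11 := by gcongr
  have h4 := norm_nonneg (s - 1)
  nlinarith

theorem I_ns : ‖s‖ ≤ 1 + 1 / 10 ^ 14 := by
  have h := norm_add_le (1 : ℂ) (s - 1)
  rw [norm_one, add_sub_cancel] at h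
  linarith [I_near hrel hs hk]

theorem I_ns' : 1 - 1 / 10 ^ 14 ≤ ‖s‖ := by
  have h := norm_sub_norm_le (1 : ℂ) (1 - s)
  rw [norm_one, norm_sub_rev, sub_sub_cancel] at h
  linarith [I_near hrel hs hk]

theorem I_s0 : s ≠ 0 := by
  rw [← norm_pos_iff]
  have := I_ns' hrel hs hk
  norm_num at this
  linarith

theorem I_sq : ‖1 - s ^ 2‖ ≤ 1 / 10 ^ 12 := by
  have e : 1 - s ^ 2 = -((s - 1) * (s + 1)) := by ring
  rw [e, norm_neg, norm_mul]
  have h1 := I_near hrel hs hk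
  have h2 : ‖s + 1‖ ≤ 11 := by
    have := norm_add_le s 1
    rw [norm_one] at this
    linarith
  calc ‖s - 1‖ * ‖s + 1‖ ≤ 1 / 10 ^ 14 * 11 := by gcongr
    _ ≤ _ := by norm_num

theorem I_log : |Real.log ‖kap s‖ - 2 * Real.log ‖k‖| ≤ 1 := by
  have h0 := I_s0 hrel hs hk
  have h1 := sub_one_ne two_ne_zero hrel
  have hk0 : k ≠ 0 := by
    rw [← norm_pos_iff]; linarith
  have a1 := I_ns hrel hs hk
  have a2 := I_ns' hrel hs hk
  have hpos := norm_pos_iff.2 h0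
  rw [kap_eq hrel h1 h0, norm_div, norm_pow, norm_pow, Real.log_div (pow_ne_zero 2 (norm_ne_zero_iff.2 hk0))
    (pow_ne_zero 5 hpos.ne'), Real.log_pow, Real.log_pow]
  push_cast
  have b1 := Real.log_le_sub_one_of_pos hpos
  have b2 := Real.one_sub_inv_le_log_of_pos hpos
  have b3 : ‖s‖⁻¹ ≤ (9 / 10)⁻¹ := inv_anti₀ (by norm_num) (by norm_num at a2 ⊢; linarith)
  have b4 : ((9:ℝ) / 10)⁻¹ ≤ 1 + 1 / 5 := by norm_num
  rw [abs_le]
  norm_num at a1 a2
  constructor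
  · linarith
  · linarith

end one

namespace Neck

variable {R : ℝ} {k : ℂ} {x y : ℝ → ℂ} {c d : ℂ} {m : ℤ} {lo hi B : ℝ}
  (N : Neck R k x y c d m lo hi B) {s : ℂ} (hrel : k * (s - 1) = s ^ 2 * (s + 1)) (hs : ‖s‖ ≤ 10)
  (hk : 10 ^ 18 ≤ ‖k‖)
include N hrel hs hk

theorem I_x1 (t : ℝ) : ‖(s - 1) * x t‖ ≤ 1 / 10 ^ 14 := by
  rw [norm_mul]
  calc ‖s - 1‖ * ‖x t‖ ≤ 1 / 10 ^ 14 * (1 / 6) := by
        gcongr
        · exact I_near hrel hs hk
        · exact N.ux6 t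
    _ ≤ _ := by norm_num

theorem I_y1 (t : ℝ) : ‖(s - 1) * y t‖ ≤ 1 / 2 := by
  have e : (s - 1) * y t = s ^ 2 * (s + 1) * x t * (1 + x t)⁻¹ * w k x y t := by
    rw [← hrel]
    conv_lhs => rw [N.y_eq t]
    ring
  rw [e, norm_mul, norm_mul, norm_mul, norm_mul, norm_pow, norm_inv]
  have h1 := I_ns hrel hs hk
  have h2 : ‖s + 1‖ ≤ 2 + 1 / 10 ^ 14 := by
    have := norm_add_le s 1
    rw [norm_one] at this
    linarith
  have h3 : ‖1 + x t‖⁻¹ ≤ 6 / 5 := by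
    rw [inv_le_comm₀ (by linarith [N.n1p t]) (by norm_num)]
    linarith [N.n1p t]
  have h4 := N.ux6 t
  have h5 := N.nw' t
  have h6 := N.n1p t
  calc ‖s‖ ^ 2 * ‖s + 1‖ * ‖x t‖ * ‖1 + x t‖⁻¹ * ‖w k x y t‖
      ≤ (1 + 1 / 10 ^ 14) ^ 2 * (2 + 1 / 10 ^ 14) * (1 / 6) * (6 / 5) * (1001 / 1000) := by gcongr
    _ ≤ 1 / 2 := by norm_num

theorem I_dx (t : ℝ) : (s - 1) * x t - 1 ≠ 0 := by
  intro h
  have h1 : (s - 1) * x t = 1 := by linear_combination h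
  have h2 := N.I_x1 hrel hs hk t
  rw [h1, norm_one] at h2
  norm_num at h2

theorem I_dy (t : ℝ) : (s - 1) * y t - 1 ≠ 0 := by
  intro h
  have h1 : (s - 1) * y t = 1 := by linear_combination h
  have h2 := N.I_y1 hrel hs hk t
  rw [h1, norm_one] at h2
  norm_num at h2

theorem stepI (hlo : 1 / 200 ≤ lo) : Neck R (kap s) (fun t => Phi s (x t)) (fun t => Phi s (y t))
    (c * c / (s * -1)) (d * d / (s * -1)) (2 * m) (lo ^ 2 / 2) (1 / 30) (3 * J m B) := by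
  have h0 := I_s0 hrel hs hk
  have h1 := sub_one_ne two_ne_zero hrel
  have hk0 : k ≠ 0 := by
    rw [← norm_pos_iff]; linarith
  have hns := I_ns hrel hs hk
  have hns' := I_ns' hrel hs hk
  have hsq := I_sq hrel hs hk
  have hsp := norm_pos_iff.2 h0
  have hm1 : (-1 : ℂ) ≠ 0 := neg_ne_zero.2 one_ne_zero
  refine ⟨N.hR, ?_, ?_, ?_, ?_, by norm_num, by have := N.lo0; positivity, ?_, ?_,
    div_ne_zero (mul_ne_zero N.c0 N.c0) (mul_ne_zero h0 hm1),
    div_ne_zero (mul_ne_zero N.d0 N.d0) (mul_ne_zero h0 hm1), ?_⟩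
  · -- x
    have a1 := N.rx.add_small N.hR N.c0 (1 - s ^ 2) (fun t => by
      have := N.lx t
      norm_num at hsq
      linarith)
    have a2 := (RP.const_mul N.hR N.rx (s - 1)).add_dom N.hR N.B0 hm1 (fun t => by
      rw [norm_neg, norm_one]
      have := N.I_x1 hrel hs hk t
      norm_num at this ⊢
      linarith)
    have a3 := rep_phi N.hR N.rx (a1.congr (B := fun t => x t + 1 - s ^ 2) (fun t => by ring) rfl rfl le_rfl le_rfl)
      (a2.congr (B := fun t => (s - 1) * x t - 1) (fun t => by ring) rfl rfl le_rfl le_rfl)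
    exact a3.congr (fun t => rfl) rfl (by ring) (by linarith [N.BJ]) (by linarith [N.BJ])
  · -- y
    have a1 := N.ry.add_small N.hR N.d0 (1 - s ^ 2) (fun t => by
      have := N.yb t
      norm_num at hsq
      linarith)
    have a2 := (RP.const_mul N.hR N.ry (s - 1)).add_dom N.hR N.B0 hm1 (fun t => by
      rw [norm_neg, norm_one]
      exact N.I_y1 hrel hs hk t)
    have a3 := rep_phi N.hR N.ry (a1.congr (B := fun t => y t + 1 - s ^ 2) (fun t => by ring) rfl rfl le_rfl le_rfl)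
      (a2.congr (B := fun t => (s - 1) * y t - 1) (fun t => by ring) rfl rfl le_rfl le_rfl)
    exact a3.congr (fun t => rfl) rfl (by ring) (by linarith [N.BJ]) (by linarith [N.BJ])
  · intro t
    unfold Phi
    rw [norm_div, norm_mul, norm_mul]
    have a1 := N.I_x1 hrel hs hk t
    have a2 : ‖(s - 1) * x t - 1‖ ≤ 1 + 1 / 10 ^ 14 := by
      have := norm_sub_le ((s - 1) * x t) 1
      rw [norm_one] at this
      linarith
    have a3 : lo - 1 / 10 ^ 12 ≤ ‖x t + 1 - s ^ 2‖ := by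
      have e : x t + 1 - s ^ 2 = x t - -(1 - s ^ 2) := by ring
      have := norm_sub_norm_le (x t) (-(1 - s ^ 2))
      rw [norm_neg, ← e] at this
      linarith [N.lx t]
    have a4 : 0 < ‖(s - 1) * x t - 1‖ := norm_pos_iff.2 (N.I_dx hrel hs hk t)
    rw [le_div_iff₀ (by positivity)]
    have a5 : lo * (lo - 1 / 10 ^ 12) ≤ ‖x t‖ * ‖x t + 1 - s ^ 2‖ := by
      apply mul_le_mul (N.lx t) a3 (by norm_num; linarith) (norm_nonneg _)
    have a6 : ‖s‖ * ‖(s - 1) * x t - 1‖ ≤ (1 + 1 / 10 ^ 14) * (1 + 1 / 10 ^ 14) := by gcongr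
    have a7 : lo ^ 2 / 2 * (‖s‖ * ‖(s - 1) * x t - 1‖) ≤ lo ^ 2 / 2 * ((1 + 1 / 10 ^ 14) * (1 + 1 / 10 ^ 14)) := by
      gcongr
    refine a7.trans (le_trans ?_ a5)
    have hl := N.lo0
    have : lo ^ 2 / 2 * ((1 + 1 / 10 ^ 14) * (1 + 1 / 10 ^ 14)) ≤ lo ^ 2 * (6 / 10) := by
      norm_num
      nlinarith
    have h8 : lo * (1 / 10 ^ 12) ≤ lo ^ 2 * (4 / 10) := by
      norm_num
      nlinarith
    linarith
  · intro t
    unfold Phi
    rw [norm_div, norm_mul, norm_mul]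
    have a1 := N.I_x1 hrel hs hk t
    have a2 : 1 - 1 / 10 ^ 14 ≤ ‖(s - 1) * x t - 1‖ := by
      have := norm_sub_norm_le (1 : ℂ) ((s - 1) * x t)
      rw [norm_one, norm_sub_rev] at this
      linarith
    have a3 : ‖x t + 1 - s ^ 2‖ ≤ 1 / 6 + 1 / 10 ^ 12 := by
      have e : x t + 1 - s ^ 2 = x t + (1 - s ^ 2) := by ring
      rw [e]
      linarith [norm_add_le (x t) (1 - s ^ 2), N.ux6 t]
    have a4 : 0 < ‖(s - 1) * x t - 1‖ := norm_pos_iff.2 (N.I_dx hrel hs hk t)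
    rw [div_le_iff₀ (by positivity)]
    have a5 : ‖x t‖ * ‖x t + 1 - s ^ 2‖ ≤ 1 / 6 * (1 / 6 + 1 / 10 ^ 12) := by
      have := N.ux6 t
      gcongr
    have a6 : (1 - 1 / 10 ^ 14) * (1 - 1 / 10 ^ 14) ≤ ‖s‖ * ‖(s - 1) * x t - 1‖ := by
      apply mul_le_mul hns' a2 (by norm_num) hsp.le
    norm_num at a5 a6 ⊢
    linarith
  · intro t
    exact (N.ly t).phi hrel h0 h1 (N.I_dx hrel hs hk t) (N.I_dy hrel hs hk t)
  · intro t
    unfold Phi
    rw [norm_div, norm_mul, norm_mul]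
    have a1 := N.I_y1 hrel hs hk t
    have a2 : ‖(s - 1) * y t - 1‖ ≤ 3 / 2 := by
      have := norm_sub_le ((s - 1) * y t) 1
      rw [norm_one] at this
      linarith
    have a3 : ‖y t‖ - 1 ≤ ‖y t + 1 - s ^ 2‖ := by
      have e : y t + 1 - s ^ 2 = y t - -(1 - s ^ 2) := by ring
      have := norm_sub_norm_le (y t) (-(1 - s ^ 2))
      rw [norm_neg, ← e] at this
      norm_num at hsq
      linarith
    have a4 : 0 < ‖(s - 1) * y t - 1‖ := norm_pos_iff.2 (N.I_dy hrel hs hk t)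
    rw [le_div_iff₀ (by positivity)]
    have a5 := N.yb t
    have a6 : ‖s‖ * ‖(s - 1) * y t - 1‖ ≤ 2 * (3 / 2) := by
      gcongr
      norm_num at hns
      linarith
    have a7 : (10:ℝ) ^ 4 * (10 ^ 4 - 1) ≤ ‖y t‖ * ‖y t + 1 - s ^ 2‖ := by
      apply mul_le_mul a5 (by linarith) (by norm_num) (norm_nonneg _)
    norm_num at a7 ⊢
    linarith
  · rw [kap_eq hrel h1 h0]
    exact div_ne_zero (pow_ne_zero 2 hk0) (pow_ne_zero 5 h0)

end Neck

end Pool.Agent.K6.H95.OC
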