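import Pool.Agent.K6.H95.OC.StepI
set_option autoImplicit false

/-!
The isogenies attached to the large roots.
-/

namespace Pool.Agent.K6.H95.OC

open Pool.Agent.W367.KT Pool.Agent.T6.H7.SX
open Set MeasureTheory intervalIntegral

section two

variable {k s : ℂ} (hrel : k * (s - 1) = s ^ 2 * (s + 1)) (hs : 1000 ≤ ‖s‖) (hk : 10 ^ 18 ≤ ‖k‖)
include hrel hs

theorem II_kq : ‖k‖ ≤ 401 / 400 * ‖s‖ ^ 2 ∧ 399 / 400 * ‖s‖ ^ 2 ≤ ‖k‖ := by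
  have h0 := s_ne_II hs
  have h1 := nk_II hs hrel
  have hp : 0 < ‖s‖ := norm_pos_iff.2 h0
  have e : ‖k‖ = ‖k / s ^ 2‖ * ‖s‖ ^ 2 := by
    rw [norm_div, norm_pow]
    field_simp
  constructor
  · have h2 := norm_add_le (1 : ℂ) (k / s ^ 2 - 1)
    rw [norm_one, add_sub_cancel] at h2
    rw [e]
    gcongr
    linarith
  · have h2 := norm_sub_norm_le (1 : ℂ) (1 - k / s ^ 2)
    rw [norm_one, norm_sub_rev, sub_sub_cancel] at h2
    rw [e]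
    gcongr
    linarith

include hk

theorem II_ns : 10 ^ 8 ≤ ‖s‖ := by
  by_contra hcon
  push Not at hcon
  have h1 := (II_kq hrel hs).1
  have h2 : ‖s‖ ^ 2 ≤ (10 ^ 8) ^ 2 := by gcongr
  norm_num at h2 hk
  have h3 : ‖s‖ ^ 2 ≤ 10 ^ 8 * ‖s‖ := by nlinarith
  nlinarith

theorem II_q : ‖k / s ^ 2 - 1‖ ≤ 1 / 10 ^ 7 := by
  have h0 := s_ne_II hs
  have h1 := s1_ne_II hs
  have e : k / s ^ 2 - 1 = 2 / (s - 1) := by
    field_simp
    linear_combination hrel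
  have h2 := norm_sub_norm_le s (1 : ℂ)
  rw [norm_one] at h2
  have h3 := II_ns hrel hs hk
  rw [e, norm_div, Complex.norm_ofNat, div_le_iff₀ (norm_pos_iff.2 h1)]
  norm_num at h3 ⊢
  linarith

theorem II_kap : ‖k‖ ≤ 8 * ‖-1 / kap s‖ ^ 2 := by
  have h0 := s_ne_II hs
  have h1 := s1_ne_II hs
  have hk0 : k ≠ 0 := by rw [← norm_pos_iff]; linarith
  rw [kap_eq hrel h1 h0, norm_div, norm_neg, norm_one, norm_div, norm_pow, norm_pow, one_div_div]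
  have h2 := (II_kq hrel hs).1
  have hp : 0 < ‖s‖ := norm_pos_iff.2 h0
  have hkp : 0 < ‖k‖ := norm_pos_iff.2 hk0
  have h3 : ‖s‖ / 2 ≤ ‖s‖ ^ 5 / ‖k‖ ^ 2 := by
    rw [div_le_div_iff₀ (by norm_num) (by positivity)]
    have h4 : ‖k‖ ^ 2 ≤ (401 / 400 * ‖s‖ ^ 2) ^ 2 := by gcongr
    calc ‖s‖ * ‖k‖ ^ 2 ≤ ‖s‖ * (401 / 400 * ‖s‖ ^ 2) ^ 2 := by gcongr
      _ = ‖s‖ ^ 5 * (401 / 400) ^ 2 := by ring
      _ ≤ ‖s‖ ^ 5 * 2 := by gcongr; norm_num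
  calc ‖k‖ ≤ 401 / 400 * ‖s‖ ^ 2 := h2
    _ ≤ 8 * (‖s‖ / 2) ^ 2 := by nlinarith
    _ ≤ _ := by gcongr

theorem II_log : |Real.log ‖-1 / kap s‖ - 1 / 2 * Real.log ‖k‖| ≤ 1 := by
  have h0 := s_ne_II hs
  have h1 := s1_ne_II hs
  have hk0 : k ≠ 0 := by rw [← norm_pos_iff]; linarith
  have hp : 0 < ‖s‖ := norm_pos_iff.2 h0
  have hkp : 0 < ‖k‖ := norm_pos_iff.2 hk0
  have hq := II_q hrel hs hk
  have hq1 : 9 / 10 ≤ ‖k / s ^ 2‖ := by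
    have h2 := norm_sub_norm_le (1 : ℂ) (1 - k / s ^ 2)
    rw [norm_one, norm_sub_rev, sub_sub_cancel] at h2
    norm_num at hq
    linarith
  have hq2 : ‖k / s ^ 2‖ ≤ 11 / 10 := by
    have h2 := norm_add_le (1 : ℂ) (k / s ^ 2 - 1)
    rw [norm_one, add_sub_cancel] at h2
    norm_num at hq
    linarith
  have hqp : 0 < ‖k / s ^ 2‖ := by linarith
  have e : ‖k‖ = ‖k / s ^ 2‖ * ‖s‖ ^ 2 := by
    rw [norm_div, norm_pow]
    field_simp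
  have l1 : Real.log ‖k‖ = Real.log ‖k / s ^ 2‖ + 2 * Real.log ‖s‖ := by
    conv_lhs => rw [e]
    rw [Real.log_mul hqp.ne' (by positivity), Real.log_pow]
    push_cast
    ring
  have b1 := Real.log_le_sub_one_of_pos hqp
  have b2 := Real.one_sub_inv_le_log_of_pos hqp
  have b3 : ‖k / s ^ 2‖⁻¹ ≤ (9 / 10)⁻¹ := inv_anti₀ (by norm_num) hq1
  have b4 : ((9:ℝ) / 10)⁻¹ ≤ 1 + 1 / 5 := by norm_num
  rw [kap_eq hrel h1 h0, norm_div, norm_neg, norm_one, norm_div, norm_pow, norm_pow, one_div_div,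
    Real.log_div (by positivity) (by positivity), Real.log_pow, Real.log_pow]
  push_cast
  rw [abs_le]
  constructor
  · linarith
  · linarith

end two

/-- the bound for the derivative of the error term -/
noncomputable def DE (m : ℤ) (lo B : ℝ) : ℝ :=
  2 * (4 * (2 * (1 + 2 * Real.pi * |((0:ℤ):ℝ)| + (2 * B + J m B))) + 1) *
    ((1 / lo) * (1 + 2 * Real.pi * |((-m : ℤ):ℝ)| + B)) +
  2 * (2 * 1 * (2 * (2 * (1 + 2 * Real.pi * |((0:ℤ):ℝ)| + J m B)) * (2 * (1 + 2 * Real.pi * |((0:ℤ):ℝ)| + J m B)))) *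
    (2 * ((1 / lo) * (1 + 2 * Real.pi * |((-m : ℤ):ℝ)| + B)) * ((1 / lo) * (1 + 2 * Real.pi * |((-m : ℤ):ℝ)| + B)))

namespace Neck

variable {R : ℝ} {k : ℂ} {x y : ℝ → ℂ} {c d : ℂ} {m : ℤ} {lo hi B : ℝ}
  (N : Neck R k x y c d m lo hi B)

/-- the error term -/
noncomputable def Er (k s : ℂ) (x y : ℝ → ℂ) (t : ℝ) : ℂ :=
  (k / s ^ 2 * w k x y t + -1) * (x t)⁻¹ + ((s ^ 2)⁻¹ * ((1 + x t) * (1 + x t))) * ((x t)⁻¹ * (x t)⁻¹)

include N in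
theorem rep_w : RP R (w k x y) (d * 1 * (k * c)⁻¹) 0 (2 * B + J m B) := by
  have h := (N.ry.mul N.hR N.rep_1px).mul N.hR ((RP.const_mul N.hR N.rx k).inv)
  refine h.congr (fun t => ?_) rfl (by ring) (by linarith) (by linarith)
  unfold w
  rw [div_eq_mul_inv]

include N in
theorem ny' (t : ℝ) : ‖y t‖ ≤ 1 / 4 * ‖k‖ := by
  rw [N.y_eq t, norm_mul, norm_mul, norm_mul, norm_inv]
  have h1 : ‖1 + x t‖⁻¹ ≤ 6 / 5 := by
    rw [inv_le_comm₀ (by linarith [N.n1p t]) (by norm_num)]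
    linarith [N.n1p t]
  have h2 := N.ux6 t
  have h3 := N.nw' t
  have h4 := norm_nonneg k
  calc ‖k‖ * ‖x t‖ * ‖1 + x t‖⁻¹ * ‖w k x y t‖ ≤ ‖k‖ * (1 / 6) * (6 / 5) * (1001 / 1000) := by gcongr
    _ ≤ 1 / 4 * ‖k‖ := by linarith

variable {s : ℂ} (hrel : k * (s - 1) = s ^ 2 * (s + 1)) (hs : 1000 ≤ ‖s‖)
  (hk : 10 ^ 18 ≤ ‖k‖) (hlo : 1 / 200 ≤ lo)
include N hrel hs hk hlo

theorem II_w1 (t : ℝ) : ‖w k x y t - 1‖ ≤ 1 / 10 ^ 10 := by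
  refine (N.wb t).trans ?_
  have h1 := N.ny t
  have h2 : (10:ℝ) ^ 18 * (1 / 200) / 2 ≤ ‖k‖ * lo / 2 := by gcongr
  rw [div_le_iff₀ (norm_pos_iff.2 (N.y_ne t))]
  norm_num at h2 ⊢
  linarith

theorem II_qw (t : ℝ) : ‖k / s ^ 2 * w k x y t + -1‖ ≤ 2 / 10 ^ 7 := by
  have e : k / s ^ 2 * w k x y t + -1 = (k / s ^ 2 - 1) * w k x y t + (w k x y t - 1) := by ring
  rw [e]
  have h3 := norm_add_le ((k / s ^ 2 - 1) * w k x y t) (w k x y t - 1)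
  rw [norm_mul] at h3
  have h4 := II_q hrel hs hk
  have h5 := N.nw' t
  have h6 := N.II_w1 hrel hs hk hlo t
  have h7 : ‖k / s ^ 2 - 1‖ * ‖w k x y t‖ ≤ 1 / 10 ^ 7 * (1001 / 1000) :=
    mul_le_mul h4 h5 (norm_nonneg _) (by norm_num)
  norm_num at h6 h7 ⊢
  linarith

theorem II_E (t : ℝ) : ‖Er k s x y t‖ ≤ 1 / 1000 := by
  unfold Er
  have hx := N.lx t
  have hxp : 0 < ‖x t‖ := norm_pos_iff.2 (N.x_ne t)
  have h1 := N.II_qw hrel hs hk hlo t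
  have h2 : ‖x t‖⁻¹ ≤ 200 := by
    rw [inv_le_comm₀ hxp (by norm_num)]
    norm_num
    linarith
  have h3 := II_ns hrel hs hk
  have h4 : (‖s‖ ^ 2)⁻¹ ≤ 1 / 10 ^ 16 := by
    rw [inv_le_comm₀ (by positivity) (by norm_num)]
    calc (1 / 10 ^ 16 : ℝ)⁻¹ = (10 ^ 8) ^ 2 := by norm_num
      _ ≤ ‖s‖ ^ 2 := by gcongr
  have h5 := N.n1p' t
  refine (norm_add_le _ _).trans ?_
  rw [norm_mul, norm_mul, norm_mul, norm_mul, norm_mul, norm_inv, norm_inv, norm_pow]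
  calc ‖k / s ^ 2 * w k x y t + -1‖ * ‖x t‖⁻¹ + (‖s‖ ^ 2)⁻¹ * (‖1 + x t‖ * ‖1 + x t‖) * (‖x t‖⁻¹ * ‖x t‖⁻¹)
      ≤ 2 / 10 ^ 7 * 200 + 1 / 10 ^ 16 * (7 / 6 * (7 / 6)) * (200 * 200) := by gcongr
    _ ≤ _ := by norm_num

theorem II_BD : BD (Er k s x y) (DE m lo B) := by
  have hB := N.B0
  have hJ := N.J0
  have hl := N.lo0
  have a1 : BD (w k x y) (2 * (1 + 2 * Real.pi * |((0:ℤ):ℝ)| + (2 * B + J m B))) :=
    N.rep_w.bd N.hR (by linarith) (fun t => (N.nw' t).trans (by norm_num))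
  have a2 : BD (fun _ => k / s ^ 2) 2 := (BD.const _).mono (by
    have h2 := norm_add_le (1 : ℂ) (k / s ^ 2 - 1)
    rw [norm_one, add_sub_cancel] at h2
    have := II_q hrel hs hk
    norm_num at this
    linarith)
  have a3 : BD (fun _ => (-1 : ℂ)) 1 := (BD.const _).mono (by rw [norm_neg, norm_one])
  have a4 : BD (fun _ => (s ^ 2)⁻¹) 1 := (BD.const _).mono (by
    rw [norm_inv, norm_pow]
    rw [inv_le_one₀ (by positivity)]
    nlinarith)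
  have a5 : BD (fun t => (x t)⁻¹) ((1 / lo) * (1 + 2 * Real.pi * |((-m : ℤ):ℝ)| + B)) :=
    N.rx.inv.bd N.hR hB (fun t => by
      rw [norm_inv, one_div]
      exact inv_anti₀ hl (N.lx t))
  have a6 : BD (fun t => 1 + x t) (2 * (1 + 2 * Real.pi * |((0:ℤ):ℝ)| + J m B)) :=
    N.rep_1px.bd N.hR hJ (fun t => (N.n1p' t).trans (by norm_num))
  have a7 := (((a2.mul a1).add a3).mul a5).add ((a4.mul (a6.mul a6)).mul (a5.mul a5))
  refine BD.mono (f := Er k s x y) a7 (le_of_eq ?_)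
  unfold DE
  ring

theorem II_key (t : ℝ) : (1 + y t) / x t + 1 - s ^ 2 = -s ^ 2 * x t * (1 + x t)⁻¹ * (1 - Er k s x y t) := by
  have h1 := N.x_ne t
  have h2 := N.ne1p t
  have h3 := s_ne_II hs
  have hy := N.y_eq t
  rw [hy]
  unfold Er
  generalize w k x y t = W at *
  generalize x t = X at *
  have hX1 : X * (1 + X) ≠ 0 := mul_ne_zero h1 h2
  field_simp
  ring

theorem II_x2b (t : ℝ) : 10 ^ 6 * ‖s‖ ≤ ‖(1 + y t) / x t‖ := by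
  have hxp : 0 < ‖x t‖ := norm_pos_iff.2 (N.x_ne t)
  rw [norm_div, le_div_iff₀ hxp]
  have h1 := N.ny t
  have h2 := N.yb t
  have h3 : ‖y t‖ - 1 ≤ ‖1 + y t‖ := by
    have h := norm_sub_norm_le (y t) (-1 : ℂ)
    rw [norm_neg, norm_one, sub_neg_eq_add, add_comm] at h
    exact h
  have h4 := (II_kq hrel hs).2
  have h5 := II_ns hrel hs hk
  have h6 : 399 / 400 * ‖s‖ ^ 2 * (1 / 200) / 2 ≤ ‖y t‖ := by
    refine le_trans ?_ h1
    gcongr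
  have h7 := N.ux6 t
  have h8 : 10 ^ 6 * ‖s‖ * ‖x t‖ ≤ 10 ^ 6 * ‖s‖ * (1 / 6) := by gcongr
  refine h8.trans (le_trans ?_ h3)
  norm_num at h5
  nlinarith

theorem II_x2_ne (t : ℝ) : (1 + y t) / x t ≠ 0 := by
  rw [← norm_pos_iff]
  have := N.II_x2b hrel hs hk hlo t
  linarith

theorem II_nonzero (t : ℝ) : (s - 1) * x t - 1 ≠ 0 ∧ (s - 1) * y t - 1 ≠ 0 ∧ x t + 1 - s ^ 2 ≠ 0 ∧
    (s - 1) * ((1 + y t) / x t) - 1 ≠ 0 ∧ y t + 1 - s ^ 2 ≠ 0 := by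
  have h5 := II_ns hrel hs hk
  have h6 : 10 ^ 8 - 1 ≤ ‖s - 1‖ := by
    have := norm_sub_norm_le s (1 : ℂ)
    rw [norm_one] at this
    linarith
  have key : ∀ z : ℂ, 1 / 200 ≤ ‖z‖ → (s - 1) * z - 1 ≠ 0 := by
    intro z hz h
    have h1 : (s - 1) * z = 1 := by linear_combination h
    have h2 : ‖s - 1‖ * ‖z‖ = 1 := by rw [← norm_mul, h1, norm_one]
    have h3 : (10 ^ 8 - 1) * (1 / 200 : ℝ) ≤ ‖s - 1‖ * ‖z‖ := by
      apply mul_le_mul h6 hz (by norm_num) (norm_nonneg _)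
    rw [h2] at h3
    norm_num at h3
  have hsq : (10 ^ 8) ^ 2 ≤ ‖s‖ ^ 2 := by gcongr
  refine ⟨key _ (hlo.trans (N.lx t)), key _ (by linarith [N.yb t]), ?_, key _ ?_, ?_⟩
  · intro h
    have h1 : s ^ 2 = x t + 1 := by linear_combination -h
    have h2 : ‖s‖ ^ 2 = ‖x t + 1‖ := by rw [← norm_pow, h1]
    have h3 := norm_add_le (x t) 1
    rw [norm_one] at h3
    have := N.ux6 t
    norm_num at hsq
    linarith
  · have := N.II_x2b hrel hs hk hlo t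
    linarith
  · intro h
    have h1 : s ^ 2 = y t + 1 := by linear_combination -h
    have h2 : ‖s‖ ^ 2 = ‖y t + 1‖ := by rw [← norm_pow, h1]
    have h3 := norm_add_le (y t) 1
    rw [norm_one] at h3
    have h4 := N.ny' t
    have h5 := (II_kq hrel hs).1
    norm_num at hsq
    linarith

end Neck

end Pool.Agent.K6.H95.OC
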