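import Pool.Agent.K6.H95.OC.StepII
set_option autoImplicit false

/-!
The isogenies attached to the large roots: the new neck.
-/

namespace Pool.Agent.K6.H95.OC

open Pool.Agent.W367.KT Pool.Agent.T6.H7.SX
open Set MeasureTheory intervalIntegral

/-- the new bound -/
noncomputable def BII (m : ℤ) (lo B : ℝ) : ℝ :=
  (2 * J m B) + (B + J m B + (1 + 2 * DE m lo B)) + 2 * J 0 (2 * J m B) + 4 * J m B

namespace Neck

variable {R : ℝ} {k : ℂ} {x y : ℝ → ℂ} {c d : ℂ} {m : ℤ} {lo hi B : ℝ}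
  (N : Neck R k x y c d m lo hi B)
variable {s : ℂ} (hrel : k * (s - 1) = s ^ 2 * (s + 1)) (hs : 1000 ≤ ‖s‖)
  (hk : 10 ^ 18 ≤ ‖k‖) (hlo : 1 / 200 ≤ lo)
include N hrel hs hk hlo

theorem II_ly (t : ℝ) : Ly (-1 / kap s) (ZPhi s ((1 + y t) / x t)) (ZPhi s (x t)) := by
  have h0 := s_ne_II hs
  have h1 := s1_ne_II hs
  have hk0 : k ≠ 0 := by rw [← norm_pos_iff]; linarith
  obtain ⟨n1, n2, n3, n4, n5⟩ := N.II_nonzero hrel hs hk hlo t
  have hx := N.x_ne t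
  have hy := N.y_ne t
  have hkap : kap s ≠ 0 := by
    rw [kap_eq hrel h1 h0]
    exact div_ne_zero (pow_ne_zero 2 hk0) (pow_ne_zero 5 h0)
  have p1 : Phi s (x t) ≠ 0 := by
    unfold Phi
    exact div_ne_zero (mul_ne_zero hx n3) (mul_ne_zero h0 n1)
  have p2 : Phi s (y t) ≠ 0 := by
    unfold Phi
    exact div_ne_zero (mul_ne_zero hy n5) (mul_ne_zero h0 n2)
  have e1 : Ly (kap s) (Phi s (x t)) (Phi s (y t)) := (N.ly t).phi hrel h0 h1 n1 n2
  have e2 := e1.zz hkap p1 p2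
  rw [(N.ly t).phi_shift hrel h0 hx n1 n2 n3 n4, Zz_Phi h0 n1, Zz_Phi h0 n4] at e2
  exact e2.symm

/-- the size of the first function -/
theorem II_X (t : ℝ) : ‖x t‖ / 2 ≤ ‖ZPhi s ((1 + y t) / x t)‖ ∧
    ‖ZPhi s ((1 + y t) / x t)‖ ≤ 21 / 20 * ‖x t‖ := by
  have h0 := s_ne_II hs
  have hp : 0 < ‖s‖ := norm_pos_iff.2 h0
  have hxp : 0 < ‖x t‖ := norm_pos_iff.2 (N.x_ne t)
  have h1p : 0 < ‖1 + x t‖ := norm_pos_iff.2 (N.ne1p t)
  have b1 := N.II_x2b hrel hs hk hlo t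
  have hkey := N.II_key hrel hs hk hlo t
  have hE := N.II_E hrel hs hk hlo t
  set z : ℂ := (1 + y t) / x t with hz
  have hs8 := II_ns hrel hs hk
  set A : ℝ := ‖z‖ with hA
  have hA0 : 0 < A := by linarith
  -- sizes of the factors
  have f1 : ‖z + 1‖ ≤ A + 1 ∧ A - 1 ≤ ‖z + 1‖ := by
    constructor
    · have := norm_add_le z 1
      rwa [norm_one] at this
    · have := norm_sub_norm_le z (-1)
      rw [norm_neg, norm_one, sub_neg_eq_add] at this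
      exact this
  have f2 : ‖z - s‖ ≤ A + ‖s‖ ∧ A - ‖s‖ ≤ ‖z - s‖ := ⟨norm_sub_le _ _, norm_sub_norm_le _ _⟩
  have f3 : ‖1 - Er k s x y t‖ ≤ 1001 / 1000 ∧ 999 / 1000 ≤ ‖1 - Er k s x y t‖ := by
    constructor
    · have := norm_sub_le (1 : ℂ) (Er k s x y t)
      rw [norm_one] at this
      linarith
    · have := norm_sub_norm_le (1 : ℂ) (Er k s x y t)
      rw [norm_one] at this
      linarith
  -- the relation of z and s²
  have f4 : z * (1 + x t) = s ^ 2 * (k / s ^ 2 * w k x y t + (1 + x t) * (x t)⁻¹ * (s ^ 2)⁻¹) := by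
    have hy := N.y_eq t
    have h1 := N.x_ne t
    have h2 := N.ne1p t
    rw [hz, hy]
    generalize w k x y t = W at *
    generalize x t = X at *
    field_simp
    ring
  set p : ℂ := k / s ^ 2 * w k x y t + (1 + x t) * (x t)⁻¹ * (s ^ 2)⁻¹ with hpdef
  have f5 : ‖p - 1‖ ≤ 1 / 1000 := by
    have e : p - 1 = (k / s ^ 2 * w k x y t + -1) + (1 + x t) * (x t)⁻¹ * (s ^ 2)⁻¹ := by rw [hpdef]; ring
    rw [e]
    refine (norm_add_le _ _).trans ?_
    rw [norm_mul, norm_mul, norm_inv, norm_inv, norm_pow]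
    have g1 := N.II_qw hrel hs hk hlo t
    have g2 : ‖x t‖⁻¹ ≤ 200 := by
      rw [inv_le_comm₀ hxp (by norm_num)]
      have := N.lx t
      norm_num
      linarith
    have g4 : (‖s‖ ^ 2)⁻¹ ≤ 1 / 10 ^ 16 := by
      rw [inv_le_comm₀ (by positivity) (by norm_num)]
      calc (1 / 10 ^ 16 : ℝ)⁻¹ = (10 ^ 8) ^ 2 := by norm_num
        _ ≤ ‖s‖ ^ 2 := by gcongr
    have g5 := N.n1p' t
    calc ‖k / s ^ 2 * w k x y t + -1‖ + ‖1 + x t‖ * ‖x t‖⁻¹ * (‖s‖ ^ 2)⁻¹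
        ≤ 2 / 10 ^ 7 + 7 / 6 * 200 * (1 / 10 ^ 16) := by gcongr
      _ ≤ _ := by norm_num
  have f6 : ‖p‖ ≤ 1001 / 1000 ∧ 999 / 1000 ≤ ‖p‖ := by
    constructor
    · have := norm_add_le (1 : ℂ) (p - 1)
      rw [norm_one, add_sub_cancel] at this
      linarith
    · have := norm_sub_norm_le (1 : ℂ) (1 - p)
      rw [norm_one, norm_sub_rev, sub_sub_cancel] at this
      linarith
  have f7 : A * ‖1 + x t‖ = ‖s‖ ^ 2 * ‖p‖ := by
    rw [hA, ← norm_mul, f4, norm_mul, norm_pow]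
  -- the norm of the numerator
  have f8 : ‖z * (z + 1 - s ^ 2)‖ * ‖p‖ = A ^ 2 * ‖x t‖ * ‖1 - Er k s x y t‖ := by
    rw [hkey, norm_mul, norm_mul, norm_mul, norm_mul, norm_neg, norm_pow, norm_inv, ← hA]
    have : ‖s‖ ^ 2 * ‖p‖ = A * ‖1 + x t‖ := f7.symm
    calc A * (‖s‖ ^ 2 * ‖x t‖ * ‖1 + x t‖⁻¹ * ‖1 - Er k s x y t‖) * ‖p‖
        = A * (‖s‖ ^ 2 * ‖p‖) * ‖x t‖ * ‖1 + x t‖⁻¹ * ‖1 - Er k s x y t‖ := by ring
      _ = A * (A * ‖1 + x t‖) * ‖x t‖ * ‖1 + x t‖⁻¹ * ‖1 - Er k s x y t‖ := by rw [this]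
      _ = _ := by field_simp
  have hsA : ‖s‖ ≤ A / 10 ^ 6 := by
    rw [le_div_iff₀ (by norm_num)]
    linarith
  have h1A : 1 ≤ A / 10 ^ 6 := by
    norm_num at hs8 ⊢
    rw [le_div_iff₀ (by norm_num)]
    norm_num at b1
    linarith
  have d1 : ‖z + 1‖ * ‖z - s‖ ≤ (A + A / 10 ^ 6) * (A + A / 10 ^ 6) := by
    gcongr
    · linarith [f1.1]
    · linarith [f2.1]
  have d2 : (A - A / 10 ^ 6) * (A - A / 10 ^ 6) ≤ ‖z + 1‖ * ‖z - s‖ := by
    apply mul_le_mul (by linarith [f1.2]) (by linarith [f2.2]) _ (norm_nonneg _)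
    have : A / 10 ^ 6 ≤ A := by
      apply div_le_self hA0.le
      norm_num
    linarith
  have d3 : 0 < ‖z + 1‖ * ‖z - s‖ := by
    refine lt_of_lt_of_le ?_ d2
    have : A / 10 ^ 6 < A := by
      rw [div_lt_iff₀ (by norm_num)]
      norm_num
      linarith
    have := sub_pos.2 this
    positivity
  have e : ‖ZPhi s z‖ * (‖z + 1‖ * ‖z - s‖) = ‖z * (z + 1 - s ^ 2)‖ := by
    unfold ZPhi
    rw [norm_div, norm_neg, ← norm_mul (z + 1)]
    rw [← norm_mul] at d3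
    rw [div_mul_cancel₀ _ d3.ne']
  set V : ℝ := ‖ZPhi s z‖ with hV
  have hV0 : 0 ≤ V := norm_nonneg _
  have e2 : V * (‖z + 1‖ * ‖z - s‖) * ‖p‖ = A ^ 2 * ‖x t‖ * ‖1 - Er k s x y t‖ := by rw [e, f8]
  constructor
  · -- lower bound
    have g1 : A ^ 2 * ‖x t‖ * (999 / 1000) ≤ V * ((A + A / 10 ^ 6) * (A + A / 10 ^ 6)) * (1001 / 1000) := by
      calc A ^ 2 * ‖x t‖ * (999 / 1000) ≤ A ^ 2 * ‖x t‖ * ‖1 - Er k s x y t‖ := by
            gcongr; exact f3.2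
        _ = V * (‖z + 1‖ * ‖z - s‖) * ‖p‖ := e2.symm
        _ ≤ _ := by gcongr; exact f6.1
    have g2 : A ^ 2 * (‖x t‖ * (999 / 1000)) ≤ A ^ 2 * (V * ((1 + 1 / 10 ^ 6) * (1 + 1 / 10 ^ 6)) * (1001 / 1000)) := by
      calc A ^ 2 * (‖x t‖ * (999 / 1000)) = A ^ 2 * ‖x t‖ * (999 / 1000) := by ring
        _ ≤ _ := g1
        _ = _ := by ring
    have g3 := le_of_mul_le_mul_left g2 (by positivity)
    norm_num at g3
    linarith
  · have hpe : 0 < ‖p‖ := by linarith [f6.2]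
    have g1 : V * ((A - A / 10 ^ 6) * (A - A / 10 ^ 6)) * (999 / 1000) ≤ A ^ 2 * ‖x t‖ * (1001 / 1000) := by
      have q1 : 0 ≤ (A - A / 10 ^ 6) * (A - A / 10 ^ 6) := mul_self_nonneg _
      calc V * ((A - A / 10 ^ 6) * (A - A / 10 ^ 6)) * (999 / 1000)
          ≤ V * (‖z + 1‖ * ‖z - s‖) * ‖p‖ := by gcongr; exact f6.2
        _ = A ^ 2 * ‖x t‖ * ‖1 - Er k s x y t‖ := e2
        _ ≤ _ := by gcongr; exact f3.1
    have g2 : A ^ 2 * (V * ((1 - 1 / 10 ^ 6) * (1 - 1 / 10 ^ 6)) * (999 / 1000)) ≤ A ^ 2 * (‖x t‖ * (1001 / 1000)) := by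
      calc A ^ 2 * (V * ((1 - 1 / 10 ^ 6) * (1 - 1 / 10 ^ 6)) * (999 / 1000))
          = V * ((A - A / 10 ^ 6) * (A - A / 10 ^ 6)) * (999 / 1000) := by ring
        _ ≤ _ := g1
        _ = _ := by ring
    have g3 := le_of_mul_le_mul_left g2 (by positivity)
    norm_num at g3
    linarith

theorem stepII (hhi : hi * (21 / 20) ≤ 1 / 6) : Neck R (-1 / kap s) (fun t => ZPhi s ((1 + y t) / x t))
    (fun t => ZPhi s (x t)) (-(d / c * (-s ^ 2 * c)) / (d / c * (d / c))) (-(c * (1 - s ^ 2)) / (1 * -s)) m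
    (lo / 2) (hi * (21 / 20)) (BII m lo B) := by
  have h0 := s_ne_II hs
  have h1 := s1_ne_II hs
  have hk0 : k ≠ 0 := by rw [← norm_pos_iff]; linarith
  have hB := N.B0
  have hJ := N.J0
  have hc := N.c0
  have hd := N.d0
  have hBD := N.II_BD hrel hs hk hlo
  have hDE : 0 ≤ DE m lo B := hBD.nonneg
  have hJ2 : 0 ≤ J 0 (2 * J m B) := by unfold J; positivity
  have hs8 := II_ns hrel hs hk
  have hsq0 : 1 - s ^ 2 ≠ 0 := by
    intro h
    apply sq_ne_II hs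
    linear_combination -h
  have hkap : kap s ≠ 0 := by
    rw [kap_eq hrel h1 h0]
    exact div_ne_zero (pow_ne_zero 2 hk0) (pow_ne_zero 5 h0)
  refine ⟨N.hR, ?_, ?_, ?_, ?_, hhi, by have := N.lo0; positivity, N.II_ly hrel hs hk hlo, ?_, ?_, ?_, ?_⟩
  · have a1 := N.rep_x2
    have a2 : RP R (fun t => (1 + y t) / x t + 1 - s ^ 2) (-s ^ 2 * c) m (B + J m B + (1 + 2 * DE m lo B)) := by
      have b1 := rp_near hBD.1 (fun t => (N.II_E hrel hs hk hlo t).trans (by norm_num)) hBD.2.2 (R := R)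
      have b2 := ((RP.const_mul N.hR N.rx (-s ^ 2)).mul N.hR N.rep_1px.inv).mul N.hR b1
      refine b2.congr (fun t => ?_) (by rw [inv_one]; ring) (by ring) (by linarith) (by linarith)
      rw [N.II_key hrel hs hk hlo t]
    have a3 : RP R (fun t => (1 + y t) / x t + 1) (d / c) 0 (J 0 (2 * J m B)) :=
      a1.add_small N.hR (div_ne_zero hd hc) 1 (fun t => by
        rw [norm_one]
        have := N.II_x2b hrel hs hk hlo t
        linarith)
    have a4 : RP R (fun t => (1 + y t) / x t - s) (d / c) 0 (J 0 (2 * J m B)) :=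
      (a1.add_small N.hR (div_ne_zero hd hc) (-s) (fun t => by
        rw [norm_neg]
        have := N.II_x2b hrel hs hk hlo t
        linarith)).congr (fun t => by ring) rfl rfl le_rfl le_rfl
    exact (rep_zphi N.hR a1 a2 a3 a4).congr (fun t => rfl) rfl (by ring) (by unfold BII; linarith)
      (by unfold BII; linarith)
  · have a2 : RP R (fun t => x t + 1 - s ^ 2) (1 - s ^ 2) 0 (J m B) :=
      (N.rx.add_dom N.hR hB hsq0 (fun t => by
        have := nsq_II hs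
        rw [norm_sub_rev] at this
        linarith [N.ux6 t])).congr (fun t => by ring) rfl rfl le_rfl le_rfl
    have a4 : RP R (fun t => x t - s) (-s) 0 (J m B) :=
      (N.rx.add_dom N.hR hB (neg_ne_zero.2 h0) (fun t => by
        rw [norm_neg]
        linarith [N.ux6 t])).congr (fun t => by ring) rfl rfl le_rfl le_rfl
    exact (rep_zphi N.hR N.rx a2 N.rep_xp1 a4).congr (fun t => rfl) rfl (by ring) (by unfold BII; linarith)
      (by unfold BII; linarith)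
  · intro t
    have := (N.II_X hrel hs hk hlo t).1
    linarith [N.lx t]
  · intro t
    have := (N.II_X hrel hs hk hlo t).2
    linarith [N.ux t]
  · intro t
    unfold ZPhi
    rw [norm_div, norm_neg, norm_mul, norm_mul]
    have g1 : ‖x t + 1‖ ≤ 7 / 6 := by rw [add_comm]; exact N.n1p' t
    have g2 : ‖x t - s‖ ≤ 2 * ‖s‖ := by
      have := norm_sub_le (x t) s
      linarith [N.ux6 t]
    have g3 : ‖s‖ ^ 2 / 2 ≤ ‖x t + 1 - s ^ 2‖ := by
      have e : x t + 1 - s ^ 2 = (x t + 1) - s ^ 2 := rfl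
      have := norm_sub_norm_le (s ^ 2) (x t + 1)
      rw [norm_sub_rev, norm_pow] at this
      nlinarith
    have g4 : 0 < ‖x t + 1‖ := by
      rw [add_comm]; exact norm_pos_iff.2 (N.ne1p t)
    have g5 : 0 < ‖x t - s‖ := by
      have := norm_sub_norm_le s (x t)
      rw [norm_sub_rev] at this
      linarith [N.ux6 t]
    rw [le_div_iff₀ (by positivity)]
    have g6 : ‖x t + 1‖ * ‖x t - s‖ ≤ 7 / 6 * (2 * ‖s‖) := by gcongr
    have g7 : 1 / 200 * (‖s‖ ^ 2 / 2) ≤ ‖x t‖ * ‖x t + 1 - s ^ 2‖ := by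
      apply mul_le_mul (hlo.trans (N.lx t)) g3 (by positivity) (norm_nonneg _)
    refine (mul_le_mul_of_nonneg_left g6 (by norm_num)).trans (le_trans ?_ g7)
    norm_num at hs8 ⊢
    nlinarith
  · exact div_ne_zero (neg_ne_zero.2 (mul_ne_zero (div_ne_zero hd hc) (mul_ne_zero (neg_ne_zero.2 (pow_ne_zero 2 h0)) hc)))
      (mul_ne_zero (div_ne_zero hd hc) (div_ne_zero hd hc))
  · exact div_ne_zero (neg_ne_zero.2 (mul_ne_zero hc hsq0)) (mul_ne_zero one_ne_zero (neg_ne_zero.2 h0))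
  · exact div_ne_zero (neg_ne_zero.2 one_ne_zero) hkap

end Neck

end Pool.Agent.K6.H95.OC
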